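import Pool.Agent.Hhelper14.SAW.Mass

/-!
Reflection in the horizontal axis.
-/

namespace Pool.Agent.Hhelper14.SAW

/-- The reflection. -/
def sg (z : ℤ × ℤ) : ℤ × ℤ := (z.1 + z.2, -z.2)

@[simp] lemma sg_sg (z : ℤ × ℤ) : sg (sg z) = z := by simp [sg]

lemma sg_inj : Function.Injective sg := fun x y h => by
  have := congrArg sg h
  simpa using this

lemma sg_sub (x y : ℤ × ℤ) : sg (x - y) = sg x - sg y := by
  ext <;> simp [sg] <;> ring

lemma hon_sg {z : ℤ × ℤ} (h : hon z) : hon (sg z) := by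
  simp only [hon, sg] at *; omega

lemma U_sg {z : ℤ × ℤ} (h : U z) : U (sg z) := by
  simp only [U, sg] at *; omega

lemma adj_sg {x y : ℤ × ℤ} (h : Adj x y) : Adj (sg x) (sg y) :=
  ⟨hon_sg h.1, hon_sg h.2.1, by rw [← sg_sub]; exact U_sg h.2.2⟩

lemma D_sg {c : Par} {z : ℤ × ℤ} (h : D c z) : D c.refl (sg z) := by
  obtain ⟨g0, g1, g2, g3, g4, g5, g6⟩ := h
  obtain ⟨a, b⟩ := z
  refine ⟨hon_sg g0, ?_⟩
  simp only [slit, Par.refl, sg, F0, F1, F2, F3, F4, F5] at *
  rcases lt_trichotomy b 0 with hb | hb | hb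
  · have := g6 hb
    clear g5 g6
    refine ⟨by omega, by omega, by omega, by omega, ?_, ?_⟩ <;> intro h <;> omega
  · have := g5 (by omega)
    clear g5 g6
    refine ⟨by omega, by omega, by omega, by omega, ?_, ?_⟩ <;> intro h <;> omega
  · have := g5 (by omega)
    clear g5 g6
    refine ⟨by omega, by omega, by omega, by omega, ?_, ?_⟩ <;> intro h <;> omega

lemma refl_refl (c : Par) : c.refl.refl = c := rfl

lemma sg_L (z : ℤ × ℤ) : sg (L z) = R (sg z) := by
  ext <;> simp [sg, L, R]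
lemma sg_R (z : ℤ × ℤ) : sg (R z) = L (sg z) := by
  ext <;> simp [sg, L, R]

lemma Tn_sg : ∀ {P : List (ℤ × ℤ)}, HChain P → NB P → Tn (P.map sg) = - Tn P
  | [], _, _ => by simp
  | [_], _, _ => by simp
  | [_, _], _, _ => by simp
  | u :: v :: w :: r, hC, hN => by
    have h1 := List.isChain_cons_cons.1 hC
    have h2 := List.isChain_cons_cons.1 h1.2
    have IH := Tn_sg h1.2 hN.2
    have hx := hex_nbr h1.1 h2.1 hN.1
    simp only [List.map_cons] at IH ⊢
    rw [Tn_cons_cons_cons, Tn_cons_cons_cons, IH, ← sg_sub, ← sg_sub]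
    have hU := h2.1.2.2
    have hLR := dl_LR hU
    have hLR' := dl_LR (U_sg hU)
    rcases hx with hx | hx
    · rw [hx, sg_L, hLR.1, hLR'.2]; ring
    · rw [hx, sg_R, hLR.2, hLR'.1]; ring

lemma hchain_sg {P : List (ℤ × ℤ)} (h : HChain P) : HChain (P.map sg) := by
  refine (List.isChain_map sg).2 ?_
  exact List.IsChain.imp (fun _ _ hh => adj_sg hh) h

lemma saw_sg {c : Par} {n : ℕ} {P : List (ℤ × ℤ)} (h : IsSaw (D c) n P) : IsSaw (D c.refl) n (P.map sg) := by
  obtain ⟨h1, h2, h3, t, rfl, h5⟩ := h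
  refine ⟨by simpa using h1, h2.map sg_inj, hchain_sg h3, t.map sg, ?_, ?_⟩
  · simp [sg, o, o']
  · intro x hx
    have hx' : x ∈ (t ++ [o]).map sg := by
      simpa [sg, o] using hx
    obtain ⟨y, hy, rfl⟩ := List.mem_map.1 hx'
    exact D_sg (h5 y hy)

lemma ex_refl_le (c : Par) (k : ℤ) (n : ℕ) : (ex c (-k) n).card ≤ (ex c.refl k n).card := by
  refine Finset.card_le_card_of_injOn (fun Q => Q.map sg) ?_ ?_
  · intro Q hQ
    rw [Finset.mem_coe, mem_ex] at hQ
    obtain ⟨u, v, w, r, rfl, h2, h3, h4, h5, h6⟩ := hQ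
    rw [Finset.mem_coe, mem_ex]
    refine ⟨sg u, sg v, sg w, r.map sg, rfl, saw_sg h2, adj_sg h3, fun e => h4 (sg_inj e), ?_, ?_⟩
    · intro h
      apply h5
      have := D_sg h
      rwa [refl_refl, sg_sg] at this
    · have hC : HChain (u :: v :: w :: r) := List.isChain_cons_cons.2 ⟨h3, h2.2.2.1⟩
      have hN : NB (u :: v :: w :: r) := ⟨h4, NB_of_nodup h2.2.1⟩
      have := Tn_sg hC hN
      simp only [List.map_cons] at this
      rw [this, h6]; ring
  · intro Q _ Q' _ h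
    exact List.map_injective_iff.2 sg_inj h

theorem ex_refl (c : Par) (k : ℤ) (n : ℕ) : (ex c (-k) n).card = (ex c.refl k n).card := by
  refine le_antisymm (ex_refl_le c k n) ?_
  have := ex_refl_le c.refl (-k) n
  rwa [neg_neg, refl_refl] at this

theorem mass_refl (c : Par) (k : ℤ) : mass c (-k) = mass c.refl k := by
  unfold mass
  simp_rw [ex_refl]

end Pool.Agent.Hhelper14.SAW
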