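import Pool.Agent.Hhelper14.SAW.Strip

/-!
The number of walks is bounded below by the mass of the slit exits.
-/

namespace Pool.Agent.Hhelper14.SAW

lemma walk_finite : ∀ n : ℕ, {P : List (ℤ × ℤ) | IsWalk n P}.Finite := by
  intro n
  induction n with
  | zero =>
    refine Set.Finite.subset (Set.finite_singleton [o]) ?_
    rintro P ⟨h1, -, -, h4⟩
    match P, h1 with
    | [x], _ => simp at h4; simp [h4]
  | succ n ih =>
    have hf : (Set.Icc ((-1 : ℤ), (-1 : ℤ)) (1, 1)).Finite := Set.finite_Icc _ _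
    refine Set.Finite.subset ((hf.prod ih).image (fun q => (q.2.headI + q.1) :: q.2)) ?_
    rintro P ⟨h1, h2, h3, h4⟩
    match P, h1 with
    | u :: v :: r, h1 =>
      refine ⟨(u - v, v :: r), ⟨?_, ?_, ?_, ?_, ?_⟩, ?_⟩
      · have := (List.isChain_cons_cons.1 h3).1.2.2
        simp only [U, Prod.fst_sub, Prod.snd_sub] at this
        rw [Set.mem_Icc]
        constructor <;> constructor <;> simp <;> omega
      · simpa using h1
      · exact (List.nodup_cons.1 h2).2
      · exact (List.isChain_cons_cons.1 h3).2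
      · simpa using h4
      · simp

lemma card_saw_le {p : ℤ × ℤ → Prop} [DecidablePred p] (hp : Dom p) (n : ℕ) : (saw p n).card ≤ an n := by
  unfold an
  rw [← Set.ncard_coe_finset]
  refine Set.ncard_le_ncard_of_injOn (fun P => P.dropLast) ?_ ?_ (walk_finite n)
  · intro P hP
    rw [Finset.mem_coe, mem_saw hp] at hP
    obtain ⟨h1, h2, h3, t, rfl, h5⟩ := hP
    have e : (t ++ [o, o']).dropLast = t ++ [o] := by
      have : t ++ [o, o'] = (t ++ [o]) ++ [o'] := by simp
      rw [this, List.dropLast_concat]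
    simp only [Set.mem_ofPred_eq, e]
    have e2 : t ++ [o, o'] = (t ++ [o]) ++ [o'] := by simp
    rw [e2] at h1 h2 h3
    refine ⟨by simp at h1 ⊢; omega, (List.nodup_append.1 h2).1, (List.isChain_append.1 h3).1, by simp⟩
  · intro P hP P' hP' h
    rw [Finset.mem_coe, mem_saw hp] at hP hP'
    obtain ⟨h1, h2, h3, t, rfl, h5⟩ := hP
    obtain ⟨h1', h2', h3', t', rfl, h5'⟩ := hP'
    have e : ∀ s : List (ℤ × ℤ), (s ++ [o, o']).dropLast = s ++ [o] := by
      intro s
      have : s ++ [o, o'] = (s ++ [o]) ++ [o'] := by simp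
      rw [this, List.dropLast_concat]
    simp only [e] at h
    have := List.append_cancel_right h
    rw [this]

/-- In a large domain only slit exits are possible for short walks. -/
lemma no_side (M n : ℕ) (hn : n + 2 ≤ M) {k : ℤ} (hk : -3 ≤ k ∧ k ≤ 3) : ex (Par.all M) k n = ∅ := by
  rw [Finset.eq_empty_iff_forall_notMem]
  intro Q hQ
  obtain ⟨u, v, w, r, rfl, h2, h3, h4, h5, h6, h7, h8⟩ := ex_kind hQ
  have hv := saw_near (D_dom _) n _ h2 v (by simp)
  obtain ⟨a, b⟩ := u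
  obtain ⟨x, y⟩ := v
  simp only [ExitKind, slit, F0, F1, F2, F3, F4, F5, Par.all, Prod.mk_sub_mk, Prod.mk.injEq] at *
  rcases h8 with h8 | h8 | h8 | h8 | h8 | h8 | h8 | h8 | h8 | h8 | h8 <;> omega

lemma mass_partial_le (N M n : ℕ) (h : N ≤ M) (hn : (4 * N + 1) ^ 2 ≤ n) :
    mass (Par.all N) 5 ≤ ∑ k ∈ Finset.range n, xc ^ (k + 1) * ((ex (Par.all M) 5 k).card : ℝ) := by
  rw [mass_eq (B := n) (fun m hm => saw_empty (le_trans hn hm))]
  refine Finset.sum_le_sum fun k _ => ?_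
  have h1 : ((ex (Par.all N) 5 k).card : ℝ) ≤ ((ex (Par.all M) 5 k).card : ℝ) := by
    exact_mod_cast Finset.card_le_card (ex_mono (Par.all_le h) (by simp [Par.side]) k)
  have := xc_pos
  exact mul_le_mul_of_nonneg_left h1 (by positivity)

lemma sum_Icc_five (f : ℤ → ℂ) : ∑ k ∈ Finset.Icc (-5 : ℤ) 5, f k =
    f (-5) + f (-4) + f (-3) + f (-2) + f (-1) + f 0 + f 1 + f 2 + f 3 + f 4 + f 5 := by
  have : Finset.Icc (-5 : ℤ) 5 = {-5, -4, -3, -2, -1, 0, 1, 2, 3, 4, 5} := by decide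
  rw [this]
  repeat rw [Finset.sum_insert (by decide)]
  rw [Finset.sum_singleton]
  ring

lemma zt_five : zt 5 + zt (-5) = ((-2 * Real.sin (Real.pi / 8) : ℝ) : ℂ) := by
  apply Complex.ext
  · rw [Complex.add_re, zt_re, zt_re, Complex.ofReal_re]
    have e1 : ((5:ℤ):ℝ) * (Real.pi / 8) = Real.pi / 8 + Real.pi / 2 := by push_cast; ring
    have e2 : ((-5:ℤ):ℝ) * (Real.pi / 8) = -(Real.pi / 8 + Real.pi / 2) := by push_cast; ring
    rw [e1, e2, Real.cos_neg, Real.cos_add_pi_div_two]; ring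
  · rw [Complex.add_im, zt_im, zt_im, Complex.ofReal_im]
    have e2 : ((-5:ℤ):ℝ) * (Real.pi / 8) = -(((5:ℤ):ℝ) * (Real.pi / 8)) := by push_cast; ring
    rw [e2, Real.sin_neg]; ring

/-- The identity for the number of walks weighted by the turning. -/
theorem an_lower (hrefl : ∀ (c : Par) (k : ℤ) (n : ℕ), (ex c (-k) n).card = (ex c.refl k n).card)
    (N n : ℕ) (hn : (4 * N + 1) ^ 2 ≤ n) :
    1 + 2 * Real.sin (Real.pi / 8) * mass (Par.all N) 5 ≤ xc ^ n * (an n : ℝ) := by
  set c := Par.all (n + 2) with hc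
  have hcr : c.refl = c := rfl
  have ht := telescope (D_dom c) n
  have hx := xc_pos
  have hs : 0 < Real.sin (Real.pi / 8) := Real.sin_pos_of_pos_of_lt_pi (by positivity) (by linarith [Real.pi_pos])
  have h1 : ∀ k ∈ Finset.range n, (xc : ℂ) ^ (k + 1) * ∑ Q ∈ exits (D c) k, zt (Tn Q) =
      ((-2 * Real.sin (Real.pi / 8) * (xc ^ (k + 1) * ((ex c 5 k).card : ℝ)) : ℝ) : ℂ) := by
    intro k hk
    rw [Finset.mem_range] at hk
    have hz : ∀ j : ℤ, -3 ≤ j ∧ j ≤ 3 → (ex c j k).card = 0 := by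
      intro j hj
      rw [no_side (n + 2) k (by omega) hj]; rfl
    rw [exits_fiber, sum_Icc_five, hz (-3) (by norm_num), hz (-2) (by norm_num), hz (-1) (by norm_num),
      hz 0 (by norm_num), hz 1 (by norm_num), hz 2 (by norm_num), hz 3 (by norm_num), hrefl c 5 k, hrefl c 4 k, hcr,
      zt_four, zt_neg_four]
    have h5 := zt_five
    have e : zt (-5) = ((-2 * Real.sin (Real.pi / 8) : ℝ) : ℂ) - zt 5 := by rw [← h5]; ring
    rw [e]
    push_cast
    ring
  rw [Finset.sum_congr rfl h1, ← Complex.ofReal_sum] at ht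
  have h2 : (xc : ℂ) ^ n * Tsum (D c) n =
      ((1 + 2 * Real.sin (Real.pi / 8) * ∑ k ∈ Finset.range n, xc ^ (k + 1) * ((ex c 5 k).card : ℝ) : ℝ) : ℂ) := by
    have : (xc : ℂ) ^ n * Tsum (D c) n = 1 - (1 - (xc : ℂ) ^ n * Tsum (D c) n) := by ring
    rw [this, ← ht]
    push_cast
    rw [← Finset.mul_sum]
    ring
  have h3 : ‖(xc : ℂ) ^ n * Tsum (D c) n‖ ≤ xc ^ n * (an n : ℝ) := by
    rw [norm_mul, norm_pow, Complex.norm_real, Real.norm_of_nonneg hx.le]
    refine mul_le_mul_of_nonneg_left ?_ (by positivity)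
    unfold Tsum
    refine le_trans (norm_sum_le _ _) ?_
    simp only [zt_norm, Finset.sum_const, nsmul_eq_mul, mul_one]
    exact_mod_cast card_saw_le (D_dom c) n
  rw [h2, Complex.norm_real] at h3
  have h4 := le_trans (le_abs_self _) h3
  have h5 := mass_partial_le N (n + 2) n (by nlinarith) hn
  rw [← hc] at h5
  nlinarith

end Pool.Agent.Hhelper14.SAW
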