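import Mathlib

/-!
From the growth of `a_n` to the non-intersection probabilities: dyadic iteration.
-/

namespace Pool.Agent.Hhelper14.SAW

open Filter Topology

/-- Dyadic iteration. -/
lemma dyadic_iter (L : ℕ → ℝ) (n : ℕ) (hn : 1 ≤ n) (δ κ : ℝ) (J : ℕ)
    (hstep : ∀ j < J, L (2 ^ j * n) ≤ L (2 ^ (j + 1) * n) / 2 + (δ * Real.log ((2 ^ j * n : ℕ) : ℝ) - κ) / 2) :
    L n ≤ (δ * Real.log n - κ) * (1 - (1 / 2) ^ J) +
      δ * Real.log 2 * (1 - (J + 1) * (1 / 2) ^ J) + (1 / 2) ^ J * L (2 ^ J * n) := by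
  induction J with
  | zero => simp
  | succ J ih =>
    have h1 := ih (fun j hj => hstep j (by omega))
    have h2 := hstep J (by omega)
    have h3 : Real.log ((2 ^ J * n : ℕ) : ℝ) = J * Real.log 2 + Real.log n := by
      have : (n : ℝ) ≠ 0 := by positivity
      push_cast
      rw [Real.log_mul (by positivity) this, Real.log_pow]
    rw [h3] at h2
    have h4 : (0 : ℝ) ≤ (1 / 2) ^ J := by positivity
    have h5 := mul_le_mul_of_nonneg_left h2 h4
    have h6 : ((1 : ℝ) / 2) ^ (J + 1) = (1 / 2) ^ J / 2 := by rw [pow_succ]; ring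
    rw [h6]
    push_cast
    linarith

/-- Upper bound for the ratio `A (2m) / A m ^ 2` at some scale between `n` and `n ^ 2`. -/
theorem ratio_bound (A : ℕ → ℝ) (m0 : ℝ) (hm0 : 0 < m0) (δ : ℝ) (hδ : 0 < δ) (c : ℝ) (hc : 0 < c)
    (hlow : ∀ n : ℕ, 1 ≤ n → c * (n : ℝ) ^ δ * m0 ^ n ≤ A n) (C : ℝ)
    (hup : ∀ n : ℕ, A n ≤ m0 ^ n * Real.exp (C * Real.sqrt n)) :
    ∃ K : ℝ, 0 < K ∧ ∀ n : ℕ, 2 ≤ n → ∃ m : ℕ, n ≤ m ∧ m ≤ n ^ 2 ∧ (∃ j, m = 2 ^ j * n) ∧
      A (2 * m) / (A m) ^ 2 ≤ K * (m : ℝ) ^ (-δ) := by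
  have hApos : ∀ n : ℕ, 1 ≤ n → 0 < A n := fun n hn => by
    refine lt_of_lt_of_le ?_ (hlow n hn)
    have : (0 : ℝ) < n := by exact_mod_cast hn
    positivity
  set L : ℕ → ℝ := fun n => Real.log (A n) - n * Real.log m0 with hL
  have hL1 : ∀ n : ℕ, 1 ≤ n → Real.log c + δ * Real.log n ≤ L n := by
    intro n hn
    have hn0 : (0 : ℝ) < n := by exact_mod_cast hn
    have h1 := Real.log_le_log (by positivity) (hlow n hn)
    rw [Real.log_mul (by positivity) (by positivity), Real.log_mul (by positivity) (by positivity),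
      Real.log_rpow hn0, Real.log_pow] at h1
    simp only [hL]; linarith
  have hL2 : ∀ n : ℕ, 1 ≤ n → L n ≤ |C| * Real.sqrt n := by
    intro n hn
    have h1 := Real.log_le_log (hApos n hn) (hup n)
    rw [Real.log_mul (by positivity) (by positivity), Real.log_exp, Real.log_pow] at h1
    have h2 : C * Real.sqrt n ≤ |C| * Real.sqrt n :=
      mul_le_mul_of_nonneg_right (le_abs_self C) (Real.sqrt_nonneg _)
    simp only [hL]; linarith
  set κ : ℝ := 2 * (δ * Real.log 2 + |C| + |Real.log c| + 1) with hκ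
  have hlog2 : 0 < Real.log 2 := Real.log_pos (by norm_num)
  have hκ0 : 0 < κ := by positivity
  refine ⟨Real.exp κ, Real.exp_pos _, ?_⟩
  intro n hn
  by_contra hcon
  push Not at hcon
  set J := Nat.log 2 n + 1 with hJ
  have hJ1 : 2 ^ (J - 1) ≤ n := by
    rw [hJ, Nat.add_sub_cancel]; exact Nat.pow_log_le_self 2 (by omega)
  have hJ2 : n < 2 ^ J := Nat.lt_pow_succ_log_self (by norm_num) _
  have hn0 : (0 : ℝ) < n := by positivity
  have hstep : ∀ j < J, L (2 ^ j * n) ≤ L (2 ^ (j + 1) * n) / 2 +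
      (δ * Real.log ((2 ^ j * n : ℕ) : ℝ) - κ) / 2 := by
    intro j hj
    have e1 : n ≤ 2 ^ j * n := Nat.le_mul_of_pos_left _ (by positivity)
    have e2 : 2 ^ j * n ≤ n ^ 2 := by
      have : 2 ^ j ≤ 2 ^ (J - 1) := Nat.pow_le_pow_right (by norm_num) (by omega)
      rw [sq]; exact Nat.mul_le_mul (le_trans this hJ1) le_rfl
    have e3 := hcon (2 ^ j * n) e1 e2 ⟨j, rfl⟩
    have e4 : 2 * (2 ^ j * n) = 2 ^ (j + 1) * n := by rw [pow_succ]; ring
    rw [e4] at e3
    have m1 : 1 ≤ 2 ^ j * n := by omega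
    have m2 : 1 ≤ 2 ^ (j + 1) * n := by rw [← e4]; omega
    have p1 := hApos _ m1
    have p2 := hApos _ m2
    have p3 : (0 : ℝ) < ((2 ^ j * n : ℕ) : ℝ) := by exact_mod_cast m1
    have e5 := Real.log_lt_log (by positivity) e3
    rw [Real.log_mul (by positivity) (by positivity), Real.log_exp, Real.log_rpow p3,
      Real.log_div (by positivity) (by positivity), Real.log_pow] at e5
    simp only [hL]
    have e6 : ((2 ^ (j + 1) * n : ℕ) : ℝ) = 2 * ((2 ^ j * n : ℕ) : ℝ) := by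
      rw [← e4]; push_cast; ring
    rw [e6]
    push_cast at e5 ⊢
    linarith
  have h1 := dyadic_iter L n (by omega) δ κ J hstep
  have h2 := hL2 (2 ^ J * n) (by nlinarith)
  have h3 := hL1 n (by omega)
  -- bounds
  have hhalf : ((1 : ℝ) / 2) ^ J ≤ 1 / 2 := by
    have : ((1 : ℝ) / 2) ^ J ≤ (1 / 2) ^ 1 := pow_le_pow_of_le_one (by norm_num) (by norm_num) (by omega)
    simpa using this
  have hhalf0 : (0 : ℝ) < (1 / 2) ^ J := by positivity
  have hlogn : 0 ≤ Real.log n := Real.log_nonneg (by exact_mod_cast (by omega : 1 ≤ n))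
  have h4 : (1 / 2 : ℝ) ^ J * L (2 ^ J * n) ≤ |C| := by
    have e1 : Real.sqrt ((2 ^ J * n : ℕ) : ℝ) ≤ 2 ^ J := by
      rw [Real.sqrt_le_left (by positivity)]
      have : 2 ^ J * n ≤ (2 ^ J) ^ 2 := by rw [sq]; exact Nat.mul_le_mul le_rfl hJ2.le
      exact_mod_cast this
    have e2 : L (2 ^ J * n) ≤ |C| * 2 ^ J := h2.trans (mul_le_mul_of_nonneg_left e1 (abs_nonneg _))
    have e3 := mul_le_mul_of_nonneg_left e2 hhalf0.le
    have e4 : (1 / 2 : ℝ) ^ J * (|C| * 2 ^ J) = |C| := by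
      have : (1 / 2 : ℝ) ^ J * 2 ^ J = 1 := by rw [← mul_pow]; norm_num
      calc (1 / 2 : ℝ) ^ J * (|C| * 2 ^ J) = |C| * ((1 / 2 : ℝ) ^ J * 2 ^ J) := by ring
        _ = |C| := by rw [this, mul_one]
    linarith
  have h5 : (δ * Real.log n - κ) * (1 - (1 / 2) ^ J) ≤ δ * Real.log n - κ / 2 := by
    have e1 : 0 ≤ δ * Real.log n * (1 / 2) ^ J := by positivity
    nlinarith
  have h6 : δ * Real.log 2 * (1 - (J + 1) * (1 / 2) ^ J) ≤ δ * Real.log 2 := by
    have e1 : 0 ≤ δ * Real.log 2 * ((J + 1) * (1 / 2) ^ J) := by positivity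
    nlinarith
  have h7 : -|Real.log c| ≤ Real.log c := neg_abs_le _
  have h8 : κ / 2 = δ * Real.log 2 + |C| + |Real.log c| + 1 := by rw [hκ]; ring
  linarith

/-- If the probabilities have an exponent then it is at most `-δ`. -/
theorem exponent_le (P : ℕ → ℝ) (hP : ∀ n, 0 < P n) (δ K : ℝ) (hK : 0 < K)
    (h : ∀ n : ℕ, 2 ≤ n → ∃ m : ℕ, n ≤ m ∧ P m ≤ K * (m : ℝ) ^ (-δ)) (α : ℝ)
    (hα : Tendsto (fun n : ℕ => Real.log (P n) / Real.log n) atTop (𝓝 α)) : α ≤ -δ := by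
  by_contra hcon
  push Not at hcon
  have h1 : Tendsto (fun n : ℕ => Real.log (P n) / Real.log n - Real.log K / Real.log n) atTop (𝓝 (α - 0)) := by
    refine hα.sub ?_
    exact Tendsto.div_atTop tendsto_const_nhds (Real.tendsto_log_atTop.comp tendsto_natCast_atTop_atTop)
  rw [sub_zero] at h1
  have h2 := h1.eventually (lt_mem_nhds hcon)
  obtain ⟨N, hN⟩ := eventually_atTop.1 h2
  obtain ⟨m, hm1, hm2⟩ := h (max N 2) (le_max_right _ _)
  have hm3 := hN m (le_trans (le_max_left _ _) hm1)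
  have hm4 : 2 ≤ m := le_trans (le_max_right _ _) hm1
  have hm0 : (0 : ℝ) < m := by positivity
  have hlog : 0 < Real.log m := Real.log_pos (by exact_mod_cast hm4)
  have h3 := Real.log_le_log (hP m) hm2
  rw [Real.log_mul (by positivity) (by positivity), Real.log_rpow hm0] at h3
  rw [← sub_div, lt_div_iff₀ hlog] at hm3
  linarith

end Pool.Agent.Hhelper14.SAW
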