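import Pool.Agent.Hhelper14.SAW.Defs
import Pool.Agent.Hhelper14.SAW.TnLow

/-!
Paths in the plane and lists of integer points; pairs of paths and paths of double length.
-/

namespace Pool.Agent.Hhelper14.SAW

/-- A walk as a function of time. -/
def Fw (n : ℕ) (z : ℕ → ℤ × ℤ) : Prop :=
  z 0 = o ∧ (∀ i < n, Adj (z (i + 1)) (z i)) ∧ ∀ i ≤ n, ∀ j ≤ n, z i = z j → i = j

/-- The list of a walk, latest vertex first. -/
def lst (n : ℕ) (z : ℕ → ℤ × ℤ) : List (ℤ × ℤ) := ((List.range (n + 1)).map z).reverse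

/-- The position at time `i`. -/
def pt (P : List (ℤ × ℤ)) (i : ℕ) : ℤ × ℤ := P.reverse.getD i o

lemma isWalk_lst (n : ℕ) (z : ℕ → ℤ × ℤ) : IsWalk n (lst n z) ↔ Fw n z := by
  unfold IsWalk lst Fw HChain
  rw [List.length_reverse, List.length_map, List.length_range, List.nodup_reverse, List.isChain_reverse,
    List.isChain_map, List.isChain_range_succ, List.getLast?_reverse]
  have h0 : ((List.range (n + 1)).map z).head? = some (z 0) := by
    rw [List.range_succ_eq_map]; simp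
  rw [h0]
  constructor
  · rintro ⟨-, h1, h2, h3⟩
    refine ⟨by simpa using h3, fun i hi => h2 i hi, ?_⟩
    intro i hi j hj hij
    have := (List.nodup_map_iff_inj_on List.nodup_range).1 h1 i (by simp; omega) j (by simp; omega) hij
    exact this
  · rintro ⟨h1, h2, h3⟩
    refine ⟨rfl, ?_, fun i hi => h2 i hi, by rw [h1]⟩
    refine (List.nodup_map_iff_inj_on List.nodup_range).2 ?_
    intro i hi j hj hij
    rw [List.mem_range] at hi hj
    exact h3 i (by omega) j (by omega) hij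

lemma lst_congr {n : ℕ} {z z' : ℕ → ℤ × ℤ} (h : ∀ i ≤ n, z i = z' i) : lst n z = lst n z' := by
  unfold lst
  congr 1
  refine List.map_congr_left fun i hi => h i ?_
  rw [List.mem_range] at hi; omega

lemma pt_lst {n : ℕ} {z : ℕ → ℤ × ℤ} {i : ℕ} (h : i ≤ n) : pt (lst n z) i = z i := by
  unfold pt lst
  rw [List.reverse_reverse, List.getD_eq_getElem?_getD, List.getElem?_map, List.getElem?_range (by omega)]
  rfl

lemma lst_inj {n : ℕ} {z z' : ℕ → ℤ × ℤ} (h : lst n z = lst n z') {i : ℕ} (hi : i ≤ n) : z i = z' i := by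
  rw [← pt_lst hi (z := z), h, pt_lst hi]

lemma lst_pt {n : ℕ} {P : List (ℤ × ℤ)} (h : P.length = n + 1) : lst n (pt P) = P := by
  unfold lst
  rw [← List.reverse_inj, List.reverse_reverse]
  apply List.ext_getElem
  · simp [h]
  · intro i h1 h2
    simp only [List.getElem_map, List.getElem_range, pt]
    rw [List.getD_eq_getElem?_getD, List.getElem?_eq_getElem h2]
    rfl

lemma fw_pt {n : ℕ} {P : List (ℤ × ℤ)} (h : IsWalk n P) : Fw n (pt P) := by
  rw [← isWalk_lst, lst_pt h.1]; exact h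

lemma pt_ext {n : ℕ} {P Q : List (ℤ × ℤ)} (hP : P.length = n + 1) (hQ : Q.length = n + 1)
    (h : ∀ i ≤ n, pt P i = pt Q i) : P = Q := by
  rw [← lst_pt hP, ← lst_pt hQ]; exact lst_congr h

/-- Disjoint pairs. -/
def PairsL (n : ℕ) : Set (List (ℤ × ℤ) × List (ℤ × ℤ)) :=
  {q | IsWalk n q.1 ∧ IsWalk n q.2 ∧ ∀ i ≤ n, ∀ j ≤ n, i ≠ 0 → pt q.1 i ≠ pt q.2 j}

/-- The normalisation. -/
def rv (n : ℕ) (c z : ℤ × ℤ) : ℤ × ℤ := if n % 2 = 0 then z - c else c - z

lemma rv_inj {n : ℕ} {c x y : ℤ × ℤ} (h : rv n c x = rv n c y) : x = y := by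
  unfold rv at h
  split_ifs at h
  · exact sub_left_injective h
  · exact sub_right_injective h

lemma rv_self (n : ℕ) (c : ℤ × ℤ) : rv n c c = o := by
  have ho : o = (0 : ℤ × ℤ) := rfl
  rw [ho]
  unfold rv; split_ifs <;> simp

lemma rv_o {n : ℕ} {c c' : ℤ × ℤ} (h : rv n c o = rv n c' o) : c = c' := by
  unfold rv at h
  have ho : o = (0 : ℤ × ℤ) := rfl
  rw [ho] at h
  split_ifs at h
  · simpa using h
  · simpa using h

lemma rv_adj {n : ℕ} {c x y : ℤ × ℤ} (hc : (c.1 - c.2) % 3 = if n % 2 = 0 then 0 else 2) (h : Adj x y) :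
    Adj (rv n c x) (rv n c y) := by
  obtain ⟨h1, h2, h3⟩ := h
  unfold rv
  split_ifs at hc ⊢ with hn
  · refine ⟨?_, ?_, ?_⟩
    · simp only [hon, Prod.fst_sub, Prod.snd_sub] at *; omega
    · simp only [hon, Prod.fst_sub, Prod.snd_sub] at *; omega
    · have : x - c - (y - c) = x - y := by ring
      rw [this]; exact h3
  · refine ⟨?_, ?_, ?_⟩
    · simp only [hon, Prod.fst_sub, Prod.snd_sub] at *; omega
    · simp only [hon, Prod.fst_sub, Prod.snd_sub] at *; omega
    · have : c - x - (c - y) = -(x - y) := by ring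
      rw [this]; exact h3.neg

lemma fw_type {n : ℕ} {z : ℕ → ℤ × ℤ} (h : Fw n z) : ∀ i ≤ n,
    ((z i).1 - (z i).2) % 3 = if i % 2 = 0 then 0 else 2 := by
  intro i
  induction i with
  | zero => intro _; rw [h.1]; simp [o]
  | succ i ih =>
    intro hi
    have h1 := ih (by omega)
    obtain ⟨h2, h3, h4⟩ := h.2.1 i (by omega)
    simp only [hon, U, Prod.fst_sub, Prod.snd_sub] at h2 h3 h4
    split_ifs at h1 ⊢ with h5 h6 h6
    · omega
    · omega
    · omega
    · omega

/-- Concatenation of a disjoint pair. -/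
def cat (n : ℕ) (p p' : ℕ → ℤ × ℤ) (i : ℕ) : ℤ × ℤ :=
  rv n (p n) (if i ≤ n then p (n - i) else p' (i - n))

lemma fw_cat {n : ℕ} {p p' : ℕ → ℤ × ℤ} (hp : Fw n p) (hp' : Fw n p')
    (hd : ∀ i ≤ n, ∀ j ≤ n, i ≠ 0 → p i ≠ p' j) : Fw (2 * n) (cat n p p') := by
  have ht := fw_type hp n le_rfl
  refine ⟨?_, ?_, ?_⟩
  · simp only [cat, if_pos (Nat.zero_le n), Nat.sub_zero]
    exact rv_self _ _
  · intro i hi
    refine rv_adj ht ?_
    by_cases h1 : i + 1 ≤ n
    · rw [if_pos h1, if_pos (by omega)]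
      have := hp.2.1 (n - (i + 1)) (by omega)
      have e : n - (i + 1) + 1 = n - i := by omega
      rw [e] at this
      exact this.symm
    · rw [if_neg h1]
      by_cases h2 : i ≤ n
      · have e : i = n := by omega
        subst e
        rw [if_pos le_rfl, Nat.sub_self, hp.1, ← hp'.1]
        have e2 : i + 1 - i = 0 + 1 := by omega
        rw [e2]
        exact hp'.2.1 0 (by omega)
      · rw [if_neg h2]
        have e : i + 1 - n = i - n + 1 := by omega
        rw [e]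
        exact hp'.2.1 (i - n) (by omega)
  · intro i hi j hj hij
    have h := rv_inj hij
    split_ifs at h with h1 h2 h2
    · have := hp.2.2 _ (by omega) _ (by omega) h
      omega
    · exfalso
      by_cases h3 : n - i = 0
      · rw [h3, hp.1, ← hp'.1] at h
        have := hp'.2.2 _ (by omega) _ (by omega) h
        omega
      · exact hd _ (by omega) _ (by omega) h3 h
    · exfalso
      by_cases h3 : n - j = 0
      · rw [h3, hp.1, ← hp'.1] at h
        have := hp'.2.2 _ (by omega) _ (by omega) h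
        omega
      · exact hd _ (by omega) _ (by omega) h3 h.symm
    · have := hp'.2.2 _ (by omega) _ (by omega) h
      omega

/-- First half of a walk of double length, reversed. -/
def cutA (n : ℕ) (q : ℕ → ℤ × ℤ) (j : ℕ) : ℤ × ℤ := rv n (q n) (q (n - j))
/-- Second half. -/
def cutB (n : ℕ) (q : ℕ → ℤ × ℤ) (j : ℕ) : ℤ × ℤ := rv n (q n) (q (n + j))

lemma fw_cutA {n : ℕ} {q : ℕ → ℤ × ℤ} (hq : Fw (2 * n) q) : Fw n (cutA n q) := by
  have ht := fw_type hq n (by omega)
  refine ⟨rv_self _ _, ?_, ?_⟩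
  · intro i hi
    refine rv_adj ht ?_
    have := hq.2.1 (n - (i + 1)) (by omega)
    have e : n - (i + 1) + 1 = n - i := by omega
    rw [e] at this
    exact this.symm
  · intro i hi j hj hij
    have := hq.2.2 _ (by omega) _ (by omega) (rv_inj hij)
    omega

lemma fw_cutB {n : ℕ} {q : ℕ → ℤ × ℤ} (hq : Fw (2 * n) q) : Fw n (cutB n q) := by
  have ht := fw_type hq n (by omega)
  refine ⟨rv_self _ _, ?_, ?_⟩
  · intro i hi
    refine rv_adj ht ?_
    exact hq.2.1 (n + i) (by omega)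
  · intro i hi j hj hij
    have := hq.2.2 _ (by omega) _ (by omega) (rv_inj hij)
    omega

lemma walk_fin (n : ℕ) : {P | IsWalk n P}.Finite := walk_finite n

lemma pairs_le (n : ℕ) : (PairsL n).ncard ≤ an (2 * n) := by
  unfold an
  refine Set.ncard_le_ncard_of_injOn (fun q => lst (2 * n) (cat n (pt q.1) (pt q.2))) ?_ ?_ (walk_finite _)
  · rintro ⟨P, P'⟩ ⟨h1, h2, h3⟩
    exact (isWalk_lst _ _).2 (fw_cat (fw_pt h1) (fw_pt h2) h3)
  · rintro ⟨P, P'⟩ ⟨h1, h2, h3⟩ ⟨Q, Q'⟩ ⟨g1, g2, g3⟩ heq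
    simp only at h1 h2 h3 g1 g2 g3 heq
    have hall : ∀ i ≤ 2 * n, cat n (pt P) (pt P') i = cat n (pt Q) (pt Q') i := fun i hi => lst_inj heq hi
    have hn := hall n (by omega)
    simp only [cat, if_pos (le_refl n), Nat.sub_self, (fw_pt h1).1, (fw_pt g1).1] at hn
    have hc := rv_o hn
    have hP : P = Q := by
      refine pt_ext h1.1 g1.1 ?_
      intro i hi
      have := hall (n - i) (by omega)
      simp only [cat, if_pos (Nat.sub_le n i), hc] at this
      have := rv_inj this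
      have e : n - (n - i) = i := by omega
      rwa [e] at this
    have hP' : P' = Q' := by
      refine pt_ext h2.1 g2.1 ?_
      intro i hi
      rcases Nat.eq_zero_or_pos i with rfl | hpos
      · rw [(fw_pt h2).1, (fw_pt g2).1]
      · have := hall (n + i) (by omega)
        have e0 : ¬ (n + i ≤ n) := by omega
        simp only [cat, if_neg e0, hc] at this
        have := rv_inj this
        have e : n + i - n = i := by omega
        rwa [e] at this
    rw [hP, hP']

lemma pairsL_finite (n : ℕ) : (PairsL n).Finite :=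
  ((walk_finite n).prod (walk_finite n)).subset (fun _ hq => ⟨hq.1, hq.2.1⟩)

lemma le_pairs (n : ℕ) : an (2 * n) ≤ (PairsL n).ncard := by
  unfold an
  refine Set.ncard_le_ncard_of_injOn (fun Q => (lst n (cutA n (pt Q)), lst n (cutB n (pt Q)))) ?_ ?_
    (pairsL_finite n)
  · intro Q hQ
    have hq := fw_pt hQ
    refine ⟨(isWalk_lst _ _).2 (fw_cutA hq), (isWalk_lst _ _).2 (fw_cutB hq), ?_⟩
    intro i hi j hj hi0 h
    simp only [pt_lst hi, pt_lst hj] at h
    have := hq.2.2 _ (by omega) _ (by omega) (rv_inj h)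
    omega
  · intro Q hQ R hR heq
    simp only [Prod.mk.injEq] at heq
    have hQ' : IsWalk (2 * n) Q := hQ
    have hR' : IsWalk (2 * n) R := hR
    have hA : ∀ i ≤ n, cutA n (pt Q) i = cutA n (pt R) i := fun i hi => lst_inj heq.1 hi
    have hB : ∀ i ≤ n, cutB n (pt Q) i = cutB n (pt R) i := fun i hi => lst_inj heq.2 hi
    have hn := hA n le_rfl
    simp only [cutA, Nat.sub_self, (fw_pt hQ').1, (fw_pt hR').1] at hn
    have hc := rv_o hn
    refine pt_ext hQ'.1 hR'.1 ?_
    intro i hi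
    rcases le_or_gt i n with h | h
    · have := hA (n - i) (by omega)
      simp only [cutA, hc] at this
      have := rv_inj this
      have e : n - (n - i) = i := by omega
      rwa [e] at this
    · have := hB (i - n) (by omega)
      simp only [cutB, hc] at this
      have := rv_inj this
      have e : n + (i - n) = i := by omega
      rwa [e] at this

lemma pairsL_card (n : ℕ) : (PairsL n).ncard = an (2 * n) := le_antisymm (pairs_le n) (le_pairs n)

/-! ### Embedding -/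

open Pool.Agent.Hhelper14.Honeycomb

lemma omega_re : omega.re = 1 / 2 := by
  unfold omega
  have : (Real.pi / 3 * Complex.I : ℂ) = ((Real.pi / 3 : ℝ) : ℂ) * Complex.I := by push_cast; ring
  rw [this, Complex.exp_ofReal_mul_I_re, Real.cos_pi_div_three]

lemma omega_im : omega.im = Real.sqrt 3 / 2 := by
  unfold omega
  have : (Real.pi / 3 * Complex.I : ℂ) = ((Real.pi / 3 : ℝ) : ℂ) * Complex.I := by push_cast; ring
  rw [this, Complex.exp_ofReal_mul_I_im, Real.sin_pi_div_three]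

/-- The embedding. -/
noncomputable def emb (z : ℤ × ℤ) : ℂ := z.1 + z.2 * omega

lemma emb_sub (x y : ℤ × ℤ) : emb x - emb y = emb (x - y) := by
  unfold emb
  push_cast [Prod.fst_sub, Prod.snd_sub]
  ring

lemma emb_normSq (z : ℤ × ℤ) : Complex.normSq (emb z) = ((z.1 ^ 2 + z.1 * z.2 + z.2 ^ 2 : ℤ) : ℝ) := by
  unfold emb
  rw [Complex.normSq_apply]
  simp only [Complex.add_re, Complex.add_im, Complex.mul_re, Complex.mul_im, Complex.intCast_re,
    Complex.intCast_im, omega_re, omega_im]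
  have h3 : Real.sqrt 3 * Real.sqrt 3 = 3 := Real.mul_self_sqrt (by norm_num)
  push_cast
  nlinarith

lemma U_iff (z : ℤ × ℤ) : U z ↔ z.1 ^ 2 + z.1 * z.2 + z.2 ^ 2 = 1 := by
  obtain ⟨a, b⟩ := z
  simp only [U]
  constructor
  · rintro (⟨rfl, rfl⟩ | ⟨rfl, rfl⟩ | ⟨rfl, rfl⟩ | ⟨rfl, rfl⟩ | ⟨rfl, rfl⟩ | ⟨rfl, rfl⟩) <;> norm_num
  · intro h
    have hb : b ^ 2 ≤ 1 := by nlinarith [sq_nonneg (2 * a + b)]
    have ha : a ^ 2 ≤ 1 := by nlinarith [sq_nonneg (2 * b + a)]
    have hb1 : -1 ≤ b ∧ b ≤ 1 := by constructor <;> nlinarith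
    have ha1 : -1 ≤ a ∧ a ≤ 1 := by constructor <;> nlinarith
    have hb2 : b = -1 ∨ b = 0 ∨ b = 1 := by omega
    have ha2 : a = -1 ∨ a = 0 ∨ a = 1 := by omega
    clear ha hb ha1 hb1
    rcases ha2 with rfl | rfl | rfl <;> rcases hb2 with rfl | rfl | rfl <;> simp at h ⊢

lemma dist_emb (x y : ℤ × ℤ) : dist (emb x) (emb y) = 1 ↔ U (x - y) := by
  rw [Complex.dist_eq, emb_sub, U_iff]
  have h : ‖emb (x - y)‖ ^ 2 = (((x - y).1 ^ 2 + (x - y).1 * (x - y).2 + (x - y).2 ^ 2 : ℤ) : ℝ) := by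
    rw [← emb_normSq, Complex.normSq_eq_norm_sq]
  constructor
  · intro h1
    rw [h1] at h
    have h2 : ((1 : ℤ) : ℝ) = (((x - y).1 ^ 2 + (x - y).1 * (x - y).2 + (x - y).2 ^ 2 : ℤ) : ℝ) := by
      rw [← h]; norm_num
    exact (Int.cast_injective h2).symm
  · intro h1
    rw [h1] at h
    have h2 := norm_nonneg (emb (x - y))
    push_cast at h
    nlinarith

lemma emb_inj : Function.Injective emb := by
  intro x y h
  have h1 : emb (x - y) = 0 := by rw [← emb_sub, h, sub_self]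
  have h2 := emb_normSq (x - y)
  rw [h1, Complex.normSq_zero] at h2
  have h3 : (x - y).1 ^ 2 + (x - y).1 * (x - y).2 + (x - y).2 ^ 2 = 0 := by exact_mod_cast h2.symm
  have hb : (x - y).2 = 0 := by nlinarith [sq_nonneg (2 * (x - y).1 + (x - y).2)]
  have ha : (x - y).1 = 0 := by
    rw [hb] at h3
    nlinarith
  simp only [Prod.fst_sub, Prod.snd_sub] at ha hb
  ext <;> omega

lemma emb_o : emb o = 0 := by simp [emb, o]

lemma mem_V {z : ℂ} : z ∈ V ↔ ∃ x : ℤ × ℤ, hon x ∧ z = emb x := by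
  constructor
  · rintro ⟨a, b, h1, h2⟩; exact ⟨(a, b), h1, h2⟩
  · rintro ⟨⟨a, b⟩, h1, h2⟩; exact ⟨a, b, h1, h2⟩

/-- The path of a list. -/
noncomputable def G (n : ℕ) (P : List (ℤ × ℤ)) : Fin (n + 1) → ℂ := fun i => emb (pt P i)

lemma fw_hon {n : ℕ} {z : ℕ → ℤ × ℤ} (h : Fw n z) : ∀ i ≤ n, hon (z i) := by
  intro i hi
  cases i with
  | zero => rw [h.1]; exact hon_o
  | succ i => exact (h.2.1 i (by omega)).1

lemma G_mem {n : ℕ} {P : List (ℤ × ℤ)} (h : IsWalk n P) : G n P ∈ Omega n := by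
  have hf := fw_pt h
  refine ⟨?_, ?_, ?_, ?_⟩
  · simp only [G, Fin.val_zero, hf.1]
    exact emb_o
  · intro i
    exact mem_V.2 ⟨_, fw_hon hf i (by omega), rfl⟩
  · intro i
    simp only [G, Fin.val_castSucc, Fin.val_succ]
    rw [dist_comm, dist_emb]
    exact (hf.2.1 i i.2).2.2
  · intro i j hij
    exact Fin.ext (hf.2.2 i (by omega) j (by omega) (emb_inj hij))

lemma G_inj {n : ℕ} {P Q : List (ℤ × ℤ)} (hP : IsWalk n P) (hQ : IsWalk n Q) (h : G n P = G n Q) : P = Q := by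
  refine pt_ext hP.1 hQ.1 fun i hi => ?_
  have := congrFun h ⟨i, by omega⟩
  exact emb_inj this

lemma G_surj {n : ℕ} {w : Fin (n + 1) → ℂ} (hw : w ∈ Omega n) : ∃ P, IsWalk n P ∧ G n P = w := by
  obtain ⟨h0, h1, h2, h3⟩ := hw
  choose z hz1 hz2 using fun i => mem_V.1 (h1 i)
  set y : ℕ → ℤ × ℤ := fun i => if h : i < n + 1 then z ⟨i, h⟩ else o with hy
  have hyi : ∀ i (h : i < n + 1), y i = z ⟨i, h⟩ := fun i h => by simp only [hy, dif_pos h]
  have hF : Fw n y := by
    refine ⟨?_, ?_, ?_⟩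
    · rw [hyi 0 (by omega)]
      apply emb_inj
      rw [← hz2, emb_o]; exact h0
    · intro i hi
      rw [hyi i (by omega), hyi (i + 1) (by omega)]
      refine ⟨hz1 _, hz1 _, ?_⟩
      rw [← dist_emb, ← hz2, ← hz2, dist_comm]
      exact h2 ⟨i, hi⟩
    · intro i hi j hj hij
      rw [hyi i (by omega), hyi j (by omega)] at hij
      have := h3 (a₁ := ⟨i, by omega⟩) (a₂ := ⟨j, by omega⟩) (by rw [hz2, hz2, hij])
      exact congrArg Fin.val this
  refine ⟨lst n y, (isWalk_lst _ _).2 hF, ?_⟩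
  funext i
  simp only [G]
  rw [pt_lst (by omega), hyi i i.2]
  exact (hz2 _).symm

theorem a_eq (n : ℕ) : a n = an n := by
  unfold a an
  have : Omega n = (G n) '' {P | IsWalk n P} := by
    ext w
    constructor
    · intro hw
      obtain ⟨P, h1, h2⟩ := G_surj hw
      exact ⟨P, h1, h2⟩
    · rintro ⟨P, h1, rfl⟩
      exact G_mem h1
  rw [this]
  exact Set.InjOn.ncard_image (fun P hP Q hQ h => G_inj hP hQ h)

theorem pairs_eq (n : ℕ) : (Pairs n).ncard = an (2 * n) := by
  rw [← pairsL_card]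
  have : Pairs n = (fun q : List (ℤ × ℤ) × List (ℤ × ℤ) => (G n q.1, G n q.2)) '' PairsL n := by
    ext ⟨w, w'⟩
    constructor
    · rintro ⟨h1, h2, h3⟩
      obtain ⟨P, g1, g2⟩ := G_surj h1
      obtain ⟨P', g1', g2'⟩ := G_surj h2
      refine ⟨(P, P'), ⟨g1, g1', ?_⟩, by simp only [g2, g2']⟩
      intro i hi j hj hi0 heq
      have := h3 ⟨i, by omega⟩ ⟨j, by omega⟩ (by
        intro h; apply hi0
        have := congrArg Fin.val h
        simpa using this)
      apply this
      rw [← g2, ← g2']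
      simp only [G]
      rw [heq]
    · rintro ⟨⟨P, P'⟩, ⟨h1, h2, h3⟩, h4⟩
      simp only [Prod.mk.injEq] at h4
      obtain ⟨rfl, rfl⟩ := h4
      refine ⟨G_mem h1, G_mem h2, ?_⟩
      intro i j hi0 heq
      refine h3 i (by omega) j (by omega) ?_ (emb_inj heq)
      intro h; apply hi0
      exact Fin.ext (by simpa using h)
  rw [this]
  refine Set.InjOn.ncard_image ?_
  rintro ⟨P, P'⟩ ⟨h1, h2, h3⟩ ⟨Q, Q'⟩ ⟨g1, g2, g3⟩ heq
  simp only [Prod.mk.injEq] at heq
  have e1 : P = Q := G_inj h1 g1 heq.1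
  have e2 : P' = Q' := G_inj h2 g2 heq.2
  rw [e1, e2]

theorem P_eq (n : ℕ) : P n = (a (2 * n) : ℝ) / (a n : ℝ) ^ 2 := by
  unfold P
  rw [pairs_eq, a_eq (2 * n)]

end Pool.Agent.Hhelper14.SAW
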