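import Pool.Agent.Hhelper14.SAW.Low
import Pool.Agent.Hhelper14.SAW.Count
import Pool.Agent.Hhelper14.SAW.Analysis

/-!
Assembly.
-/

namespace Pool.Agent.Hhelper14.SAW

open Filter Topology Pool.Agent.Hhelper14.Honeycomb

lemma mu_pow_le (n : ℕ) (hn : 1 ≤ n) : mu ^ n ≤ (an n : ℝ) := by
  have h1 := an_lower ex_refl 0 n (by simpa using hn)
  have h2 := mass_nonneg (Par.all 0) 5
  have h3 : 0 < Real.sin (Real.pi / 8) := Real.sin_pos_of_pos_of_lt_pi (by positivity) (by linarith [Real.pi_pos])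
  have h4 : 1 ≤ xc ^ n * (an n : ℝ) := by
    have : 0 ≤ 2 * Real.sin (Real.pi / 8) * mass (Par.all 0) 5 := by positivity
    linarith
  have h5 : xc ^ n * mu ^ n = 1 := by rw [← mul_pow, xc_mu, one_pow]
  have h6 := mu_pos
  have h7 := mul_le_mul_of_nonneg_right h4 (show 0 ≤ mu ^ n by positivity)
  calc mu ^ n = 1 * mu ^ n := by ring
    _ ≤ xc ^ n * (an n : ℝ) * mu ^ n := h7
    _ = (xc ^ n * mu ^ n) * (an n : ℝ) := by ring
    _ = an n := by rw [h5, one_mul]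

lemma a_pos (n : ℕ) : 0 < (a n : ℝ) := by
  rcases Nat.eq_zero_or_pos n with rfl | hn
  · rw [a_eq]
    have : 0 < an 0 := by
      unfold an
      rw [Set.ncard_pos (walk_finite 0)]
      exact ⟨[o], rfl, by simp, by simp, by simp⟩
    exact_mod_cast this
  · rw [a_eq]
    have := mu_pow_le n hn
    have h6 := mu_pos
    exact lt_of_lt_of_le (by positivity) this

lemma muL_eq (hup : ∃ C : ℝ, ∀ n : ℕ, (an n : ℝ) ≤ mu ^ n * Real.exp (C * Real.sqrt n)) : muL = mu := by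
  obtain ⟨C, hC⟩ := hup
  have hmu := mu_pos
  have hbdd : BddBelow (Set.range (fun n : {n : ℕ // 1 ≤ n} => (a n : ℝ) ^ (1 / (n : ℝ)))) := by
    refine ⟨0, ?_⟩
    rintro _ ⟨n, rfl⟩
    exact Real.rpow_nonneg (a_pos n).le _
  have hne : Nonempty {n : ℕ // 1 ≤ n} := ⟨⟨1, le_rfl⟩⟩
  apply le_antisymm
  · -- upper bound
    have hlim : Tendsto (fun n : ℕ => mu * Real.exp (C * (Real.sqrt n)⁻¹)) atTop (𝓝 (mu * Real.exp (C * 0))) := by
      refine Tendsto.const_mul _ ((Real.continuous_exp.tendsto _).comp (Tendsto.const_mul _ ?_))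
      exact tendsto_inv_atTop_zero.comp (Real.tendsto_sqrt_atTop.comp tendsto_natCast_atTop_atTop)
    rw [mul_zero, Real.exp_zero, mul_one] at hlim
    refine ge_of_tendsto hlim ?_
    filter_upwards [eventually_ge_atTop 1] with n hn
    have h1 : muL ≤ (a n : ℝ) ^ (1 / (n : ℝ)) := ciInf_le hbdd ⟨n, hn⟩
    refine h1.trans ?_
    have hn0 : (0 : ℝ) < n := by exact_mod_cast hn
    have h2 : (a n : ℝ) ^ (1 / (n : ℝ)) ≤ (mu ^ n * Real.exp (C * Real.sqrt n)) ^ (1 / (n : ℝ)) := by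
      refine Real.rpow_le_rpow (a_pos n).le ?_ (by positivity)
      rw [a_eq]; exact hC n
    refine h2.trans (le_of_eq ?_)
    rw [Real.mul_rpow (by positivity) (Real.exp_pos _).le, ← Real.rpow_natCast, ← Real.rpow_mul hmu.le,
      mul_one_div_cancel hn0.ne', Real.rpow_one, ← Real.exp_mul]
    congr 2
    have h3 : Real.sqrt n * Real.sqrt n = n := Real.mul_self_sqrt hn0.le
    have h4 : Real.sqrt n ≠ 0 := (Real.sqrt_pos.2 hn0).ne'
    field_simp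
    rw [sq, h3]
  · refine le_ciInf ?_
    rintro ⟨n, hn⟩
    have hn0 : (0 : ℝ) < n := by exact_mod_cast hn
    have h1 := mu_pow_le n hn
    rw [← a_eq] at h1
    have h2 := Real.rpow_le_rpow (by positivity) h1 (show 0 ≤ 1 / (n : ℝ) by positivity)
    rwa [← Real.rpow_natCast, ← Real.rpow_mul hmu.le, mul_one_div_cancel hn0.ne', Real.rpow_one] at h2

/-- Assembly of the final statement. -/
theorem main_of (hchain : ∀ N : ℕ, 1 + 2 * Real.sin (Real.pi / 8) * mass (Par.all N) 5 ≤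
      416 * ((mass (Par.all (10 * N + 11)) 4 - mass (Par.all N) 4) +
        (mass (Par.all (10 * N + 11)) 5 - mass (Par.all N) 5)))
    (hup : ∃ C : ℝ, ∀ n : ℕ, (an n : ℝ) ≤ mu ^ n * Real.exp (C * Real.sqrt n)) :
    (∃ c : ℝ, 0 < c ∧ ∀ n : ℕ, 1 ≤ n → c * (n : ℝ) ^ (1 / 10000 : ℝ) * muL ^ n ≤ a n) ∧
    (∃ C : ℝ, 0 < C ∧ ∀ n : ℕ, 2 ≤ n → ∃ m : ℕ, n ≤ m ∧ m ≤ n ^ 2 ∧
      P m ≤ C * (m : ℝ) ^ (-(1 / 10000) : ℝ)) ∧
    (∀ α : ℝ, Tendsto (fun n : ℕ => Real.log (P n) / Real.log n) atTop (𝓝 α) → α ≤ -(1 / 10000)) := by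
  have hmuL := muL_eq hup
  obtain ⟨c, hc, hlow⟩ := low_of_chain hchain
  obtain ⟨C, hC⟩ := hup
  obtain ⟨K, hK, hr⟩ := ratio_bound (fun n => (an n : ℝ)) mu mu_pos (1 / 10000) (by norm_num) c hc hlow C hC
  have h2 : ∀ n : ℕ, 2 ≤ n → ∃ m : ℕ, n ≤ m ∧ m ≤ n ^ 2 ∧ P m ≤ K * (m : ℝ) ^ (-(1 / 10000) : ℝ) := by
    intro n hn
    obtain ⟨m, h1, h2, -, h4⟩ := hr n hn
    refine ⟨m, h1, h2, ?_⟩
    rw [P_eq, a_eq, a_eq]; exact h4
  refine ⟨⟨c, hc, ?_⟩, ⟨K, hK, h2⟩, ?_⟩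
  · intro n hn
    rw [hmuL, a_eq]; exact hlow n hn
  · intro α hα
    refine exponent_le P ?_ (1 / 10000) K hK ?_ α hα
    · intro n
      rw [P_eq]
      have h1 := a_pos n
      have h3 := a_pos (2 * n)
      positivity
    · intro n hn
      obtain ⟨m, g1, -, g3⟩ := h2 n hn
      exact ⟨m, g1, g3⟩

end Pool.Agent.Hhelper14.SAW
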