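import Pool.Agent.Hhelper14.SAW.Mass

/-!
The mass of the bridges of a vertical strip is at most one.
-/

namespace Pool.Agent.Hhelper14.SAW

/-- Walks with few steps stay close to the start. -/
lemma saw_near {p : ℤ × ℤ → Prop} (hp : Dom p) : ∀ (n : ℕ) (P : List (ℤ × ℤ)), IsSaw p n P → ∀ x ∈ P,
    -(n : ℤ) - 1 ≤ x.1 ∧ x.1 ≤ n ∧ -(n : ℤ) ≤ x.2 ∧ x.2 ≤ n ∧ -(n : ℤ) - 1 ≤ x.1 + x.2 ∧ x.1 + x.2 ≤ n := by
  intro n
  induction n with
  | zero =>
    intro P hP x hx
    rw [isSaw_zero_iff hp] at hP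
    rw [hP] at hx
    simp only [List.mem_cons, List.not_mem_nil, or_false] at hx
    rcases hx with rfl | rfl <;> simp [o, o']
  | succ n ih =>
    intro P hP x hx
    obtain ⟨u, v, w, r, rfl, h1, h2, -, -⟩ := isSaw_succ_iff.1 hP
    rcases List.mem_cons.1 hx with rfl | hx
    · have := ih _ h1 v (by simp)
      have hU := h2.2.2
      simp only [U, Prod.fst_sub, Prod.snd_sub] at hU
      push_cast
      omega
    · have := ih _ h1 x hx
      push_cast
      omega

lemma zt_re (k : ℤ) : (zt k).re = Real.cos (k * (Real.pi / 8)) := by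
  unfold zt
  have : (k : ℂ) * (Real.pi / 8 * Complex.I) = ((k * (Real.pi / 8) : ℝ) : ℂ) * Complex.I := by
    push_cast; ring
  rw [this, Complex.exp_ofReal_mul_I_re]

lemma zt_im (k : ℤ) : (zt k).im = Real.sin (k * (Real.pi / 8)) := by
  unfold zt
  have : (k : ℂ) * (Real.pi / 8 * Complex.I) = ((k * (Real.pi / 8) : ℝ) : ℂ) * Complex.I := by
    push_cast; ring
  rw [this, Complex.exp_ofReal_mul_I_im]

/-- Domain without slit exits. -/
lemma no_slit (c : Par) (ha : c.a3 = 0) (hb : c.b3 = 0) {k : ℤ} (hk : 3 < k ∨ k < -3) : mass c k = 0 := by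
  apply mass_zero_of
  intro n
  rw [Finset.eq_empty_iff_forall_notMem]
  intro Q hQ
  obtain ⟨u, v, w, r, rfl, h2, h3, h4, h5, h6, h7, h8⟩ := ex_kind hQ
  obtain ⟨a, b⟩ := u
  obtain ⟨x, y⟩ := v
  obtain ⟨g0, g1, g2, g3, g4, g5, g6⟩ := h7
  simp only [ExitKind, slit, F0, F1, F2, F3, F4, F5, Prod.mk_sub_mk, Prod.mk.injEq] at *
  have hh : b = 0 ∧ a < 0 ∧ ((a - x = 0 ∧ b - y = -1) ∨ (a - x = 1 ∧ b - y = -1) ∨
      (a - x = -1 ∧ b - y = 1) ∨ (a - x = 0 ∧ b - y = 1)) := by omega
  rcases lt_or_ge y 0 with hy | hy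
  · have := g6 hy; clear g5 g6 h8; omega
  · have := g5 hy; clear g5 g6 h8; omega

lemma cos_nonneg_of {k : ℤ} (h1 : -3 ≤ k) (h2 : k ≤ 3) : 0 ≤ Real.cos (k * (Real.pi / 8)) := by
  apply Real.cos_nonneg_of_neg_pi_div_two_le_of_le
  · have : (-3 : ℝ) ≤ k := by exact_mod_cast h1
    nlinarith [Real.pi_pos]
  · have : (k : ℝ) ≤ 3 := by exact_mod_cast h2
    nlinarith [Real.pi_pos]

lemma mass0_le (c : Par) (ha : c.a3 = 0) (hb : c.b3 = 0) : mass c 0 ≤ 1 := by
  have h := congrArg Complex.re (mass_ident c)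
  rw [Complex.re_sum] at h
  have e : ∀ k ∈ Finset.Icc (-5 : ℤ) 5, (zt k * (mass c k : ℂ)).re = Real.cos (k * (Real.pi / 8)) * mass c k := by
    intro k _
    rw [Complex.re_mul_ofReal, zt_re]
  rw [Finset.sum_congr rfl e, Complex.one_re] at h
  have h0 : Real.cos ((0:ℤ) * (Real.pi / 8)) * mass c 0 ≤
      ∑ k ∈ Finset.Icc (-5 : ℤ) 5, Real.cos (k * (Real.pi / 8)) * mass c k := by
    refine Finset.single_le_sum (f := fun k : ℤ => Real.cos (k * (Real.pi / 8)) * mass c k) ?_ (by simp)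
    intro k _
    by_cases hk : 3 < k ∨ k < -3
    · rw [no_slit c ha hb hk]; simp
    · push Not at hk
      exact mul_nonneg (cos_nonneg_of hk.2 hk.1) (mass_nonneg _ _)
  rw [h] at h0
  simpa using h0

/-- The strip bound. -/
theorem strip_mass (T N : ℕ) : ∑ n ∈ Finset.range N, xc ^ (n + 1) *
    (((saw (St T) n).filter (fun P => F0 P.headI = 3 * T + 1)).card : ℝ) ≤ 1 := by
  set c : Par := ⟨T, N + 5, N + 5, 0, N + 5, N + 5, 0⟩ with hc
  obtain ⟨B, hB⟩ := saw_empty' c
  refine le_trans ?_ (mass0_le c rfl rfl)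
  rw [mass_eq (B := max B N) (fun n hn => hB n (le_trans (le_max_left _ _) hn))]
  have hx := xc_pos
  refine le_trans (Finset.sum_le_sum (g := fun n => xc ^ (n + 1) * ((ex c 0 n).card : ℝ)) ?_)
    (Finset.sum_le_sum_of_subset_of_nonneg (by
      intro n hn; rw [Finset.mem_range] at *; exact lt_of_lt_of_le hn (le_max_right _ _)) (fun n _ _ => by positivity))
  intro n hn
  rw [Finset.mem_range] at hn
  refine mul_le_mul_of_nonneg_left ?_ (by positivity)
  norm_cast
  refine Finset.card_le_card_of_injOn (fun P => (P.headI + (1, 0)) :: P) ?_ ?_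
  · intro P hP
    rw [Finset.mem_coe, Finset.mem_filter, mem_saw (St_dom T)] at hP
    obtain ⟨hP, hF⟩ := hP
    obtain ⟨v, w, r, rfl, hvw, hv⟩ := hP.cases
    simp only [List.headI_cons] at hF ⊢
    have hnear := saw_near (St_dom T) n _ hP
    have hP' : IsSaw (D c) n (v :: w :: r) := by
      obtain ⟨h1, h2, h3, t, h4, h5⟩ := hP
      refine ⟨h1, h2, h3, t, h4, ?_⟩
      intro x hx
      have h6 := h5 x hx
      have h7 := hnear x (by
        rw [h4]; simp only [List.mem_append, List.mem_cons, List.not_mem_nil, or_false] at hx ⊢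
        tauto)
      have h8 := (St_dom T).off x h6
      obtain ⟨g1, g2, g3⟩ := h6
      refine ⟨g1, h8, ?_⟩
      simp only [hc, F0, F1, F2, F3, F4, F5] at *
      push_cast
      refine ⟨?_, ?_, ?_, ?_, ?_⟩ <;> omega
    have hadj : Adj (v + (1, 0)) v := by
      have h9 := hv.1
      refine ⟨?_, h9, ?_⟩
      · simp only [hon, F0, Prod.fst_add, Prod.snd_add] at *; omega
      · simp [U]
    have huw : v + (1, 0) ≠ w := by
      rintro rfl
      have hw : v + (1, 0) ∈ v :: (v + (1, 0)) :: r := by simp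
      obtain ⟨h1, h2, h3, t, h4, h5⟩ := hP
      rw [h4] at hw
      simp only [List.mem_append, List.mem_cons, List.not_mem_nil, or_false] at hw
      have hw2 : St T (v + (1, 0)) ∨ v + (1, 0) = o' := by
        rcases hw with hw | hw | hw
        · left; exact h5 _ (by simp [hw])
        · left; exact h5 _ (by simp [hw])
        · right; exact hw
      rcases hw2 with hw2 | hw2
      · simp only [St, F0, Prod.fst_add, Prod.snd_add] at *; omega
      · have := congrArg F0 hw2
        simp only [F0, o', Prod.fst_add, Prod.snd_add] at *; omega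
    have hu : ¬ D c (v + (1, 0)) := by
      rintro ⟨-, -, h1, -⟩
      simp only [hc, F0, Prod.fst_add, Prod.snd_add] at *; omega
    rw [Finset.mem_coe, mem_ex]
    refine ⟨v + (1, 0), v, w, r, rfl, hP', hadj, huw, hu, ?_⟩
    have hk := exit_class hP' hadj huw hu
    have hs : ¬ slit (v + (1, 0)) := by
      simp only [slit, F0, Prod.fst_add, Prod.snd_add] at *; omega
    have he : v + (1, 0) - v = (1, 0) := by ring
    generalize Tn ((v + (1, 0)) :: v :: w :: r) = k at hk
    unfold ExitKind at hk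
    rw [he] at hk
    simp only [Prod.mk.injEq] at hk
    omega
  · intro P _ P' _ h
    simp only [List.cons.injEq] at h
    exact h.2

end Pool.Agent.Hhelper14.SAW
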