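import Pool.Agent.Hhelper63.SAW.HW
import Pool.Agent.Hhelper14.SAW.Strip

/-!
The quantitative Hammersley-Welsh bound.
-/

namespace Pool.Agent.Hhelper14.SAW

open Pool.Agent.Hhelper63.HW Finset

/-- Explicit form of the strip bound. -/
lemma strip_bound' {x : ℝ} (hx : 0 < x) (hx1 : x < xc) (T N : ℕ) :
    gf (fun n => (saw (St T) n).card) x N ≤
      (1 + (1 + (1 + x) * xc⁻¹)) * Real.exp ((1 + x + x⁻¹ + x ^ 2) * xc⁻¹ * (1 - x / xc)⁻¹) := by
  have hxc : 0 < xc := Pool.Agent.Hhelper14.SAW.xc_pos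
  have hβ := strip_mass
  have hq : 0 < x / xc := by positivity
  have hq1 : x / xc < 1 := by rw [div_lt_one hxc]; exact hx1
  set q := x / xc with hqd
  set K : ℝ := (1 + x + x⁻¹ + x ^ 2) * xc⁻¹ with hK
  have hK0 : 0 < K := by positivity
  set M0 : ℝ := 1 + (1 + (1 + x) * xc⁻¹) with hM0
  have hM0p : 0 < M0 := by positivity
  have key : ∀ T N, 1 + gf (fun n => (saw (St T) n).card) x N ≤
      M0 * Real.exp (K * ∑ t ∈ range T, q ^ (t + 1)) := by
    intro T N
    induction T with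
    | zero =>
      simp only [range_zero, sum_empty, mul_zero, Real.exp_zero, mul_one]
      have := gf_zero hx (fun N => bs_gf hx hx1 hβ 0 N) N
      rw [pow_zero, mul_one] at this
      rw [hM0]; linarith
    | succ T ih =>
      have h1 := gf_step T hx (fun N => bs_gf hx hx1 hβ (T + 1) N) N
      refine h1.trans ?_
      have h5 : Real.exp (K * ∑ t ∈ range (T + 1), q ^ (t + 1)) =
          Real.exp (K * ∑ t ∈ range T, q ^ (t + 1)) * Real.exp (K * q ^ (T + 1)) := by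
        rw [sum_range_succ, mul_add, Real.exp_add]
      rw [h5, ← mul_assoc M0]
      have h2 : 1 + (1 + x + x⁻¹ + x ^ 2) * (xc⁻¹ * q ^ (T + 1)) ≤ Real.exp (K * q ^ (T + 1)) := by
        have := Real.add_one_le_exp (K * q ^ (T + 1))
        rw [hK] at this ⊢
        linarith
      have h3 := gf_nonneg (fun n => (saw (St T) n).card) hx.le N
      have h4 : 0 ≤ 1 + (1 + x + x⁻¹ + x ^ 2) * (xc⁻¹ * q ^ (T + 1)) := by positivity
      exact mul_le_mul ih h2 h4 (by positivity)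
  have h1 := key T N
  have hinv : 0 < (1 - q)⁻¹ := inv_pos.2 (by linarith)
  have h2 : ∑ t ∈ range T, q ^ (t + 1) ≤ (1 - q)⁻¹ := by
    have e : ∑ t ∈ range T, q ^ (t + 1) = q * ∑ t ∈ range T, q ^ t := by
      rw [mul_sum]; refine sum_congr rfl fun t _ => by rw [pow_succ]; ring
    rw [e]
    have e2 : ∑ t ∈ range T, q ^ t ≤ (1 - q)⁻¹ := by
      rw [← tsum_geometric_of_lt_one hq.le hq1]
      exact (summable_geometric_of_lt_one hq.le hq1).sum_le_tsum _ (fun _ _ => by positivity)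
    have e3 : 0 ≤ ∑ t ∈ range T, q ^ t := sum_nonneg fun _ _ => by positivity
    nlinarith
  have h3 : Real.exp (K * ∑ t ∈ range T, q ^ (t + 1)) ≤ Real.exp (K * (1 - q)⁻¹) :=
    Real.exp_le_exp.2 (mul_le_mul_of_nonneg_left h2 hK0.le)
  have h4 := mul_le_mul_of_nonneg_left h3 hM0p.le
  linarith

/-- Bound of the number of walks by a bound for strips. -/
lemma hw_of_M {x : ℝ} (hx : 0 < x) {M : ℝ}
    (hM : ∀ T N, gf (fun n => (saw (St T) n).card) x N ≤ M) (n : ℕ) :
    (an n : ℝ) * x ^ n ≤ M + (x * M + 2 * (x ^ 2 * (M * M))) := by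
  have hH : ∀ N, gf Hn x N ≤ M := by
    intro N
    refine le_trans ?_ (hM N N)
    unfold gf
    refine sum_le_sum fun n hn => ?_
    have : Hn n ≤ (saw (St N) n).card := card_le_card (saw_Hp_subset (by rw [mem_range] at hn; omega))
    have : (Hn n : ℝ) ≤ ((saw (St N) n).card : ℝ) := by exact_mod_cast this
    gcongr
  have hM0 : 0 ≤ M := (gf_nonneg Hn hx.le 0).trans (hH 0)
  have h1 : (an n : ℝ) * x ^ n ≤ ∑ k ∈ range (n + 1), x ^ k * (an k : ℝ) := by
    have := single_le_sum (s := range (n + 1)) (f := fun k => x ^ k * (an k : ℝ))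
      (fun _ _ => by positivity) (mem_range.2 (Nat.lt_succ_self n))
    linarith
  refine h1.trans ?_
  set N := n + 1
  have h2 : ∑ k ∈ range N, x ^ k * (an k : ℝ) ≤ ∑ k ∈ range N, (x ^ k * (Hn k : ℝ) +
      (x ^ k * ((∑ m ∈ (range N).filter (fun m => m + 1 = k), Hn m : ℕ) : ℝ) +
      2 * (x ^ k * ((∑ p ∈ (range N ×ˢ range N).filter (fun p => p.1 + p.2 + 2 = k), Hn p.1 * Hn p.2 : ℕ) : ℝ)))) := by
    refine sum_le_sum fun k hk => ?_
    have h3 := an_le k N (by rw [mem_range] at hk; omega)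
    have h4 : (an k : ℝ) ≤ (Hn k : ℝ) + (((∑ m ∈ (range N).filter (fun m => m + 1 = k), Hn m : ℕ) : ℝ) +
      2 * ((∑ p ∈ (range N ×ˢ range N).filter (fun p => p.1 + p.2 + 2 = k), Hn p.1 * Hn p.2 : ℕ) : ℝ)) := by
      exact_mod_cast h3
    have h5 := mul_le_mul_of_nonneg_left h4 (pow_nonneg hx.le k)
    refine h5.trans (le_of_eq ?_)
    ring
  refine h2.trans ?_
  rw [sum_add_distrib, sum_add_distrib, ← mul_sum]
  have k1 := gf_shift Hn hx.le N
  have k3 := gf_conv Hn Hn hx.le N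
  have k4 : ∑ k ∈ range N, x ^ k * (Hn k : ℝ) = gf Hn x N := rfl
  rw [k4]
  have g0 := gf_nonneg Hn hx.le N
  have g1 := hH N
  have e1 : x * gf Hn x N ≤ x * M := mul_le_mul_of_nonneg_left g1 hx.le
  have e2 : x ^ 2 * (gf Hn x N * gf Hn x N) ≤ x ^ 2 * (M * M) :=
    mul_le_mul_of_nonneg_left (mul_le_mul g1 g1 g0 hM0) (by positivity)
  linarith

lemma an_zero : an 0 = 1 := by
  unfold an
  rw [Set.ncard_eq_one]
  refine ⟨[o], ?_⟩
  ext P
  constructor
  · rintro ⟨h1, -, -, h4⟩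
    match P, h1 with
    | [y], _ =>
      simp only [List.getLast?_singleton, Option.some.injEq] at h4
      rw [h4]; rfl
  · rintro rfl
    exact ⟨rfl, by simp, by simp, by simp⟩

/-- Quantitative Hammersley-Welsh bound. -/
theorem hw_quant : ∃ C : ℝ, ∀ n : ℕ, (an n : ℝ) ≤ mu ^ n * Real.exp (C * Real.sqrt n) := by
  have hxc : 0 < xc := Pool.Agent.Hhelper14.SAW.xc_pos
  have hmu : 0 < mu := Pool.Agent.Hhelper14.SAW.mu_pos
  set K1 : ℝ := (1 + xc + 2 * xc⁻¹ + xc ^ 2) * xc⁻¹ with hK1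
  have hK1p : 0 < K1 := by positivity
  set M1 : ℝ := 1 + (1 + (1 + xc) * xc⁻¹) with hM1
  have hM1p : 1 ≤ M1 := by
    have : 0 < (1 + xc) * xc⁻¹ := by positivity
    rw [hM1]; linarith
  set c1 : ℝ := 1 + xc + 2 * xc ^ 2 with hc1
  have hc1p : 1 ≤ c1 := by rw [hc1]; nlinarith [sq_nonneg xc]
  have hc2 : 1 ≤ c1 * M1 ^ 2 := by nlinarith
  refine ⟨1 + 4 * K1 + Real.log (c1 * M1 ^ 2), fun n => ?_⟩
  rcases Nat.eq_zero_or_pos n with rfl | hn
  · rw [an_zero]; simp
  have hn0 : (0 : ℝ) < n := by exact_mod_cast hn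
  have hn1 : (1 : ℝ) ≤ n := by exact_mod_cast hn
  set s := Real.sqrt n with hs
  have hs1 : 1 ≤ s := by
    rw [hs]; exact Real.one_le_sqrt.2 hn1
  have hss : s * s = n := Real.mul_self_sqrt hn0.le
  set q := s / (s + 1) with hq
  have hq0 : 0 < q := by positivity
  have hq1 : q < 1 := by rw [hq, div_lt_one (by positivity)]; linarith
  have hq2 : 1 / 2 ≤ q := by rw [hq, div_le_div_iff₀ (by norm_num) (by positivity)]; linarith
  set x := q * xc with hx
  have hx0 : 0 < x := by positivity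
  have hxxc : x < xc := by rw [hx]; nlinarith
  have hdiv : x / xc = q := by rw [hx]; field_simp
  have hinv : (1 - x / xc)⁻¹ = s + 1 := by
    rw [hdiv, hq]
    have : 1 - s / (s + 1) = 1 / (s + 1) := by field_simp; ring
    rw [this]; simp
  have hxinv : x⁻¹ ≤ 2 * xc⁻¹ := by
    rw [hx, mul_inv]
    refine mul_le_mul_of_nonneg_right ?_ (by positivity)
    rw [inv_le_comm₀ hq0 (by norm_num)]; linarith
  have hx2 : x ^ 2 ≤ xc ^ 2 := by nlinarith
  set M : ℝ := M1 * Real.exp (K1 * (s + 1)) with hM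
  have hMge : ∀ T N, gf (fun n => (saw (St T) n).card) x N ≤ M := by
    intro T N
    refine (strip_bound' hx0 hxxc T N).trans ?_
    rw [hM, hinv]
    refine mul_le_mul ?_ ?_ (Real.exp_pos _).le (by positivity)
    · rw [hM1]
      have : (1 + x) * xc⁻¹ ≤ (1 + xc) * xc⁻¹ := mul_le_mul_of_nonneg_right (by linarith) (by positivity)
      linarith
    · apply Real.exp_le_exp.2
      refine mul_le_mul_of_nonneg_right ?_ (by positivity)
      rw [hK1]
      refine mul_le_mul_of_nonneg_right ?_ (by positivity)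
      linarith
  have hMone : 1 ≤ M := by
    rw [hM]
    have : 1 ≤ Real.exp (K1 * (s + 1)) := Real.one_le_exp (by positivity)
    nlinarith
  have h1 := hw_of_M hx0 hMge n
  have h2 : M + (x * M + 2 * (x ^ 2 * (M * M))) ≤ c1 * M ^ 2 := by
    have a1 : M ≤ M ^ 2 := by nlinarith
    have a2 : x * M ≤ xc * M ^ 2 := mul_le_mul hxxc.le a1 (by positivity) hxc.le
    have a3 : x ^ 2 * (M * M) ≤ xc ^ 2 * M ^ 2 := by
      rw [← sq M]; exact mul_le_mul_of_nonneg_right hx2 (by positivity)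
    rw [hc1]; linarith
  have h3 : (an n : ℝ) * x ^ n ≤ c1 * M ^ 2 := h1.trans h2
  have h4 : x ^ n = q ^ n * xc ^ n := by rw [hx, mul_pow]
  have h5 : xc ^ n * mu ^ n = 1 := by rw [← mul_pow, xc_mu, one_pow]
  -- `q ^ (-n) ≤ exp s`
  have h6 : 1 ≤ q ^ n * Real.exp s := by
    have b1 : 1 ≤ q * Real.exp (1 / s) := by
      have := Real.add_one_le_exp (1 / s)
      have b2 : q * (1 / s + 1) = 1 := by rw [hq]; field_simp; ring
      calc (1 : ℝ) = q * (1 / s + 1) := b2.symm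
        _ ≤ q * Real.exp (1 / s) := mul_le_mul_of_nonneg_left this hq0.le
    have b3 := one_le_pow₀ b1 (n := n)
    rw [mul_pow, ← Real.exp_nat_mul] at b3
    have b4 : (n : ℝ) * (1 / s) = s := by rw [← hss]; field_simp
    rwa [b4] at b3
  have h7 : (an n : ℝ) ≤ mu ^ n * (Real.exp s * (c1 * M ^ 2)) := by
    have b0 : (an n : ℝ) * x ^ n * (mu ^ n * Real.exp s) ≤ c1 * M ^ 2 * (mu ^ n * Real.exp s) :=
      mul_le_mul_of_nonneg_right h3 (by positivity)
    have b1 : (an n : ℝ) * x ^ n * (mu ^ n * Real.exp s) = (an n : ℝ) * (q ^ n * Real.exp s) := by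
      rw [h4]
      calc (an n : ℝ) * (q ^ n * xc ^ n) * (mu ^ n * Real.exp s)
          = (an n : ℝ) * (q ^ n * Real.exp s) * (xc ^ n * mu ^ n) := by ring
        _ = _ := by rw [h5, mul_one]
    rw [b1] at b0
    have b2 : (an n : ℝ) ≤ (an n : ℝ) * (q ^ n * Real.exp s) := le_mul_of_one_le_right (by positivity) h6
    calc (an n : ℝ) ≤ (an n : ℝ) * (q ^ n * Real.exp s) := b2
      _ ≤ c1 * M ^ 2 * (mu ^ n * Real.exp s) := b0
      _ = _ := by ring
  refine h7.trans (mul_le_mul_of_nonneg_left ?_ (by positivity))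
  have h8 : c1 * M ^ 2 = Real.exp (Real.log (c1 * M1 ^ 2)) * Real.exp (2 * (K1 * (s + 1))) := by
    rw [Real.exp_log (by positivity), hM, mul_pow, ← Real.exp_nat_mul]
    push_cast; ring
  rw [h8, ← Real.exp_add, ← Real.exp_add]
  apply Real.exp_le_exp.2
  have hlog : 0 ≤ Real.log (c1 * M1 ^ 2) := Real.log_nonneg hc2
  nlinarith

end Pool.Agent.Hhelper14.SAW
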