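import Mathlib

/-!
The honeycomb lattice in the complex plane and its self-avoiding paths.
-/

namespace Pool.Agent.Hhelper14.Honeycomb

/-- The sixth root of unity `exp(iπ/3)`. -/
noncomputable def omega : ℂ := Complex.exp (Real.pi / 3 * Complex.I)

/-- Vertex set of the honeycomb lattice: the points `a + b ω` of the triangular lattice (side 1) with
`a - b` not congruent to `1` modulo `3`. -/
def V : Set ℂ := {z | ∃ a b : ℤ, (a - b) % 3 ≠ 1 ∧ z = a + b * omega}

/-- Self-avoiding paths `(w 0, ..., w n)` of length `n` from the vertex `0`; two vertices are adjacent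
when they are at Euclidean distance `1`. -/
def Omega (n : ℕ) : Set (Fin (n + 1) → ℂ) :=
  {w | w 0 = 0 ∧ (∀ i, w i ∈ V) ∧ (∀ i : Fin n, dist (w i.castSucc) (w i.succ) = 1) ∧ Function.Injective w}

/-- The number `a_n` of self-avoiding paths of length `n`. -/
noncomputable def a (n : ℕ) : ℕ := (Omega n).ncard

/-- The connective constant `μ_L = inf_{n ≥ 1} a_n^{1/n}`. -/
noncomputable def muL : ℝ := ⨅ n : {n : ℕ // 1 ≤ n}, (a n : ℝ) ^ (1 / (n : ℝ))

/-- The pairs of paths of length `n` with `w{1,...,n} ∩ w'{0,...,n} = ∅`. -/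
def Pairs (n : ℕ) : Set ((Fin (n + 1) → ℂ) × (Fin (n + 1) → ℂ)) :=
  {q | q.1 ∈ Omega n ∧ q.2 ∈ Omega n ∧ ∀ i j : Fin (n + 1), i ≠ 0 → q.1 i ≠ q.2 j}

/-- The probability that `w{1,...,n}` and `w'{0,...,n}` are disjoint for independent uniform `w, w'`. -/
noncomputable def P (n : ℕ) : ℝ := ((Pairs n).ncard : ℝ) / (a n : ℝ) ^ 2

end Pool.Agent.Hhelper14.Honeycomb
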