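import Pool.Agent.Hhelper14.SAW.Class

/-!
Masses: finiteness, the vector identity, monotonicity and vanishing.
-/

namespace Pool.Agent.Hhelper14.SAW

lemma mem_ex {c : Par} {k : ℤ} {n : ℕ} {Q : List (ℤ × ℤ)} : Q ∈ ex c k n ↔
    ∃ u v w r, Q = u :: v :: w :: r ∧ IsSaw (D c) n (v :: w :: r) ∧ Adj u v ∧ u ≠ w ∧ ¬ D c u ∧
      Tn (u :: v :: w :: r) = k := by
  unfold ex
  rw [Finset.mem_filter, mem_exits (D_dom c)]
  constructor
  · rintro ⟨⟨u, v, w, r, rfl, h1, h2, h3, h4⟩, h5⟩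
    exact ⟨u, v, w, r, rfl, h1, h2, h3, h4, h5⟩
  · rintro ⟨u, v, w, r, rfl, h1, h2, h3, h4, h5⟩
    exact ⟨⟨u, v, w, r, rfl, h1, h2, h3, h4⟩, h5⟩

lemma IsSaw.head_mem {p : ℤ × ℤ → Prop} {n : ℕ} {v w : ℤ × ℤ} {r : List (ℤ × ℤ)}
    (h : IsSaw p n (v :: w :: r)) : p v := by
  obtain ⟨a, b, s, h1, -, h3⟩ := h.cases
  simp only [List.cons.injEq] at h1
  rw [h1.1]; exact h3

lemma IsSaw.mono {p q : ℤ × ℤ → Prop} (hpq : ∀ x, p x → q x) {n : ℕ} {P : List (ℤ × ℤ)}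
    (h : IsSaw p n P) : IsSaw q n P := by
  obtain ⟨h1, h2, h3, t, h4, h5⟩ := h
  exact ⟨h1, h2, h3, t, h4, fun x hx => hpq x (h5 x hx)⟩

/-- The turning `k` of an exit and the kind of the exit. -/
lemma ex_kind {c : Par} {k : ℤ} {n : ℕ} {Q : List (ℤ × ℤ)} (h : Q ∈ ex c k n) :
    ∃ u v w r, Q = u :: v :: w :: r ∧ IsSaw (D c) n (v :: w :: r) ∧ Adj u v ∧ u ≠ w ∧ ¬ D c u ∧
      Tn (u :: v :: w :: r) = k ∧ D c v ∧ ExitKind c u v k := by
  obtain ⟨u, v, w, r, h1, h2, h3, h4, h5, h6⟩ := mem_ex.1 h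
  exact ⟨u, v, w, r, h1, h2, h3, h4, h5, h6, h2.head_mem, h6 ▸ exit_class h2 h3 h4 h5⟩

lemma D_mono {c c' : Par} (h : c.Le c') {x : ℤ × ℤ} (hx : D c x) : D c' x := by
  obtain ⟨h0, h1, h2, h3, h4, h5, h6⟩ := h
  obtain ⟨g0, g1, g2, g3, g4, g5, g6⟩ := hx
  refine ⟨g0, g1, by omega, by omega, by omega, ?_, ?_⟩
  · intro hz; have := g5 hz; omega
  · intro hz; have := g6 hz; omega

lemma ex_mono {c c' : Par} (h : c.Le c') {k : ℤ} (hk : c.side k = c'.side k) (n : ℕ) :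
    ex c k n ⊆ ex c' k n := by
  intro Q hQ
  obtain ⟨u, v, w, r, rfl, h2, h3, h4, h5, h6, h7, h8⟩ := ex_kind hQ
  rw [mem_ex]
  refine ⟨u, v, w, r, rfl, h2.mono (fun x hx => D_mono h hx), h3, h4, ?_, h6⟩
  rintro ⟨g0, g1, g2, g3, g4, g5, g6⟩
  rcases h8 with h8 | h8 | h8 | h8 | h8 | h8 | h8 | h8 | h8 | h8 | h8 <;> obtain ⟨rfl, h8⟩ := h8
  · simp [Par.side] at hk; omega
  · simp [Par.side] at hk; omega
  · simp [Par.side] at hk; omega
  · simp [Par.side] at hk; have := g5 (by omega); omega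
  · simp [Par.side] at hk; have := g5 (by omega); omega
  · simp [Par.side] at hk; have := g6 (by omega); omega
  · simp [Par.side] at hk; have := g6 (by omega); omega
  · exact g1 h8.1
  · exact g1 h8.1
  · exact g1 h8.1
  · exact g1 h8.1

/-- A bound for all parameters. -/
def Par.sup (c : Par) : ℕ := c.a0 + c.a1 + c.a2 + c.a3 + c.b1 + c.b2 + c.b3

lemma Par.le_all (c : Par) {M : ℕ} (h : c.sup ≤ M) : c.Le (Par.all M) := by
  simp only [Par.sup] at h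
  simp only [Par.Le, Par.all]
  omega

lemma Par.all_le {N M : ℕ} (h : N ≤ M) : (Par.all N).Le (Par.all M) := by
  simp only [Par.Le, Par.all]
  omega

lemma D_box {M : ℕ} {x : ℤ × ℤ} (hx : D (Par.all M) x) :
    x ∈ (Finset.Icc (-(2 * M : ℤ)) (2 * M)) ×ˢ (Finset.Icc (-(2 * M : ℤ)) (2 * M)) := by
  obtain ⟨g0, g1, g2, g3, g4, g5, g6⟩ := hx
  simp only [Par.all, F0, F1, F2, F3, F4, F5] at *
  rw [Finset.mem_product, Finset.mem_Icc, Finset.mem_Icc]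
  rcases lt_or_ge x.2 0 with h | h
  · have := g6 h; omega
  · have := g5 h; omega

lemma saw_empty {M n : ℕ} (hn : (4 * M + 1) ^ 2 ≤ n) : saw (D (Par.all M)) n = ∅ := by
  rw [Finset.eq_empty_iff_forall_notMem]
  intro P hP
  rw [mem_saw (D_dom _)] at hP
  obtain ⟨h1, h2, h3, t, h4, h5⟩ := hP
  have hN : (t ++ [o]).Nodup := by
    have : ((t ++ [o]) ++ [o']).Nodup := by simpa [h4] using h2
    exact (List.nodup_append.1 this).1
  have hlen : (t ++ [o]).length = n + 1 := by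
    rw [h4] at h1; simp at h1 ⊢; omega
  have hsub : (t ++ [o]).toFinset ⊆
      (Finset.Icc (-(2 * M : ℤ)) (2 * M)) ×ˢ (Finset.Icc (-(2 * M : ℤ)) (2 * M)) := by
    intro x hx
    exact D_box (h5 x (List.mem_toFinset.1 hx))
  have hc := Finset.card_le_card hsub
  rw [List.toFinset_card_of_nodup hN, hlen, Finset.card_product, Int.card_Icc] at hc
  have e : (2 * (M:ℤ) + 1 - -(2 * M)).toNat = 4 * M + 1 := by
    have : (2 * (M:ℤ) + 1 - -(2 * M)) = ((4 * M + 1 : ℕ) : ℤ) := by push_cast; ring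
    rw [this]; exact Int.toNat_natCast _
  rw [e] at hc
  have : (4 * M + 1) ^ 2 = (4 * M + 1) * (4 * M + 1) := by ring
  omega

lemma saw_empty' (c : Par) : ∃ B : ℕ, ∀ n, B ≤ n → saw (D c) n = ∅ := by
  refine ⟨(4 * c.sup + 1) ^ 2, fun n hn => ?_⟩
  have h := saw_empty hn
  rw [Finset.eq_empty_iff_forall_notMem] at h ⊢
  intro P hP
  rw [mem_saw (D_dom _)] at hP
  apply h P
  rw [mem_saw (D_dom _)]
  exact hP.mono (fun x hx => D_mono (c.le_all le_rfl) hx)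

lemma ex_empty {c : Par} {n : ℕ} (h : saw (D c) n = ∅) (k : ℤ) : ex c k n = ∅ := by
  unfold ex exits cand
  rw [h]; simp

lemma mass_eq {c : Par} {B : ℕ} (hB : ∀ n, B ≤ n → saw (D c) n = ∅) (k : ℤ) :
    mass c k = ∑ n ∈ Finset.range B, xc ^ (n + 1) * ((ex c k n).card : ℝ) := by
  unfold mass
  refine tsum_eq_sum ?_
  intro n hn
  rw [Finset.mem_range, not_lt] at hn
  rw [ex_empty (hB n hn)]; simp

lemma mu_pos : 0 < mu := by
  unfold mu
  have : 0 < Real.cos (Real.pi / 8) := by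
    apply Real.cos_pos_of_mem_Ioo
    constructor <;> linarith [Real.pi_pos]
  linarith

lemma xc_pos : 0 < xc := by unfold xc; exact one_div_pos.2 mu_pos

lemma xc_mu : xc * mu = 1 := by unfold xc; field_simp [mu_pos.ne']

lemma mass_nonneg (c : Par) (k : ℤ) : 0 ≤ mass c k := by
  unfold mass
  refine tsum_nonneg fun n => ?_
  have := xc_pos
  positivity

lemma mass_mono {c c' : Par} (h : c.Le c') {k : ℤ} (hk : c.side k = c'.side k) :
    mass c k ≤ mass c' k := by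
  obtain ⟨B, hB⟩ := saw_empty' c
  obtain ⟨B', hB'⟩ := saw_empty' c'
  rw [mass_eq (B := max B B') (fun n hn => hB n (le_trans (le_max_left _ _) hn)),
    mass_eq (B := max B B') (fun n hn => hB' n (le_trans (le_max_right _ _) hn))]
  refine Finset.sum_le_sum fun n _ => ?_
  have h1 : ((ex c k n).card : ℝ) ≤ ((ex c' k n).card : ℝ) := by
    exact_mod_cast Finset.card_le_card (ex_mono h hk n)
  have := xc_pos
  exact mul_le_mul_of_nonneg_left h1 (by positivity)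

lemma mass_zero_of {c : Par} {k : ℤ} (h : ∀ n, ex c k n = ∅) : mass c k = 0 := by
  unfold mass
  simp [h]

lemma kill3 (c : Par) (h : 2 * c.a2 + 1 ≤ c.a3) : mass c 3 = 0 := by
  apply mass_zero_of
  intro n
  rw [Finset.eq_empty_iff_forall_notMem]
  intro Q hQ
  obtain ⟨u, v, w, r, rfl, h2, h3, h4, h5, h6, h7, h8⟩ := ex_kind hQ
  obtain ⟨a, b⟩ := u
  obtain ⟨x, y⟩ := v
  obtain ⟨g0, g1, g2, g3, g4, g5, g6⟩ := h7
  simp only [ExitKind, F0, F1, F2, F3, F4, F5, Prod.mk_sub_mk, Prod.mk.injEq] at *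
  have hh : 0 < b ∧ 3 * (c.a3 : ℤ) < -2 * a - b ∧ a - x = -1 ∧ b - y = 0 := by omega
  have := g5 (by omega)
  omega

lemma kill2 (c : Par) (h : c.a1 + c.a3 + 1 ≤ c.a2) : mass c 2 = 0 := by
  apply mass_zero_of
  intro n
  rw [Finset.eq_empty_iff_forall_notMem]
  intro Q hQ
  obtain ⟨u, v, w, r, rfl, h2, h3, h4, h5, h6, h7, h8⟩ := ex_kind hQ
  obtain ⟨a, b⟩ := u
  obtain ⟨x, y⟩ := v
  obtain ⟨g0, g1, g2, g3, g4, g5, g6⟩ := h7
  simp only [ExitKind, F0, F1, F2, F3, F4, F5, Prod.mk_sub_mk, Prod.mk.injEq] at *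
  have hh : 0 < b ∧ 3 * (c.a2 : ℤ) + 1 < b - a ∧ a - x = -1 ∧ b - y = 1 := by omega
  have := g5 (by omega)
  omega

lemma kill1 (c : Par) (h : c.a0 + c.a2 + 2 ≤ c.a1) : mass c 1 = 0 := by
  apply mass_zero_of
  intro n
  rw [Finset.eq_empty_iff_forall_notMem]
  intro Q hQ
  obtain ⟨u, v, w, r, rfl, h2, h3, h4, h5, h6, h7, h8⟩ := ex_kind hQ
  obtain ⟨a, b⟩ := u
  obtain ⟨x, y⟩ := v
  obtain ⟨g0, g1, g2, g3, g4, g5, g6⟩ := h7
  simp only [ExitKind, F0, F1, F2, F3, F4, F5, Prod.mk_sub_mk, Prod.mk.injEq] at *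
  have hh : 3 * (c.a1 : ℤ) < a + 2 * b ∧ a - x = 0 ∧ b - y = 1 := by omega
  rcases lt_or_ge y 0 with hy | hy
  · clear g5 g6 h8; omega
  · have := g5 hy
    clear g5 g6 h8; omega

lemma kill0 (c : Par) (h : c.a1 + c.b1 + 1 ≤ c.a0) : mass c 0 = 0 := by
  apply mass_zero_of
  intro n
  rw [Finset.eq_empty_iff_forall_notMem]
  intro Q hQ
  obtain ⟨u, v, w, r, rfl, h2, h3, h4, h5, h6, h7, h8⟩ := ex_kind hQ
  obtain ⟨a, b⟩ := u
  obtain ⟨x, y⟩ := v
  obtain ⟨g0, g1, g2, g3, g4, g5, g6⟩ := h7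
  simp only [ExitKind, F0, F1, F2, F3, F4, F5, Prod.mk_sub_mk, Prod.mk.injEq] at *
  have hh : 3 * (c.a0 : ℤ) + 1 < 2 * a + b ∧ a - x = 1 ∧ b - y = 0 := by omega
  clear g5 g6 h8
  omega

lemma exit_range {c : Par} {u v : ℤ × ℤ} {k : ℤ} (h : ExitKind c u v k) : k ∈ Finset.Icc (-5 : ℤ) 5 := by
  rw [Finset.mem_Icc]
  rcases h with h | h | h | h | h | h | h | h | h | h | h <;> obtain ⟨rfl, -⟩ := h <;> norm_num

lemma exits_fiber (c : Par) (n : ℕ) : ∑ Q ∈ exits (D c) n, zt (Tn Q) =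
    ∑ k ∈ Finset.Icc (-5 : ℤ) 5, zt k * ((ex c k n).card : ℂ) := by
  have hmaps : ∀ Q ∈ exits (D c) n, Tn Q ∈ Finset.Icc (-5 : ℤ) 5 := by
    intro Q hQ
    have : Q ∈ ex c (Tn Q) n := by unfold ex; rw [Finset.mem_filter]; exact ⟨hQ, rfl⟩
    obtain ⟨u, v, w, r, h1, h2, h3, h4, h5, h6, h7, h8⟩ := ex_kind this
    exact exit_range h8
  rw [← Finset.sum_fiberwise_of_maps_to hmaps]
  refine Finset.sum_congr rfl fun k _ => ?_
  have : ∀ Q ∈ (exits (D c) n).filter (fun Q => Tn Q = k), zt (Tn Q) = zt k := by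
    intro Q hQ
    rw [(Finset.mem_filter.1 hQ).2]
  rw [Finset.sum_congr rfl this, Finset.sum_const, nsmul_eq_mul, mul_comm]
  rfl

/-- Telescoping: for every finite number of steps. -/
lemma telescope {p : ℤ × ℤ → Prop} [DecidablePred p] (hp : Dom p) (N : ℕ) :
    ∑ n ∈ Finset.range N, (xc : ℂ) ^ (n + 1) * ∑ Q ∈ exits p n, zt (Tn Q) =
      1 - (xc : ℂ) ^ N * Tsum p N := by
  induction N with
  | zero => simp [Tsum_zero]
  | succ N ih =>
    rw [Finset.sum_range_succ, ih]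
    have h := Tsum_succ hp N
    have hx : (xc : ℂ) * (mu : ℂ) = 1 := by exact_mod_cast xc_mu
    have : ∑ Q ∈ exits p N, zt (Tn Q) = (mu : ℂ) * Tsum p N - Tsum p (N + 1) := by rw [h]; ring
    rw [this]
    have e : (xc : ℂ) ^ (N + 1) * ((mu : ℂ) * Tsum p N - Tsum p (N + 1)) =
      (xc : ℂ) ^ N * ((xc : ℂ) * (mu : ℂ)) * Tsum p N - (xc : ℂ) ^ (N + 1) * Tsum p (N + 1) := by ring
    rw [e, hx]; ring

/-- The vector identity. -/
theorem mass_ident (c : Par) : ∑ k ∈ Finset.Icc (-5 : ℤ) 5, zt k * (mass c k : ℂ) = 1 := by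
  obtain ⟨B, hB⟩ := saw_empty' c
  have h := telescope (D_dom c) B
  have hT : Tsum (D c) B = 0 := by unfold Tsum; rw [hB B le_rfl]; simp
  rw [hT, mul_zero, sub_zero] at h
  rw [← h]
  simp_rw [exits_fiber, Finset.mul_sum]
  rw [Finset.sum_comm]
  refine Finset.sum_congr rfl fun k _ => ?_
  rw [mass_eq hB]
  push_cast
  rw [Finset.mul_sum]
  refine Finset.sum_congr rfl fun n _ => ?_
  ring

end Pool.Agent.Hhelper14.SAW
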