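import Pool.Agent.Hhelper14.SAW.Main
import Pool.Agent.Hhelper14.SAW.Quant
import Pool.Agent.Hhelper3.SAW.SurgeryFull

/-!
The final statements.
-/

namespace Pool.Agent.Hhelper14.SAW

open Filter Topology Pool.Agent.Hhelper14.Honeycomb

theorem final :
    (∃ c : ℝ, 0 < c ∧ ∀ n : ℕ, 1 ≤ n → c * (n : ℝ) ^ (1 / 10000 : ℝ) * muL ^ n ≤ a n) ∧
    (∃ C : ℝ, 0 < C ∧ ∀ n : ℕ, 2 ≤ n → ∃ m : ℕ, n ≤ m ∧ m ≤ n ^ 2 ∧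
      P m ≤ C * (m : ℝ) ^ (-(1 / 10000) : ℝ)) ∧
    (∀ α : ℝ, Tendsto (fun n : ℕ => Real.log (P n) / Real.log n) atTop (𝓝 α) → α ≤ -(1 / 10000)) :=
  main_of Pool.Agent.Hhelper3.SAW.mass_chain hw_quant

end Pool.Agent.Hhelper14.SAW
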