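import Mathlib

/-!
Polynomial growth from a multiplicative recursion.
-/

namespace Pool.Agent.Hhelper14.SAW

/-- The scales. -/
def scl : ℕ → ℕ
  | 0 => 0
  | k + 1 => 10 * scl k + 21

lemma scl_le : ∀ k, 3 * scl k + 7 = 7 * 10 ^ k
  | 0 => by simp [scl]
  | k + 1 => by
    have := scl_le k
    rw [scl, pow_succ]; omega

/-- Growth along a recursion `10 N + 21`. -/
theorem growth (g : ℕ → ℝ) (h0 : ∀ n, 1 ≤ g n) (hm : Monotone g) (ρ δ : ℝ) (hρ : 0 < ρ) (hδ : 0 ≤ δ)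
    (hδρ : (10 : ℝ) ^ δ ≤ 1 + ρ) (hg : ∀ N, (1 + ρ) * g N ≤ g (10 * N + 21)) (N : ℕ) :
    ((N : ℝ) + 1) ^ δ ≤ (1 + ρ) ^ 2 * g N := by
  have hpos : 0 < 1 + ρ := by linarith
  have hk : ∀ k, (1 + ρ) ^ k ≤ g (scl k) := by
    intro k
    induction k with
    | zero => simp [scl, h0]
    | succ k ih =>
      have := hg (scl k)
      rw [scl, pow_succ]
      nlinarith
  set l := Nat.log 10 (N + 1) with hl
  have hl1 : 10 ^ l ≤ N + 1 := Nat.pow_log_le_self 10 (by omega)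
  have hl2 : N + 1 < 10 ^ (l + 1) := Nat.lt_pow_succ_log_self (by norm_num) _
  have hup : ((N : ℝ) + 1) ^ δ ≤ (1 + ρ) ^ (l + 1) := by
    have e1 : ((N : ℝ) + 1) ≤ (10 : ℝ) ^ (l + 1) := by exact_mod_cast hl2.le
    calc ((N : ℝ) + 1) ^ δ ≤ ((10 : ℝ) ^ (l + 1)) ^ δ := Real.rpow_le_rpow (by positivity) e1 hδ
      _ = ((10 : ℝ) ^ δ) ^ (l + 1) := by
          rw [← Real.rpow_natCast, ← Real.rpow_mul (by norm_num), mul_comm, Real.rpow_mul (by norm_num),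
            Real.rpow_natCast]
      _ ≤ (1 + ρ) ^ (l + 1) := pow_le_pow_left₀ (by positivity) hδρ _
  have hlow : (1 + ρ) ^ (l + 1) ≤ (1 + ρ) ^ 2 * g N := by
    rcases Nat.eq_zero_or_pos l with h2 | h2
    · rw [h2, zero_add, pow_one]
      have h3 := h0 N
      have h4 : (1 + ρ) ≤ (1 + ρ) ^ 2 * 1 := by nlinarith
      refine h4.trans (mul_le_mul_of_nonneg_left (by linarith) (by positivity))
    · clear_value l
      obtain ⟨m, rfl⟩ : ∃ m, l = m + 1 := ⟨l - 1, by omega⟩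
      have e1 : scl m ≤ N := by
        have := scl_le m
        have e2 : 10 ^ (m + 1) = 10 * 10 ^ m := by rw [pow_succ]; ring
        omega
      have e3 := hm e1
      have e4 := hk m
      have e5 : (1 + ρ) ^ (m + 1 + 1) = (1 + ρ) ^ 2 * (1 + ρ) ^ m := by ring
      rw [e5]
      refine mul_le_mul_of_nonneg_left ?_ (by positivity)
      linarith
  exact hup.trans hlow

theorem growth_sqrt (g : ℕ → ℝ) (A : ℕ → ℝ) (K δ : ℝ) (hK : 0 < K) (hδ : 0 ≤ δ)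
    (hA : ∀ N n : ℕ, (4 * N + 1) ^ 2 ≤ n → g N ≤ A n)
    (hc : ∀ N : ℕ, ((N : ℝ) + 1) ^ (2 * δ) ≤ K * g N) :
    ∃ c : ℝ, 0 < c ∧ ∀ n : ℕ, 1 ≤ n → c * (n : ℝ) ^ δ ≤ A n := by
  refine ⟨(K * (25 : ℝ) ^ δ)⁻¹, by positivity, ?_⟩
  intro n hn
  set q := Nat.sqrt n with hq
  have hq1 : q * q ≤ n := Nat.sqrt_le n
  have hq2 : n < (q + 1) * (q + 1) := Nat.lt_succ_sqrt n
  have hq0 : 1 ≤ q := by
    rw [hq]; exact Nat.sqrt_pos.2 hn
  set N := (q - 1) / 4 with hN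
  have e1 : 4 * N + 1 ≤ q := by omega
  have e2 : q ≤ 4 * N + 4 := by omega
  have e3 := hA N n (by
    calc (4 * N + 1) ^ 2 = (4 * N + 1) * (4 * N + 1) := by ring
      _ ≤ q * q := Nat.mul_le_mul e1 e1
      _ ≤ n := hq1)
  have e4 := hc N
  have e5 : (n : ℝ) ≤ 25 * ((N : ℝ) + 1) ^ 2 := by
    have : n ≤ 25 * (N + 1) ^ 2 := by nlinarith
    exact_mod_cast this
  have e6 : (n : ℝ) ^ δ ≤ (25 : ℝ) ^ δ * ((N : ℝ) + 1) ^ (2 * δ) := by
    calc (n : ℝ) ^ δ ≤ (25 * ((N : ℝ) + 1) ^ 2) ^ δ :=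
          Real.rpow_le_rpow (by positivity) e5 (by positivity)
      _ = (25 : ℝ) ^ δ * ((N : ℝ) + 1) ^ (2 * δ) := by
          rw [Real.mul_rpow (by norm_num) (by positivity)]
          congr 1
          rw [← Real.rpow_natCast, ← Real.rpow_mul (by positivity)]
          congr 1
  rw [inv_mul_le_iff₀ (by positivity)]
  calc (n : ℝ) ^ δ ≤ (25 : ℝ) ^ δ * ((N : ℝ) + 1) ^ (2 * δ) := e6
    _ ≤ (25 : ℝ) ^ δ * (K * g N) := mul_le_mul_of_nonneg_left e4 (by positivity)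
    _ = K * (25 : ℝ) ^ δ * g N := by ring
    _ ≤ K * (25 : ℝ) ^ δ * A n := mul_le_mul_of_nonneg_left e3 (by positivity)

/-- Numerics. -/
lemma ten_rpow_le {ρ : ℝ} (hρ : 0.00048 ≤ ρ) : (10 : ℝ) ^ (2 * (1 / 10000 : ℝ)) ≤ 1 + ρ := by
  have hlog : Real.log 10 ≤ 2.31 := by
    have h1 : Real.log 10 = Real.log 2 * 3 + Real.log 1.25 := by
      have : (10 : ℝ) = 2 ^ 3 * 1.25 := by norm_num
      rw [this, Real.log_mul (by norm_num) (by norm_num), Real.log_pow]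
      push_cast; ring
    have h2 := Real.log_two_lt_d9
    have h3 : Real.log 1.25 ≤ 0.2302 := by
      rw [Real.log_le_iff_le_exp (by norm_num)]
      have := Real.quadratic_le_exp_of_nonneg (x := 0.2302) (by norm_num)
      norm_num at this ⊢
      linarith
    linarith
  rw [Real.rpow_def_of_pos (by norm_num)]
  have h5 : Real.log 10 * (2 * (1 / 10000)) ≤ 0.000462 := by linarith
  have h6 : Real.exp (Real.log 10 * (2 * (1 / 10000))) ≤ Real.exp 0.000462 := Real.exp_le_exp.2 h5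
  have h7 : Real.exp 0.000462 ≤ 1 / (1 - 0.000462) := by
    have := Real.exp_bound_div_one_sub_of_interval (x := 0.000462) (by norm_num) (by norm_num)
    exact this
  have h8 : (1 : ℝ) / (1 - 0.000462) ≤ 1 + 0.00048 := by norm_num
  linarith

end Pool.Agent.Hhelper14.SAW
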