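import Pool.Agent.Hhelper14.SAW.TnLow
import Pool.Agent.Hhelper14.SAW.Refl
import Pool.Agent.Hhelper14.SAW.Growth
import Pool.Agent.Hhelper3.SAW.Surgery

/-!
The polynomial lower bound.
-/

namespace Pool.Agent.Hhelper14.SAW

lemma four_five' (N M : ℕ) (h : N + 1 ≤ M) :
    mass (Par.all M) 4 - mass (Par.all (N + 1)) 4 ≤
      (xc + 1 / xc) * (mass (Par.all M) 5 - mass (Par.all N) 5) := by
  refine Pool.Agent.Hhelper3.SAW.four_five ?_ ?_ N M h
  · intro c n u v w r hQ hT
    have hm : (u :: v :: w :: r) ∈ ex c 4 n := by unfold ex; rw [Finset.mem_filter]; exact ⟨hQ, hT⟩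
    obtain ⟨u', v', w', r', he, -, -, -, -, -, -, hk⟩ := ex_kind hm
    simp only [List.cons.injEq] at he
    obtain ⟨rfl, rfl, -⟩ := he
    rcases hk with hk | hk | hk | hk | hk | hk | hk | hk | hk | hk | hk
    · exact absurd hk.1 (by norm_num)
    · exact absurd hk.1 (by norm_num)
    · exact absurd hk.1 (by norm_num)
    · exact absurd hk.1 (by norm_num)
    · exact absurd hk.1 (by norm_num)
    · exact absurd hk.1 (by norm_num)
    · exact absurd hk.1 (by norm_num)
    · exact hk.2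
    · exact absurd hk.1 (by norm_num)
    · exact absurd hk.1 (by norm_num)
    · exact absurd hk.1 (by norm_num)
  · intro c n u v w r hQ hT
    have hm : (u :: v :: w :: r) ∈ ex c 5 n := by unfold ex; rw [Finset.mem_filter]; exact ⟨hQ, hT⟩
    obtain ⟨u', v', w', r', he, -, -, -, -, -, -, hk⟩ := ex_kind hm
    simp only [List.cons.injEq] at he
    obtain ⟨rfl, rfl, -⟩ := he
    rcases hk with hk | hk | hk | hk | hk | hk | hk | hk | hk | hk | hk
    · exact absurd hk.1 (by norm_num)
    · exact absurd hk.1 (by norm_num)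
    · exact absurd hk.1 (by norm_num)
    · exact absurd hk.1 (by norm_num)
    · exact absurd hk.1 (by norm_num)
    · exact absurd hk.1 (by norm_num)
    · exact absurd hk.1 (by norm_num)
    · exact absurd hk.1 (by norm_num)
    · exact hk.2.1
    · exact absurd hk.1 (by norm_num)
    · exact absurd hk.1 (by norm_num)

lemma cos_sq_val : mu ^ 2 = 2 + Real.sqrt 2 := by
  unfold mu
  rw [Real.cos_pi_div_eight]
  have h1 : 0 ≤ 2 + Real.sqrt 2 := by positivity
  have : (2 * (Real.sqrt (2 + Real.sqrt 2) / 2)) ^ 2 = (Real.sqrt (2 + Real.sqrt 2)) ^ 2 := by ring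
  rw [this, Real.sq_sqrt h1]

lemma mu_bounds : 1.7 ≤ mu ∧ mu ≤ 1.9 := by
  have h := cos_sq_val
  have hp := mu_pos
  have h1 : 1.4 ≤ Real.sqrt 2 := by
    apply Real.le_sqrt_of_sq_le; norm_num
  have h2 : Real.sqrt 2 ≤ 1.5 := by
    rw [Real.sqrt_le_left (by norm_num)]; norm_num
  constructor
  · nlinarith
  · nlinarith

lemma sin_bound : 0.35 ≤ Real.sin (Real.pi / 8) := by
  rw [Real.sin_pi_div_eight]
  have h2 : Real.sqrt 2 ≤ 1.5 := by
    rw [Real.sqrt_le_left (by norm_num)]; norm_num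
  have : 0.7 ≤ Real.sqrt (2 - Real.sqrt 2) := by
    apply Real.le_sqrt_of_sq_le; nlinarith
  linarith

/-- The polynomial lower bound, from the chain inequality. -/
theorem low_of_chain (hchain : ∀ N : ℕ, 1 + 2 * Real.sin (Real.pi / 8) * mass (Par.all N) 5 ≤
      416 * ((mass (Par.all (10 * N + 11)) 4 - mass (Par.all N) 4) +
        (mass (Par.all (10 * N + 11)) 5 - mass (Par.all N) 5))) :
    ∃ c : ℝ, 0 < c ∧ ∀ n : ℕ, 1 ≤ n → c * (n : ℝ) ^ (1 / 10000 : ℝ) * mu ^ n ≤ (an n : ℝ) := by
  set s : ℝ := 2 * Real.sin (Real.pi / 8) with hs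
  have hs0 : 0.7 ≤ s := by rw [hs]; linarith [sin_bound]
  have hx := xc_pos
  set g : ℕ → ℝ := fun N => 1 + s * mass (Par.all N) 5 with hgdef
  have h0 : ∀ n, 1 ≤ g n := fun n => by
    have := mass_nonneg (Par.all n) 5
    simp only [hgdef]
    nlinarith
  have hmono : Monotone g := fun N M hNM => by
    have := mass_mono (Par.all_le hNM) (k := 5) (by simp [Par.side])
    simp only [hgdef]
    nlinarith
  have hmu := mu_bounds
  set κ : ℝ := 1 + xc + 1 / xc with hκ
  have hκ0 : 0 < κ := by positivity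
  have hκ1 : κ ≤ 3.5 := by
    have h1 : xc ≤ 0.6 := by
      unfold xc
      rw [div_le_iff₀ (by linarith)]
      linarith
    have h2 : 1 / xc = mu := by unfold xc; simp
    rw [hκ, h2]; linarith
  set ρ := s / (416 * κ) with hρ
  have hρ0 : 0.00048 ≤ ρ := by
    rw [hρ, le_div_iff₀ (by positivity)]
    nlinarith
  have hrec : ∀ N, (1 + ρ) * g N ≤ g (10 * N + 21) := by
    intro N
    have h1 := hchain (N + 1)
    have h2 : 10 * (N + 1) + 11 = 10 * N + 21 := by ring
    rw [h2] at h1
    have h3 := four_five' N (10 * N + 21) (by omega)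
    have h4 : mass (Par.all N) 5 ≤ mass (Par.all (N + 1)) 5 :=
      mass_mono (Par.all_le (Nat.le_succ N)) (by simp [Par.side])
    have h6 : s * mass (Par.all N) 5 ≤ s * mass (Par.all (N + 1)) 5 :=
      mul_le_mul_of_nonneg_left h4 (by linarith)
    have h5 : g N ≤ 416 * κ * (mass (Par.all (10 * N + 21)) 5 - mass (Par.all N) 5) := by
      have h7 : 416 * κ * (mass (Par.all (10 * N + 21)) 5 - mass (Par.all N) 5) =
          416 * ((xc + 1 / xc) * (mass (Par.all (10 * N + 21)) 5 - mass (Par.all N) 5) +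
            (mass (Par.all (10 * N + 21)) 5 - mass (Par.all N) 5)) := by
        rw [hκ]; ring
      rw [h7]
      simp only [hgdef]
      linarith
    have h8 : ρ * g N ≤ s * (mass (Par.all (10 * N + 21)) 5 - mass (Par.all N) 5) := by
      rw [hρ, div_mul_eq_mul_div, div_le_iff₀ (by positivity)]
      have := mul_le_mul_of_nonneg_left h5 (show 0 ≤ s by linarith)
      linarith
    have h9 : g (10 * N + 21) - g N = s * (mass (Par.all (10 * N + 21)) 5 - mass (Par.all N) 5) := by
      simp only [hgdef]; ring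
    linarith
  have hgr := growth g h0 hmono ρ (2 * (1 / 10000)) (by linarith) (by norm_num) (ten_rpow_le hρ0) hrec
  obtain ⟨c, hc, hA⟩ := growth_sqrt g (fun n => xc ^ n * (an n : ℝ)) ((1 + ρ) ^ 2) (1 / 10000)
    (by positivity) (by norm_num) (fun N n hn => an_lower ex_refl N n hn) hgr
  refine ⟨c, hc, fun n hn => ?_⟩
  have h1 := hA n hn
  have hmu0 := mu_pos
  have h2 : xc ^ n * mu ^ n = 1 := by rw [← mul_pow, xc_mu, one_pow]
  calc c * (n : ℝ) ^ (1 / 10000 : ℝ) * mu ^ n ≤ (xc ^ n * (an n : ℝ)) * mu ^ n :=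
        mul_le_mul_of_nonneg_right h1 (by positivity)
    _ = (xc ^ n * mu ^ n) * (an n : ℝ) := by ring
    _ = an n := by rw [h2, one_mul]

end Pool.Agent.Hhelper14.SAW
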