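import Pool.Agent.Hhelper14.SAW.Exit

/-!
Shared definitions: masses of the exits of a hexagonal slit domain, all walks of the honeycomb lattice.
-/

namespace Pool.Agent.Hhelper14.SAW

/-- All side parameters equal. -/
def Par.all (n : ℕ) : Par := ⟨n, n, n, n, n, n, n⟩

/-- Reflection in the horizontal axis. -/
def Par.refl (c : Par) : Par := ⟨c.a0, c.b1, c.b2, c.b3, c.a1, c.a2, c.a3⟩

/-- Componentwise order of the side parameters. -/
def Par.Le (c c' : Par) : Prop :=
  c.a0 ≤ c'.a0 ∧ c.a1 ≤ c'.a1 ∧ c.a2 ≤ c'.a2 ∧ c.a3 ≤ c'.a3 ∧ c.b1 ≤ c'.b1 ∧ c.b2 ≤ c'.b2 ∧ c.b3 ≤ c'.b3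

/-- The parameter of the side `k` (`-3 ≤ k ≤ 3`); for other `k` (slit exits) there is none. -/
def Par.side (c : Par) (k : ℤ) : ℕ :=
  if k = 0 then c.a0 else if k = 1 then c.a1 else if k = 2 then c.a2 else if k = 3 then c.a3
  else if k = -1 then c.b1 else if k = -2 then c.b2 else if k = -3 then c.b3 else 0

/-- The critical fugacity. -/
noncomputable def xc : ℝ := 1 / mu

/-- Exits with turning `k`. -/
def ex (c : Par) (k : ℤ) (n : ℕ) : Finset (List (ℤ × ℤ)) := (exits (D c) n).filter (fun Q => Tn Q = k)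

/-- Mass of the exits with turning `k` (only finitely many terms are nonzero). -/
noncomputable def mass (c : Par) (k : ℤ) : ℝ := ∑' n : ℕ, xc ^ (n + 1) * ((ex c k n).card : ℝ)

/-- Self-avoiding walks with `n` steps started at `o` in the whole lattice, latest vertex first. -/
def IsWalk (n : ℕ) (P : List (ℤ × ℤ)) : Prop :=
  P.length = n + 1 ∧ P.Nodup ∧ HChain P ∧ P.getLast? = some o

/-- Their number. -/
noncomputable def an (n : ℕ) : ℕ := Set.ncard {P | IsWalk n P}

/-- The vertical strip made of the columns `0, ..., T`. -/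
def St (T : ℕ) (z : ℤ × ℤ) : Prop := hon z ∧ 0 ≤ F0 z ∧ F0 z ≤ 3 * T + 1

instance (T : ℕ) : DecidablePred (St T) := fun z => by unfold St; infer_instance

lemma St_dom (T : ℕ) : Dom (St T) := by
  refine ⟨?_, fun x h => h.1, ?_⟩
  · unfold St
    refine ⟨by decide, by decide, ?_⟩
    simp only [F0, o]
    omega
  · intro x h hs
    simp only [St, slit, F0] at h hs
    omega

end Pool.Agent.Hhelper14.SAW
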