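import Pool.Agent.Hhelper14.SAW.Base

/-!
Classification of the exits of a hexagonal slit domain: the turning number determines the side.
-/

namespace Pool.Agent.Hhelper14.SAW

lemma exit_side {p : ℤ × ℤ → Prop} (hp : Dom p) {n : ℕ} {u v w : ℤ × ℤ} {r : List (ℤ × ℤ)}
    (hP : IsSaw p n (v :: w :: r)) (hadj : Adj u v) (huw : u ≠ w) (hu : ¬ p u) (hus : ¬ slit u) (m : ℤ)
    (hwin : ∀ x, p x → (sec (x - u) - m) % 6 ≤ 4) :
    Tn (u :: v :: w :: r) = S u + (sec (v - u) - m) % 6 - (sec (-u) - m) % 6 := by
  obtain ⟨t, ht, hpt, h⟩ := exit_formula hp hP hadj huw hu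
  have huo : u - o = u := by simp [o]
  have hou : o - u = -u := by simp [o]
  rcases h with ⟨rfl, h⟩ | ⟨t', rfl, hvo, h⟩
  · simp only [List.nil_append, List.cons.injEq] at ht
    obtain ⟨rfl, -, -⟩ := ht
    rw [h, huo, hou]; ring
  · have hUC : UChain (v :: (t' ++ [o])) := by
      have h1 : HChain ((v :: (t' ++ [o])) ++ [o']) := by
        have h2 : (v :: (t' ++ [o])) ++ [o'] = v :: w :: r := by rw [ht]; simp
        rw [h2]; exact hP.2.2.1
      exact HChain.U (List.isChain_append.1 h1).1
    have hw := Th_window m u (t' ++ [o]) v hUC (by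
      intro x hx
      have hpx := hpt x (by simpa using hx)
      refine ⟨nz_of_ne ?_, hwin x hpx⟩
      rintro rfl; exact hu hpx)
    have hgl : (v :: (t' ++ [o])).getLast (by simp) = o := by simp
    rw [hgl, hou] at hw
    have hv : p v := hpt v (by simp)
    have hov : Off (v - o) := by
      have h1 := hp.off v hv
      have h4 : ¬ (v.1 = 0 ∧ v.2 = 0) := fun h => hvo (Prod.ext h.1 h.2)
      simp only [slit, Off, o, Prod.fst_sub, Prod.snd_sub] at *
      omega
    have hou' : Off (u - o) := by
      have h4 : ¬ (u.1 = 0 ∧ u.2 = 0) := by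
        intro h
        apply hu
        have : u = o := Prod.ext h.1 h.2
        rw [this]; exact hp.start
      simp only [slit, Off, o, Prod.fst_sub, Prod.snd_sub] at *
      omega
    have hd := dl_eq_S hov hou' (by simpa using hadj.2.2)
    have hw' : Th u ((v :: t') ++ [o]) = (sec (v - u) - m) % 6 - (sec (-u) - m) % 6 := hw
    rw [h, hd, hw', huo]
    ring

lemma exit_slit {p : ℤ × ℤ → Prop} (hp : Dom p) {n : ℕ} {u v w : ℤ × ℤ} {r : List (ℤ × ℤ)}
    (hP : IsSaw p n (v :: w :: r)) (hadj : Adj u v) (huw : u ≠ w) (hus : slit u) :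
    v ≠ o ∧ Tn (u :: v :: w :: r) = S v + dl v u + S (v - u) := by
  have hu : ¬ p u := fun h => hp.off u h hus
  obtain ⟨t, ht, hpt, h⟩ := exit_formula hp hP hadj huw hu
  have huo : u - o = u := by simp [o]
  have hou : o - u = -u := by simp [o]
  rcases h with ⟨rfl, h⟩ | ⟨t', rfl, hvo, h⟩
  · exfalso
    simp only [List.nil_append, List.cons.injEq] at ht
    obtain ⟨rfl, rfl, rfl⟩ := ht
    apply huw
    obtain ⟨a, b⟩ := u
    have h2 := hadj.2.2
    simp only [slit, U, o, o', Prod.mk_sub_mk, Prod.mk.injEq] at *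
    omega
  · refine ⟨hvo, ?_⟩
    have hUC : UChain (v :: (t' ++ [o])) := by
      have h1 : HChain ((v :: (t' ++ [o])) ++ [o']) := by
        have h2 : (v :: (t' ++ [o])) ++ [o'] = v :: w :: r := by rw [ht]; simp
        rw [h2]; exact hP.2.2.1
      exact HChain.U (List.isChain_append.1 h1).1
    have hw := Th_eq_S u (t' ++ [o]) v hUC (by
      intro x hx
      have hpx := hpt x (by simpa using hx)
      have h1 := hp.off x hpx
      simp only [slit, Off, Prod.fst_sub, Prod.snd_sub] at *
      omega)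
    have hgl : (v :: (t' ++ [o])).getLast (by simp) = o := by simp
    rw [hgl, hou] at hw
    have hS0 : S (-u) = 0 := by
      apply S_right
      · simp only [slit] at hus; simp only [Prod.snd_neg]; omega
      · simp only [slit] at hus; simp only [Prod.fst_neg]; omega
    rw [hS0] at hw
    have hw' : Th u ((v :: t') ++ [o]) = S (v - u) := by
      have : Th u ((v :: t') ++ [o]) = Th u (v :: (t' ++ [o])) := rfl
      rw [this, hw]; ring
    have hvo' : v - o = v := by simp [o]
    rw [h, hw', huo, hvo']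

lemma win_F0 {z : ℤ × ℤ} (h : F0 z < 0) : (sec z - 1) % 6 ≤ 4 := by
  simp only [F0] at h; unfold sec; split_ifs <;> omega
lemma win_F1 {z : ℤ × ℤ} (h : F1 z < 0) : (sec z - 2) % 6 ≤ 4 := by
  simp only [F1] at h; unfold sec; split_ifs <;> omega
lemma win_F5 {z : ℤ × ℤ} (h : F5 z < 0) : (sec z - 0) % 6 ≤ 4 := by
  simp only [F5] at h; unfold sec; split_ifs <;> omega
lemma win_F2 {z : ℤ × ℤ} (h : F2 z < 0 ∨ z.2 < 0) : (sec z - 3) % 6 ≤ 4 := by
  simp only [F2] at h; unfold sec; split_ifs <;> omega
lemma win_F3u {z : ℤ × ℤ} (h : F3 z < 0 ∨ z.2 < 0) : (sec z - 3) % 6 ≤ 4 := by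
  simp only [F3] at h; unfold sec; split_ifs <;> omega
lemma win_F4 {z : ℤ × ℤ} (h : F4 z < 0 ∨ 0 < z.2) : (sec z - 5) % 6 ≤ 4 := by
  simp only [F4] at h; unfold sec; split_ifs <;> omega
lemma win_F3d {z : ℤ × ℤ} (h : F3 z < 0 ∨ 0 < z.2) : (sec z - 4) % 6 ≤ 4 := by
  simp only [F3] at h; unfold sec; split_ifs <;> omega

/-- The possible exits, with their turning. -/
def ExitKind (c : Par) (u v : ℤ × ℤ) (k : ℤ) : Prop :=
  (k = 0 ∧ ¬ slit u ∧ 3 * c.a0 + 1 < F0 u ∧ u - v = (1, 0)) ∨
  (k = 1 ∧ ¬ slit u ∧ 3 * c.a1 < F1 u ∧ u - v = (0, 1)) ∨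
  (k = -1 ∧ ¬ slit u ∧ 3 * c.b1 < F5 u ∧ u - v = (1, -1)) ∨
  (k = 2 ∧ ¬ slit u ∧ 0 < u.2 ∧ 3 * c.a2 + 1 < F2 u ∧ u - v = (-1, 1)) ∨
  (k = 3 ∧ ¬ slit u ∧ 0 < u.2 ∧ 3 * c.a3 < F3 u ∧ u - v = (-1, 0)) ∨
  (k = -2 ∧ ¬ slit u ∧ u.2 < 0 ∧ 3 * c.b2 + 1 < F4 u ∧ u - v = (0, -1)) ∨
  (k = -3 ∧ ¬ slit u ∧ u.2 < 0 ∧ 3 * c.b3 < F3 u ∧ u - v = (-1, 0)) ∨
  (k = 4 ∧ slit u ∧ u - v = (0, -1)) ∨
  (k = 5 ∧ slit u ∧ u - v = (1, -1)) ∨
  (k = -4 ∧ slit u ∧ u - v = (-1, 1)) ∨
  (k = -5 ∧ slit u ∧ u - v = (0, 1))

lemma vsub {u v e : ℤ × ℤ} (h : u - v = e) : v - u = -e := by rw [← h]; ring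

/-- Exit classification. -/
theorem exit_class {c : Par} {n : ℕ} {u v w : ℤ × ℤ} {r : List (ℤ × ℤ)}
    (hP : IsSaw (D c) n (v :: w :: r)) (hadj : Adj u v) (huw : u ≠ w) (hu : ¬ D c u) :
    ExitKind c u v (Tn (u :: v :: w :: r)) := by
  have hv : D c v := by
    obtain ⟨a, b, s, h1, -, h3⟩ := hP.cases
    simp only [List.cons.injEq] at h1
    rw [h1.1]; exact h3
  rcases exit_geom hv hadj hu with hs | ⟨hns, hg⟩
  · -- slit
    obtain ⟨hvo, hT⟩ := exit_slit (D_dom c) hP hadj huw hs
    have hvs := hv.2.1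
    rw [hT]
    unfold ExitKind
    obtain ⟨a, b⟩ := u
    obtain ⟨x, y⟩ := v
    obtain ⟨h1, h2, h3⟩ := hadj
    have hd := dl_mod (z := (x, y)) (z' := (a, b)) (by
        simp only [NZ, o, ne_eq, Prod.mk.injEq] at *; omega) (by
        simp only [NZ, slit] at *; omega) (by simpa using h3)
    have hr := dl_range (x, y) (a, b)
    have hvo' : ¬ (x = 0 ∧ y = 0) := by
      intro h; apply hvo; rw [h.1, h.2]; rfl
    simp only [slit, U, hon, Prod.mk_sub_mk, Prod.mk.injEq] at h1 h2 h3 hs hvs ⊢
    have h3' : (x = a ∧ y = b + 1) ∨ (x = a - 1 ∧ y = b + 1) ∨ (x = a + 1 ∧ y = b - 1) ∨ (x = a ∧ y = b - 1) := by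
      omega
    obtain ⟨hb, ha⟩ := hs
    subst hb
    rcases h3' with ⟨rfl, rfl⟩ | ⟨rfl, rfl⟩ | ⟨rfl, rfl⟩ | ⟨rfl, rfl⟩
    · -- v above, u - v = e4
      right; right; right; right; right; right; right; left
      refine ⟨?_, ⟨rfl, ha⟩, by omega, by omega⟩
      have e1 : sec (x, 0 + 1) = 2 := by unfold sec; split_ifs <;> omega
      have e2 : sec (x, 0) = 3 := by unfold sec; split_ifs <;> omega
      have e3 : S (x, 0 + 1) = 2 := by unfold S; rw [if_pos (by simp), e1]
      have e4 : S (x - x, 0 + 1 - 0) = 1 := by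
        have : ((x - x, 0 + 1 - 0) : ℤ × ℤ) = (0, 1) := by ext <;> simp
        rw [this]; decide
      rw [e1, e2] at hd
      rw [e3, e4]; omega
    · right; right; right; right; right; right; right; right; left
      refine ⟨?_, ⟨rfl, ha⟩, by omega, by omega⟩
      have e1 : sec (a - 1, 0 + 1) = 2 := by unfold sec; split_ifs <;> omega
      have e2 : sec (a, 0) = 3 := by unfold sec; split_ifs <;> omega
      have e3 : S (a - 1, 0 + 1) = 2 := by unfold S; rw [if_pos (by simp), e1]
      have e4 : S (a - 1 - a, 0 + 1 - 0) = 2 := by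
        have : ((a - 1 - a, 0 + 1 - 0) : ℤ × ℤ) = (-1, 1) := by ext <;> simp
        rw [this]; decide
      rw [e1, e2] at hd
      rw [e3, e4]; omega
    · right; right; right; right; right; right; right; right; right; left
      refine ⟨?_, ⟨rfl, ha⟩, by omega, by omega⟩
      have e1 : sec (a + 1, 0 - 1) = 3 := by unfold sec; split_ifs <;> omega
      have e2 : sec (a, 0) = 3 := by unfold sec; split_ifs <;> omega
      have e3 : S (a + 1, 0 - 1) = -3 := by unfold S; rw [if_neg (by simp), e1]; norm_num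
      have e4 : S (a + 1 - a, 0 - 1 - 0) = -1 := by
        have : ((a + 1 - a, 0 - 1 - 0) : ℤ × ℤ) = (1, -1) := by ext <;> simp
        rw [this]; decide
      rw [e1, e2] at hd
      rw [e3, e4]; omega
    · right; right; right; right; right; right; right; right; right; right
      refine ⟨?_, ⟨rfl, ha⟩, by omega, by omega⟩
      have e1 : sec (x, 0 - 1) = 3 := by unfold sec; split_ifs <;> omega
      have e2 : sec (x, 0) = 3 := by unfold sec; split_ifs <;> omega
      have e3 : S (x, 0 - 1) = -3 := by unfold S; rw [if_neg (by simp), e1]; norm_num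
      have e4 : S (x - x, 0 - 1 - 0) = -2 := by
        have : ((x - x, 0 - 1 - 0) : ℤ × ℤ) = (0, -1) := by ext <;> simp
        rw [this]; decide
      rw [e1, e2] at hd
      rw [e3, e4]; omega
  · have hside := fun m hw => exit_side (D_dom c) hP hadj huw hu hns m hw
    have hns' := hns
    unfold ExitKind
    rcases hg with hg | hg | hg | hg | hg | hg | hg
    · left
      refine ⟨?_, hns, hg⟩
      rw [hside 1 (fun x hx => win_F0 (by
        have := hx.2.2.1
        simp only [F0, Prod.fst_sub, Prod.snd_sub] at *; omega)), vsub hg.2]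
      have e1 : sec (-(1, 0)) = 3 := by decide
      rw [e1]
      have h0 := hg.1
      clear hside hg hns hP hadj huw hu hv
      obtain ⟨a, b⟩ := u
      simp only [F0] at h0
      simp only [slit] at hns'
      unfold S sec
      simp only [Prod.fst_neg, Prod.snd_neg]
      split_ifs <;> omega
    · right; left
      refine ⟨?_, hns, hg⟩
      rw [hside 2 (fun x hx => win_F1 (by
        have := hx.2.2.2.1
        simp only [F1, Prod.fst_sub, Prod.snd_sub] at *; omega)), vsub hg.2]
      have e1 : sec (-(0, 1)) = 4 := by decide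
      rw [e1]
      have h0 := hg.1
      clear hside hg hns hP hadj huw hu hv
      obtain ⟨a, b⟩ := u
      simp only [F1] at h0
      simp only [slit] at hns'
      unfold S sec
      simp only [Prod.fst_neg, Prod.snd_neg]
      split_ifs <;> omega
    · right; right; left
      refine ⟨?_, hns, hg⟩
      rw [hside 0 (fun x hx => win_F5 (by
        have := hx.2.2.2.2.1
        simp only [F5, Prod.fst_sub, Prod.snd_sub] at *; omega)), vsub hg.2]
      have e1 : sec (-(1, -1)) = 2 := by decide
      rw [e1]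
      have h0 := hg.1
      clear hside hg hns hP hadj huw hu hv
      obtain ⟨a, b⟩ := u
      simp only [F5] at h0
      simp only [slit] at hns'
      unfold S sec
      simp only [Prod.fst_neg, Prod.snd_neg]
      split_ifs <;> omega
    · right; right; right; left
      refine ⟨?_, hns, hg⟩
      rw [hside 3 (fun x hx => win_F2 (by
        have h5 := hx.2.2.2.2.2.1
        have h6 := hg.1
        have h7 := hg.2.1
        simp only [F2, Prod.fst_sub, Prod.snd_sub] at *
        rcases lt_or_ge x.2 0 with h | h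
        · right; omega
        · left; have := (h5 h).1; omega)), vsub hg.2.2]
      have e1 : sec (-(-1, 1)) = 5 := by decide
      rw [e1]
      have h0 := hg.1
      have h00 := hg.2.1
      clear hside hg hns hP hadj huw hu hv
      obtain ⟨a, b⟩ := u
      simp only [F2] at h0 h00
      simp only [slit] at hns'
      unfold S sec
      simp only [Prod.fst_neg, Prod.snd_neg]
      split_ifs <;> omega
    · right; right; right; right; left
      refine ⟨?_, hns, hg⟩
      rw [hside 3 (fun x hx => win_F3u (by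
        have h5 := hx.2.2.2.2.2.1
        have h6 := hg.1
        have h7 := hg.2.1
        simp only [F3, Prod.fst_sub, Prod.snd_sub] at *
        rcases lt_or_ge x.2 0 with h | h
        · right; omega
        · left; have := (h5 h).2; omega)), vsub hg.2.2]
      have e1 : sec (-(-1, 0)) = 0 := by decide
      rw [e1]
      have h0 := hg.1
      have h00 := hg.2.1
      clear hside hg hns hP hadj huw hu hv
      obtain ⟨a, b⟩ := u
      simp only [F3] at h0 h00
      simp only [slit] at hns'
      unfold S sec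
      simp only [Prod.fst_neg, Prod.snd_neg]
      split_ifs <;> omega
    · right; right; right; right; right; left
      refine ⟨?_, hns, hg⟩
      rw [hside 5 (fun x hx => win_F4 (by
        have h5 := hx.2.2.2.2.2.2
        have h6 := hg.1
        have h7 := hg.2.1
        simp only [F4, Prod.fst_sub, Prod.snd_sub] at *
        rcases lt_or_ge x.2 0 with h | h
        · left; have := (h5 h).1; omega
        · right; omega)), vsub hg.2.2]
      have e1 : sec (-(0, -1)) = 1 := by decide
      rw [e1]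
      have h0 := hg.1
      have h00 := hg.2.1
      clear hside hg hns hP hadj huw hu hv
      obtain ⟨a, b⟩ := u
      simp only [F4] at h0 h00
      simp only [slit] at hns'
      unfold S sec
      simp only [Prod.fst_neg, Prod.snd_neg]
      split_ifs <;> omega
    · right; right; right; right; right; right; left
      refine ⟨?_, hns, hg⟩
      rw [hside 4 (fun x hx => win_F3d (by
        have h5 := hx.2.2.2.2.2.2
        have h6 := hg.1
        have h7 := hg.2.1
        simp only [F3, Prod.fst_sub, Prod.snd_sub] at *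
        rcases lt_or_ge x.2 0 with h | h
        · left; have := (h5 h).2; omega
        · right; omega)), vsub hg.2.2]
      have e1 : sec (-(-1, 0)) = 0 := by decide
      rw [e1]
      have h0 := hg.1
      have h00 := hg.2.1
      clear hside hg hns hP hadj huw hu hv
      obtain ⟨a, b⟩ := u
      simp only [F3] at h0 h00
      simp only [slit] at hns'
      unfold S sec
      simp only [Prod.fst_neg, Prod.snd_neg]
      split_ifs <;> omega

end Pool.Agent.Hhelper14.SAW
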