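import Pool.Agent.Hhelper14.SAW.Walk

/-!
Turning numbers of the walks that leave a hexagonal domain of the slit plane.
-/

namespace Pool.Agent.Hhelper14.SAW

def F0 (z : ℤ × ℤ) : ℤ := 2 * z.1 + z.2
def F1 (z : ℤ × ℤ) : ℤ := z.1 + 2 * z.2
def F2 (z : ℤ × ℤ) : ℤ := z.2 - z.1
def F3 (z : ℤ × ℤ) : ℤ := -2 * z.1 - z.2
def F4 (z : ℤ × ℤ) : ℤ := -z.1 - 2 * z.2
def F5 (z : ℤ × ℤ) : ℤ := z.1 - z.2

/-- Side parameters of a hexagonal domain: `a_k` for the sides above, `b_k` below the slit. -/
structure Par where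
  a0 : ℕ
  a1 : ℕ
  a2 : ℕ
  a3 : ℕ
  b1 : ℕ
  b2 : ℕ
  b3 : ℕ

/-- The hexagonal domain of the slit plane. -/
def D (c : Par) (z : ℤ × ℤ) : Prop :=
  hon z ∧ ¬ slit z ∧ F0 z ≤ 3 * c.a0 + 1 ∧ F1 z ≤ 3 * c.a1 ∧ F5 z ≤ 3 * c.b1 ∧
    (0 ≤ z.2 → F2 z ≤ 3 * c.a2 + 1 ∧ F3 z ≤ 3 * c.a3) ∧
    (z.2 < 0 → F4 z ≤ 3 * c.b2 + 1 ∧ F3 z ≤ 3 * c.b3)

instance (c : Par) : DecidablePred (D c) := fun z => by unfold D; infer_instance

lemma D_dom (c : Par) : Dom (D c) := by
  refine ⟨?_, fun x h => h.1, fun x h => h.2.1⟩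
  unfold D
  refine ⟨by decide, by decide, ?_⟩
  simp only [F0, F1, F5, F2, F3, F4, o]
  omega

/-- Angle seen from `u` when everything is in a window of five sectors. -/
lemma Th_window (m : ℤ) (u : ℤ × ℤ) : ∀ (P : List (ℤ × ℤ)) (h : ℤ × ℤ), UChain (h :: P) →
    (∀ x ∈ h :: P, NZ (x - u) ∧ (sec (x - u) - m) % 6 ≤ 4) →
    Th u (h :: P) = (sec (h - u) - m) % 6 - (sec ((h :: P).getLast (by simp) - u) - m) % 6 := by
  intro P
  induction P with
  | nil => intro h _ _; simp
  | cons x r ih =>
    intro h hc hO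
    have h1 := List.isChain_cons_cons.1 hc
    have := ih x h1.2 (fun y hy => hO y (List.mem_cons_of_mem _ hy))
    rw [Th_cons_cons, this, List.getLast_cons_cons]
    have hx := hO x (by simp)
    have hh := hO h (by simp)
    have hm := dl_mod hx.1 hh.1 (by simpa using h1.1)
    have hr := dl_range (x - u) (h - u)
    omega

/-- The turning of a list is congruent to the sector of its last step. -/
lemma Tn_mod {P : List (ℤ × ℤ)} : ∀ {u v : ℤ × ℤ} {r : List (ℤ × ℤ)}, P = u :: v :: r → HChain P → NB P →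
    (∃ t, P = t ++ [o, o']) → (Tn P - sec (u - v)) % 6 = 0 := by
  induction P with
  | nil => intro u v r h; simp at h
  | cons a P ih =>
    intro u v r h hC hN ht
    simp only [List.cons.injEq] at h
    obtain ⟨rfl, rfl⟩ := h
    cases r with
    | nil =>
      obtain ⟨t, ht⟩ := ht
      have : t = [] := by
        have := congrArg List.length ht
        simp at this
        exact this
      subst this
      simp only [List.nil_append, List.cons.injEq, and_true] at ht
      rw [ht.1, ht.2]
      decide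
    | cons w r =>
      have hC' := (List.isChain_cons_cons.1 hC)
      have hC2 := (List.isChain_cons_cons.1 hC'.2)
      have IH := ih rfl hC'.2 hN.2 (by
        obtain ⟨t, ht⟩ := ht
        cases t with
        | nil => simp at ht
        | cons b t =>
          simp only [List.cons_append, List.cons.injEq] at ht
          exact ⟨t, ht.2⟩)
      have htu := turn_U hC'.1 hC2.1 hN.1
      have := dl_mod hC2.1.2.2.nz hC'.1.2.2.nz htu.1
      rw [Tn_cons_cons_cons]
      omega

/-- Formula for the turning of a candidate whose new vertex is not visited. -/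
lemma exit_formula {p : ℤ × ℤ → Prop} (hp : Dom p) {n : ℕ} {u v w : ℤ × ℤ} {r : List (ℤ × ℤ)}
    (hP : IsSaw p n (v :: w :: r)) (hadj : Adj u v) (huw : u ≠ w) (hu : ¬ p u) :
    ∃ t, v :: w :: r = t ++ [o, o'] ∧ (∀ x ∈ t ++ [o], p x) ∧
      ((t = [] ∧ Tn (u :: v :: w :: r) = S (u - o)) ∨
       (∃ t', t = v :: t' ∧ v ≠ o ∧ Tn (u :: v :: w :: r) = S (v - o) + dl (v - o) (u - o) + Th u (t ++ [o]))) := by
  obtain ⟨hl, hN, hC, t, ht, hpt⟩ := hP
  refine ⟨t, ht, hpt, ?_⟩
  cases t with
  | nil =>
    left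
    refine ⟨rfl, ?_⟩
    simp only [List.nil_append, List.cons.injEq] at ht
    obtain ⟨rfl, rfl, rfl⟩ := ht
    have h1 := hex_nbr hadj adj_o huw
    have h2 : u = (0, 1) ∨ u = (1, -1) := by
      obtain ⟨a, b⟩ := u
      simp only [o, o', L, R, Prod.mk_sub_mk, Prod.mk.injEq] at h1 ⊢
      omega
    rcases h2 with rfl | rfl <;> decide
  | cons a t' =>
    right
    simp only [List.cons_append, List.cons.injEq] at ht
    obtain ⟨rfl, ht⟩ := ht
    have hvo : v ≠ o := by
      rintro rfl
      have h1 := (List.nodup_cons.1 hN).1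
      rw [ht] at h1
      simp at h1
    refine ⟨t', rfl, hvo, ?_⟩
    -- last of v :: t'
    obtain ⟨s, v1, hs⟩ : ∃ s v1, v :: t' = s ++ [v1] :=
      ⟨(v :: t').dropLast, (v :: t').getLast (by simp), (List.dropLast_append_getLast _).symm⟩
    have hQ : u :: v :: w :: r = (u :: s) ++ v1 :: o :: [o'] := by
      rw [ht]
      have : v :: (t' ++ [o, o']) = (v :: t') ++ [o, o'] := rfl
      rw [this, hs]; simp
    have hC0 : HChain (v :: w :: r) := hC
    have hv1o : Adj v1 o := by
      have : v :: w :: r = s ++ v1 :: o :: [o'] := by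
        have := hQ
        simp only [List.cons_append, List.cons.injEq, true_and] at this
        exact this
      rw [this] at hC0
      exact (List.isChain_cons_cons.1 (List.isChain_append.1 hC0).2.1).1
    have hv1o' : v1 ≠ o' := by
      rintro rfl
      have : o' ∈ v :: t' := by rw [hs]; simp
      have h2 := hpt o' (List.mem_append_left _ this)
      exact hp.off _ h2 slit_o'
    have hv1 : v1 = (0, 1) ∨ v1 = (1, -1) := by
      have h1 := hex_nbr hv1o adj_o hv1o'
      clear hs hQ hv1o hv1o'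
      obtain ⟨a, b⟩ := v1
      simp only [o, o', L, R, Prod.mk_sub_mk, Prod.mk.injEq] at h1 ⊢
      omega
    have hS1 : dl (o - o') (v1 - o) = S (v1 - o) := by
      rcases hv1 with rfl | rfl <;> decide
    -- secant
    have hHQ : HChain (u :: ((v :: t') ++ [o])) := by
      have : HChain ((u :: ((v :: t') ++ [o])) ++ [o']) := by
        have h0 : HChain (u :: v :: w :: r) := List.isChain_cons_cons.2 ⟨hadj, hC⟩
        rw [ht] at h0
        simpa using h0
      exact (List.isChain_append.1 this).1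
    have hNQ : (u :: ((v :: t') ++ [o])).Nodup := by
      refine List.nodup_cons.2 ⟨?_, ?_⟩
      · intro hm
        exact hu (hpt u (by simpa using hm))
      · have : (((v :: t') ++ [o]) ++ [o']).Nodup := by
          rw [ht] at hN
          simpa using hN
        exact (List.nodup_append.1 this).1
    have hsec := secant o (v :: t') u (tchain_of hHQ (NB_of_nodup hNQ)) hNQ
    have hTh : Th o (v :: t') = S (v - o) - S (v1 - o) := by
      have hc : UChain (v :: t') := by
        have : HChain ([u] ++ ((v :: t') ++ [o])) := hHQ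
        exact HChain.U (List.isChain_append.1 (List.isChain_append.1 this).2.1).1
      have hoff : ∀ x ∈ v :: t', Off (x - o) := by
        intro x hx
        have h1 : ¬ slit x := hp.off x (hpt x (List.mem_append_left _ hx))
        have h2 : x ≠ o := by
          rintro rfl
          have h3 := (List.nodup_cons.1 hNQ).2
          exact (List.nodup_append.1 h3).2.2 o hx o (by simp) rfl
        have h4 : ¬ (x.1 = 0 ∧ x.2 = 0) := fun h => h2 (Prod.ext h.1 h.2)
        simp only [slit, Off, o, Prod.fst_sub, Prod.snd_sub] at *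
        omega
      have := Th_eq_S o t' v hc hoff
      have hgl : (v :: t').getLast (by simp) = v1 := by
        simp only [hs]; simp
      rw [hgl] at this
      exact this
    rw [hQ, Tn_append]
    have e1 : (u :: s) ++ [v1, o] = u :: ((v :: t') ++ [o]) := by rw [hs]; simp
    rw [e1, hsec, Th_cons_cons, hTh]
    simp only [Tn_cons_cons_cons, Tn_two, zero_add]
    rw [hS1]
    simp only [List.cons_append]
    ring

lemma S_sec_up {z : ℤ × ℤ} (h : 0 ≤ z.2) : S z = sec z := by unfold S; rw [if_pos h]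
lemma S_sec_down {z : ℤ × ℤ} (h : z.2 < 0) : S z = sec z - 6 := by unfold S; rw [if_neg (by omega)]

/-- Which exits are possible, geometrically. -/
lemma exit_geom {c : Par} {u v : ℤ × ℤ} (hv : D c v) (hadj : Adj u v) (hu : ¬ D c u) :
    (slit u) ∨
    (¬ slit u ∧ ((3 * c.a0 + 1 < F0 u ∧ u - v = (1, 0)) ∨
    (3 * c.a1 < F1 u ∧ u - v = (0, 1)) ∨
    (3 * c.b1 < F5 u ∧ u - v = (1, -1)) ∨
    (0 < u.2 ∧ 3 * c.a2 + 1 < F2 u ∧ u - v = (-1, 1)) ∨
    (0 < u.2 ∧ 3 * c.a3 < F3 u ∧ u - v = (-1, 0)) ∨
    (u.2 < 0 ∧ 3 * c.b2 + 1 < F4 u ∧ u - v = (0, -1)) ∨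
    (u.2 < 0 ∧ 3 * c.b3 < F3 u ∧ u - v = (-1, 0)))) := by
  by_cases hs : slit u
  · exact Or.inl hs
  right
  refine ⟨hs, ?_⟩
  by_contra hcon
  simp only [not_or] at hcon
  obtain ⟨n0, n1, n5, n2, n3, n4, n3'⟩ := hcon
  apply hu
  obtain ⟨hu1, hv1, hU⟩ := hadj
  obtain ⟨-, gs, g0, g1, g5, gu, gd⟩ := hv
  have hu1' := hu1
  have hs' := hs
  refine ⟨hu1', hs', ?_⟩
  obtain ⟨a, b⟩ := u
  obtain ⟨x, y⟩ := v
  simp only [U, Prod.mk_sub_mk] at hU
  simp only [hon, slit, F0, F1, F2, F3, F4, F5, Prod.mk_sub_mk, Prod.mk.injEq] at *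
  rcases hU with hU | hU | hU | hU | hU | hU
  · have e1 : a = x + 1 := by omega
    have e2 : b = y := by omega
    subst e1 e2
    clear n1 n5 n2 n4 n3 n3' hs' hu1'
    refine ⟨?_, ?_, ?_, ?_, ?_⟩
    · clear gu gd g1 g5; omega
    · clear gu gd g5; omega
    · clear gu gd g1; omega
    · intro h; have := gu h; clear gu gd; omega
    · intro h; have := gd h; clear gu gd; omega
  · have e1 : a = x := by omega
    have e2 : b = y + 1 := by omega
    subst e1 e2
    clear n0 n5 n2 n4 n3 n3' hs' hu1'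
    refine ⟨?_, ?_, ?_, ?_, ?_⟩
    · clear gu gd g1 g5; omega
    · clear gu gd g5; omega
    · clear gu gd g1; omega
    · intro h
      rcases lt_or_ge y 0 with hy | hy
      · clear gu gd; omega
      · have := gu hy; clear gu gd; omega
    · intro h; have := gd (by omega); clear gu gd; omega
  · have e1 : a = x - 1 := by omega
    have e2 : b = y + 1 := by omega
    subst e1 e2
    clear n0 n5 n1 n4 n3 n3' hs' hu1'
    refine ⟨?_, ?_, ?_, ?_, ?_⟩
    · clear gu gd g1 g5; omega
    · clear gu gd g5; omega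
    · clear gu gd g1; omega
    · intro h
      rcases lt_or_ge y 0 with hy | hy
      · clear gu gd; omega
      · have := gu hy; clear gu gd; omega
    · intro h; have := gd (by omega); clear gu gd; omega
  · have e1 : a = x - 1 := by omega
    have e2 : b = y := by omega
    subst e1 e2
    clear n0 n5 n2 n4 n1 hs' hu1'
    refine ⟨?_, ?_, ?_, ?_, ?_⟩
    · clear gu gd g1 g5; omega
    · clear gu gd g5; omega
    · clear gu gd g1; omega
    · intro h; have := gu h; clear gu gd; omega
    · intro h; have := gd h; clear gu gd; omega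
  · have e1 : a = x := by omega
    have e2 : b = y - 1 := by omega
    subst e1 e2
    clear n0 n5 n2 n1 n3 n3' hs' hu1'
    refine ⟨?_, ?_, ?_, ?_, ?_⟩
    · clear gu gd g1 g5; omega
    · clear gu gd g5; omega
    · clear gu gd g1; omega
    · intro h
      have := gu (by omega); clear gu gd; omega
    · intro h
      rcases lt_or_ge y 0 with hy | hy
      · have := gd hy; clear gu gd; omega
      · have := gu hy; clear gu gd; omega
  · have e1 : a = x + 1 := by omega
    have e2 : b = y - 1 := by omega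
    subst e1 e2
    clear n0 n1 n2 n4 n3 n3' hs' hu1'
    refine ⟨?_, ?_, ?_, ?_, ?_⟩
    · clear gu gd g1 g5; omega
    · clear gu gd g5; omega
    · clear gu gd g1; omega
    · intro h
      have := gu (by omega); clear gu gd; omega
    · intro h
      rcases lt_or_ge y 0 with hy | hy
      · have := gd hy; clear gu gd; omega
      · have := gu hy; clear gu gd; omega

end Pool.Agent.Hhelper14.SAW
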