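import Pool.Agent.Hhelper14.SAW.Sector

/-!
The honeycomb lattice inside the triangular lattice, lifted angles in the plane slit along the negative
axis, and the total turning of a loop.
-/

namespace Pool.Agent.Hhelper14.SAW

/-- Honeycomb vertices. -/
def hon (z : ℤ × ℤ) : Prop := (z.1 - z.2) % 3 ≠ 1

instance (z : ℤ × ℤ) : Decidable (hon z) := by unfold hon; infer_instance

/-- Rotation by 60 degrees. -/
def L (z : ℤ × ℤ) : ℤ × ℤ := (-z.2, z.1 + z.2)
/-- Rotation by -60 degrees. -/
def R (z : ℤ × ℤ) : ℤ × ℤ := (z.1 + z.2, -z.1)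

/-- Lattice adjacency. -/
def Adj (x y : ℤ × ℤ) : Prop := hon x ∧ hon y ∧ U (x - y)

lemma Adj.symm {x y : ℤ × ℤ} (h : Adj x y) : Adj y x := ⟨h.2.1, h.1, h.2.2.symm⟩

lemma U.L {z : ℤ × ℤ} (h : U z) : U (L z) := by
  simp only [U, SAW.L] at *; omega
lemma U.R {z : ℤ × ℤ} (h : U z) : U (R z) := by
  simp only [U, SAW.R] at *; omega

lemma hex_nbr {u v w : ℤ × ℤ} (hu : Adj u v) (hv : Adj v w) (hne : u ≠ w) :
    u - v = L (v - w) ∨ u - v = R (v - w) := by
  obtain ⟨a, b⟩ := u
  obtain ⟨c, e⟩ := v
  obtain ⟨f, g⟩ := w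
  obtain ⟨h1, h2, h3⟩ := hu
  obtain ⟨-, h5, h6⟩ := hv
  simp only [hon, U, L, R, Prod.mk_sub_mk, Prod.mk.injEq, ne_eq] at *
  rcases h3 with h3 | h3 | h3 | h3 | h3 | h3 <;> rcases h6 with h6 | h6 | h6 | h6 | h6 | h6 <;> omega

lemma turn_U {u v w : ℤ × ℤ} (hu : Adj u v) (hv : Adj v w) (hne : u ≠ w) :
    U ((u - v) - (v - w)) ∧ NZ ((u - v) + (v - w)) := by
  have hw := hv.2.2
  rcases hex_nbr hu hv hne with h | h
  · rw [h]
    generalize v - w = z at hw
    obtain ⟨a, b⟩ := z
    simp only [U, NZ, L, Prod.mk_sub_mk, Prod.mk_add_mk] at *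
    rcases hw with h3 | h3 | h3 | h3 | h3 | h3 <;> omega
  · rw [h]
    generalize v - w = z at hw
    obtain ⟨a, b⟩ := z
    simp only [U, NZ, R, Prod.mk_sub_mk, Prod.mk_add_mk] at *
    rcases hw with h3 | h3 | h3 | h3 | h3 | h3 <;> omega

/-- Chain of lattice neighbours. -/
abbrev HChain (P : List (ℤ × ℤ)) : Prop := P.IsChain Adj

lemma HChain.U {P : List (ℤ × ℤ)} (h : HChain P) : UChain P :=
  List.IsChain.imp (fun _ _ hh => hh.2.2) h

/-- No immediate reversal. -/
def NB : List (ℤ × ℤ) → Prop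
  | u :: v :: w :: r => u ≠ w ∧ NB (v :: w :: r)
  | _ => True

lemma NB_of_nodup : ∀ {P : List (ℤ × ℤ)}, P.Nodup → NB P
  | [], _ => trivial
  | [_], _ => trivial
  | [_, _], _ => trivial
  | u :: v :: w :: r, h => by
    refine ⟨?_, NB_of_nodup (List.nodup_cons.1 h).2⟩
    rintro rfl
    simp at h

lemma tchain_of : ∀ {P : List (ℤ × ℤ)}, HChain P → NB P → TChain P
  | [], _, _ => trivial
  | [_], _, _ => trivial
  | [x, y], h, _ => by
    have := (List.isChain_cons_cons.1 h).1
    exact this.2.2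
  | u :: v :: w :: r, h, hn => by
    have h1 := List.isChain_cons_cons.1 h
    have h2 := List.isChain_cons_cons.1 h1.2
    have h3 := turn_U h1.1 h2.1 hn.1
    exact ⟨h1.1.2.2, h3.1, h3.2, tchain_of h1.2 hn.2⟩

/-- The lifted sector in the plane slit along the negative axis. -/
def S (z : ℤ × ℤ) : ℤ := if 0 ≤ z.2 then sec z else sec z - 6

/-- Off the closed negative axis. -/
def Off (z : ℤ × ℤ) : Prop := ¬ (z.2 = 0 ∧ z.1 ≤ 0)

lemma Off.nz {z : ℤ × ℤ} (h : Off z) : NZ z := by
  simp only [Off, NZ] at *; omega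

lemma S_up {z : ℤ × ℤ} (h : 0 ≤ z.2) (hz : NZ z) : 0 ≤ S z ∧ S z ≤ 3 := by
  obtain ⟨a, b⟩ := z
  simp only [NZ] at *
  unfold S sec
  split_ifs <;> omega

lemma S_down {z : ℤ × ℤ} (h : z.2 < 0) : -3 ≤ S z ∧ S z ≤ -1 := by
  obtain ⟨a, b⟩ := z
  simp only at *
  unfold S sec
  split_ifs <;> omega

lemma S_mod (z : ℤ × ℤ) : (S z - sec z) % 6 = 0 := by
  unfold S; split_ifs <;> omega

lemma S_right {z : ℤ × ℤ} (h : z.2 = 0) (h' : 0 < z.1) : S z = 0 := by
  unfold S sec
  rw [if_pos h.ge, if_pos ⟨h', h.ge⟩]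

lemma S_right' {z : ℤ × ℤ} (h : z.2 = -1) (h' : 0 < z.1) : S z = -1 := by
  unfold S sec
  split_ifs <;> omega

lemma S_step {z z' : ℤ × ℤ} (hz : Off z) (hz' : Off z') (h : U (z' - z)) :
    -1 ≤ S z' - S z ∧ S z' - S z ≤ 1 := by
  have h1 := sec_step hz.nz hz'.nz h
  have m1 := S_mod z
  have m2 := S_mod z'
  rcases lt_or_ge z.2 0 with hb | hb <;> rcases lt_or_ge z'.2 0 with hb' | hb'
  · have := S_down hb
    have := S_down hb'
    omega
  · -- z below, z' on the axis
    have e : z'.2 = 0 ∧ z.2 = -1 ∧ (z'.1 = z.1 ∨ z'.1 = z.1 - 1) := by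
      simp only [U, Prod.fst_sub, Prod.snd_sub] at h
      rcases h with h | h | h | h | h | h <;> omega
    have e2 : 0 < z'.1 := by
      simp only [Off] at hz'
      omega
    rw [S_right e.1 e2, S_right' e.2.1 (by omega)]
    omega
  · have e : z.2 = 0 ∧ z'.2 = -1 ∧ (z.1 = z'.1 ∨ z.1 = z'.1 - 1) := by
      simp only [U, Prod.fst_sub, Prod.snd_sub] at h
      rcases h with h | h | h | h | h | h <;> omega
    have e2 : 0 < z.1 := by
      simp only [Off] at hz
      omega
    rw [S_right e.1 e2, S_right' e.2.1 (by omega)]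
    omega
  · have := S_up hb hz.nz
    have := S_up hb' hz'.nz
    omega

lemma dl_eq_S {z z' : ℤ × ℤ} (hz : Off z) (hz' : Off z') (h : U (z' - z)) :
    dl z z' = S z' - S z := by
  have hs := S_step hz hz' h
  refine dl_eq_of hz.nz hz'.nz h ?_ hs.1 hs.2
  unfold S; split_ifs <;> omega

lemma Th_eq_S (p : ℤ × ℤ) : ∀ (P : List (ℤ × ℤ)) (h : ℤ × ℤ), UChain (h :: P) →
    (∀ x ∈ h :: P, Off (x - p)) →
    Th p (h :: P) = S (h - p) - S ((h :: P).getLast (by simp) - p) := by
  intro P
  induction P with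
  | nil => intro h _ _; simp
  | cons x r ih =>
    intro h hc hO
    have h1 := List.isChain_cons_cons.1 hc
    have := ih x h1.2 (fun y hy => hO y (List.mem_cons_of_mem _ hy))
    rw [Th_cons_cons, this, List.getLast_cons_cons,
      dl_eq_S (hO x (by simp)) (hO h (by simp)) (by simpa using h1.1)]
    ring

lemma Th_concat (p a b : ℤ × ℤ) (X : List (ℤ × ℤ)) :
    Th p (X ++ [a, b]) = Th p (X ++ [a]) + dl (b - p) (a - p) := by
  have := Th_append p a b X []
  simpa using this

/-- Turning of a loop. -/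
lemma loopK {u h x : ℤ × ℤ} {r : List (ℤ × ℤ)} (hT : TChain (u :: h :: (x :: r ++ [u])))
    (hN : (h :: (x :: r ++ [u])).Nodup) :
    Tn (u :: h :: (x :: r ++ [u])) =
      2 * Th u (h :: x :: r) +
        dl ((x :: r).getLast (by simp) - h) ((x :: r).getLast (by simp) - u) +
        dl (u - h) ((x :: r).getLast (by simp) - h) := by
  set a := (x :: r).getLast (by simp) with ha
  have hdl : x :: r = (x :: r).dropLast ++ [a] := by rw [ha]; exact (List.dropLast_append_getLast _).symm
  have hT2 : TChain (h :: (x :: r ++ [u])) := hT.tail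
  have hs := secant u (x :: r) h hT2 hN
  -- expand Th h ((x::r) ++ [u])
  have e1 : Th h (x :: r ++ [u]) = Th h (x :: r) + dl (u - h) (a - h) := by
    have : x :: r ++ [u] = (x :: r).dropLast ++ [a, u] := by
      conv_lhs => rw [hdl]
      simp
    rw [this, Th_concat, ← hdl]
  obtain ⟨hU1, hU2, hU3, hT3⟩ := hT
  have hch : UChain (x :: r) := by
    have h5 : UChain (x :: (r ++ [u])) := hT3.tail.chain
    exact (List.isChain_append.1 (show List.IsChain (fun x y => U (x - y)) ((x :: r) ++ [u]) from h5)).1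
  have hux : h ∉ x :: r := by
    intro hm
    have := (List.nodup_cons.1 hN).1
    exact this (List.mem_append_left _ hm)
  have huu : u ∉ x :: r := by
    intro hm
    have h6 := (List.nodup_cons.1 hN).2
    have := List.nodup_append.1 h6
    exact this.2.2 u hm u (by simp) rfl
  have cv := Th_change (p := h) (q := u) hU1.symm r x hch hux huu
  rw [← ha] at cv
  have hhx : U (h - x) := (List.isChain_cons_cons.1 hT3.chain).1
  have hxh : x ≠ h := fun e => hux (by simp [e])
  have hxu : x ≠ u := fun e => huu (by simp [e])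
  -- the turn at h
  have ht := dl_turn (e := h - x) (f := u - h) hhx hU1 (by
    have : (h - x) + (u - h) = (u - h) + (h - x) := by ring
    rw [this]; exact hU3) hU2
  have e2 : (h - x) + (u - h) = u - x := by ring
  rw [e2] at ht
  have n1 : dl (x - h) (x - u) = dl (h - x) (u - x) := by
    have := dl_neg (z := h - x) (z' := u - x) (nz_of_ne hxh.symm) (nz_of_ne hxu.symm) (by simpa using hU1)
    have e3 : -(h - x) = x - h := by ring
    have e4 : -(u - x) = x - u := by ring
    rwa [e3, e4] at this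
  have hhu : h ≠ u := by
    intro e
    have := (List.nodup_cons.1 hN).1
    exact this (by simp [e])
  have n2 : dl (x - u) (h - u) = dl (u - x) (u - h) := by
    have := dl_neg (z := u - x) (z' := u - h) (nz_of_ne hxu.symm) (nz_of_ne hhu.symm) (by
      have : (u - h) - (u - x) = -(h - x) := by ring
      rw [this]; exact hhx.neg)
    have e3 : -(u - x) = x - u := by ring
    have e4 : -(u - h) = h - u := by ring
    rwa [e3, e4] at this
  have hlist : h :: (x :: r ++ [u]) = h :: x :: (r ++ [u]) := rfl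
  rw [hlist, Tn_cons_cons_cons, ← hlist, hs, e1]
  rw [Th_cons_cons u h x r]
  rw [n2]
  rw [n1] at cv
  linarith

/-- The closed loop seen from a point. -/
lemma closed_Th {u h x : ℤ × ℤ} {r : List (ℤ × ℤ)} (p : ℤ × ℤ) :
    Th p (u :: h :: (x :: r ++ [u])) = Th p (h :: x :: r) +
      dl (u - p) ((x :: r).getLast (by simp) - p) + dl (h - p) (u - p) := by
  set a := (x :: r).getLast (by simp) with ha
  have hdl : x :: r = (x :: r).dropLast ++ [a] := by rw [ha]; exact (List.dropLast_append_getLast _).symm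
  rw [Th_cons_cons]
  have e1 : Th p (h :: (x :: r ++ [u])) = Th p (h :: x :: r) + dl (u - p) (a - p) := by
    have : h :: (x :: r ++ [u]) = (h :: (x :: r).dropLast) ++ [a, u] := by
      conv_lhs => rw [hdl]
      simp
    rw [this, Th_concat]
    have h2 : (h :: (x :: r).dropLast) ++ [a] = h :: x :: r := by
      rw [List.cons_append, ← hdl]
    rw [h2]
  rw [e1]

/-- Moving the viewpoint along a chain avoiding the closed loop. -/
lemma closed_move {C : List (ℤ × ℤ)} {u : ℤ × ℤ} (hC : UChain (u :: C))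
    (hlast : (u :: C).getLast (by simp) = u) :
    ∀ (W : List (ℤ × ℤ)) (p : ℤ × ℤ), UChain (p :: W) → (∀ q ∈ p :: W, q ∉ u :: C) →
    Th p (u :: C) = Th ((p :: W).getLast (by simp)) (u :: C) := by
  intro W
  induction W with
  | nil => intro p _ _; simp
  | cons q W ih =>
    intro p hc hW
    have h1 := List.isChain_cons_cons.1 hc
    rw [List.getLast_cons_cons, ← ih q h1.2 (fun y hy => hW y (List.mem_cons_of_mem _ hy))]
    have := Th_change (p := p) (q := q) h1.1 C u hC (hW p (by simp)) (hW q (by simp))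
    rw [hlast] at this
    linarith

lemma loop_arith {e f g : ℤ × ℤ} (he : U e) (hfg : (f = L e ∧ g = R e) ∨ (f = R e ∧ g = L e)) :
    dl e f + (2 * (dl f (f + e) - dl g (g + e) - dl e (f + e) - dl (g + e) e) + dl (f - g) f +
      dl (-g) (f - g)) = -4 * dl e f := by
  have he' : e = (1,0) ∨ e = (0,1) ∨ e = (-1,1) ∨ e = (-1,0) ∨ e = (0,-1) ∨ e = (1,-1) := by
    obtain ⟨a, b⟩ := e
    simpa [U] using he
  rcases he' with rfl | rfl | rfl | rfl | rfl | rfl <;> rcases hfg with ⟨rfl, rfl⟩ | ⟨rfl, rfl⟩ <;> decide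

lemma dl_LR {e : ℤ × ℤ} (he : U e) : dl e (L e) = 1 ∧ dl e (R e) = -1 := by
  have he' : e = (1,0) ∨ e = (0,1) ∨ e = (-1,1) ∨ e = (-1,0) ∨ e = (0,-1) ∨ e = (1,-1) := by
    obtain ⟨a, b⟩ := e
    simpa [U] using he
  rcases he' with rfl | rfl | rfl | rfl | rfl | rfl <;> decide

/-- The turning of a walk that closes a loop at `u` (arriving first from `p`). Everything stays off the
slit with tip `o'`. -/
lemma self_hit {u h x p : ℤ × ℤ} {r rest : List (ℤ × ℤ)} (o' : ℤ × ℤ)
    (hH : HChain (u :: h :: (x :: r ++ u :: p :: rest)))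
    (hN : (h :: (x :: r ++ u :: p :: rest)).Nodup)
    (hlast : (p :: rest).getLast (by simp) = o')
    (hoff : ∀ y ∈ u :: h :: x :: r, Off (y - o')) :
    Tn (u :: h :: (x :: r ++ u :: p :: rest)) = Tn (u :: p :: rest) -
      4 * dl (u - p) ((x :: r).getLast (by simp) - u) := by
  set a := (x :: r).getLast (by simp) with ha
  have hdl : x :: r = (x :: r).dropLast ++ [a] := by rw [ha]; exact (List.dropLast_append_getLast _).symm
  have ha_mem : a ∈ x :: r := by rw [ha]; exact List.getLast_mem _
  -- decompose the chain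
  have hsplit : u :: h :: (x :: r ++ u :: p :: rest) =
      (u :: h :: (x :: r).dropLast) ++ a :: u :: (p :: rest) := by
    conv_lhs => rw [hdl]
    simp
  have hloop : u :: h :: (x :: r ++ [u]) = (u :: h :: (x :: r).dropLast) ++ [a, u] := by
    conv_lhs => rw [hdl]
    simp
  have hH1 : HChain (u :: h :: (x :: r ++ [u])) := by
    have : HChain ((u :: h :: (x :: r ++ [u])) ++ (p :: rest)) := by simpa using hH
    exact (List.isChain_append.1 this).1
  have hH2 : HChain (a :: u :: p :: rest) := by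
    rw [hsplit] at hH
    exact (List.isChain_append.1 hH).2.1
  have hNl : (h :: (x :: r ++ [u])).Nodup := by
    have : ((h :: (x :: r ++ [u])) ++ (p :: rest)).Nodup := by simpa using hN
    exact (List.nodup_append.1 this).1
  have hau := (List.isChain_cons_cons.1 hH2).1
  have hup := (List.isChain_cons_cons.1 (List.isChain_cons_cons.1 hH2).2).1
  have huh := (List.isChain_cons_cons.1 hH1).1
  have hdisj : ∀ y ∈ h :: (x :: r ++ [u]), ∀ z ∈ p :: rest, y ≠ z := by
    have : ((h :: (x :: r ++ [u])) ++ (p :: rest)).Nodup := by simpa using hN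
    have h3 := (List.nodup_append.1 this).2.2
    intro y hy z hz
    exact h3 y hy z hz
  have hap : a ≠ p := hdisj a (by
    refine List.mem_cons_of_mem _ (List.mem_append_left _ ha_mem)) p (by simp)
  have hhp : h ≠ p := hdisj h (by simp) p (by simp)
  have hha : h ≠ a := by
    intro e
    have := (List.nodup_cons.1 hNl).1
    exact this (by rw [e]; exact List.mem_append_left _ ha_mem)
  have hhu : h ≠ u := by
    intro e
    have := (List.nodup_cons.1 hNl).1
    exact this (by rw [e]; simp)
  have hNB : NB (u :: h :: (x :: r ++ [u])) := by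
    refine ⟨?_, NB_of_nodup hNl⟩
    intro e
    have h6 := (List.nodup_cons.1 hNl).2
    have := List.nodup_append.1 h6
    exact this.2.2 x (by simp) u (by simp) e.symm
  have hT : TChain (u :: h :: (x :: r ++ [u])) := tchain_of hH1 hNB
  have hK := loopK hT hNl
  rw [← ha] at hK
  -- total
  rw [hsplit, Tn_append, ← hloop, hK, Tn_cons_cons_cons]
  -- directions
  have f1 := hex_nbr hau hup hap
  have g1 := hex_nbr huh.symm hup hhp
  have hne : a - u ≠ h - u := fun e => hha (by
    have := congrArg (· + u) e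
    simpa using this.symm)
  -- view from p
  have hchl : UChain (h :: x :: r) := by
    have h7 : HChain (h :: x :: (r ++ [u])) := (List.isChain_cons_cons.1 hH1).2
    have h8 : HChain ((h :: x :: r) ++ [u]) := by simpa using h7
    exact HChain.U (List.isChain_append.1 h8).1
  have hp_not : p ∉ h :: x :: r := by
    intro hm
    exact hdisj p (by
      rcases List.mem_cons.1 hm with e | hm
      · rw [e]; simp
      · exact List.mem_cons_of_mem _ (List.mem_append_left _ hm)) p (by simp) rfl
  have hu_not : u ∉ h :: x :: r := by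
    intro hm
    have h8 : ((h :: x :: r) ++ [u]).Nodup := by simpa using hNl
    exact (List.nodup_append.1 h8).2.2 u hm u (by simp) rfl
  have cv := Th_change (p := u) (q := p) hup.2.2 (x :: r) h hchl hu_not hp_not
  rw [List.getLast_cons_cons, ← ha] at cv
  -- closed loop
  have hCchain : UChain (u :: (h :: (x :: r ++ [u]))) := HChain.U hH1
  have hClast : (u :: (h :: (x :: r ++ [u]))).getLast (by simp) = u := by simp
  have hWchain : UChain (p :: rest) := HChain.U (List.isChain_cons_cons.1 (List.isChain_cons_cons.1 hH2).2).2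
  have hWnot : ∀ q ∈ p :: rest, q ∉ u :: (h :: (x :: r ++ [u])) := by
    intro q hq hm
    rcases List.mem_cons.1 hm with e | hm
    · exact hdisj u (by simp) q hq e.symm
    · exact hdisj q hm q hq rfl
  have mv := closed_move hCchain hClast rest p hWchain hWnot
  rw [hlast] at mv
  have hz : Th o' (u :: (h :: (x :: r ++ [u]))) = 0 := by
    have := Th_eq_S o' (h :: (x :: r ++ [u])) u hCchain (by
      intro y hy
      apply hoff
      simp only [List.mem_cons, List.mem_append, List.not_mem_nil, or_false] at hy ⊢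
      tauto)
    rw [this, hClast]; ring
  rw [hz, closed_Th, ← ha] at mv
  -- arithmetic
  have hfg : (a - u = L (u - p) ∧ h - u = R (u - p)) ∨ (a - u = R (u - p) ∧ h - u = L (u - p)) := by
    rcases f1 with f1 | f1 <;> rcases g1 with g1 | g1
    · exact absurd (f1.trans g1.symm) hne
    · exact Or.inl ⟨f1, g1⟩
    · exact Or.inr ⟨f1, g1⟩
    · exact absurd (f1.trans g1.symm) hne
  have ar := loop_arith hup.2.2 hfg
  have r1 : (a - u) + (u - p) = a - p := by ring
  have r2 : (h - u) + (u - p) = h - p := by ring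
  have r3 : (a - u) - (h - u) = a - h := by ring
  have r4 : -(h - u) = u - h := by ring
  rw [r1, r2, r3, r4] at ar
  linarith

end Pool.Agent.Hhelper14.SAW
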