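import Mathlib

/-!
Discrete angles on the triangular lattice `ℤ[ω]`, `ω = exp(iπ/3)`, with points `a + b ω` written `(a, b)`.
The sector of a nonzero point is the index of the half-open 60 degree sector containing it, and `dl z z'` is
the signed change of sector between two nonzero points at distance one.
-/

namespace Pool.Agent.Hhelper14.SAW

/-- The six unit vectors. -/
def U (z : ℤ × ℤ) : Prop :=
  (z.1 = 1 ∧ z.2 = 0) ∨ (z.1 = 0 ∧ z.2 = 1) ∨ (z.1 = -1 ∧ z.2 = 1) ∨
  (z.1 = -1 ∧ z.2 = 0) ∨ (z.1 = 0 ∧ z.2 = -1) ∨ (z.1 = 1 ∧ z.2 = -1)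

instance (z : ℤ × ℤ) : Decidable (U z) := by unfold U; infer_instance

/-- Sector of a nonzero point. -/
def sec (z : ℤ × ℤ) : ℤ :=
  if 0 < z.1 ∧ 0 ≤ z.2 then 0
  else if z.1 ≤ 0 ∧ 0 < z.1 + z.2 then 1
  else if 0 < z.2 then 2
  else if z.1 < 0 then 3
  else if z.1 + z.2 < 0 then 4
  else 5

/-- Nonzero. -/
def NZ (z : ℤ × ℤ) : Prop := z.1 ≠ 0 ∨ z.2 ≠ 0

/-- Signed sector change between two nonzero points at distance one. -/
def dl (z z' : ℤ × ℤ) : ℤ :=
  if sec z' = sec z then 0 else if (sec z' - sec z) % 6 = 1 then 1 else -1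

lemma U.neg {z : ℤ × ℤ} (h : U z) : U (-z) := by
  simp only [U, Prod.fst_neg, Prod.snd_neg] at *
  omega

lemma U.symm {z w : ℤ × ℤ} (h : U (z - w)) : U (w - z) := by
  simp only [U, Prod.fst_sub, Prod.snd_sub] at *
  omega

lemma U.nz {z : ℤ × ℤ} (h : U z) : NZ z := by
  simp only [U, NZ] at *
  omega

lemma nz_of_ne {z w : ℤ × ℤ} (h : z ≠ w) : NZ (z - w) := by
  by_contra hc
  apply h
  simp only [NZ, Prod.fst_sub, Prod.snd_sub, not_or, not_not] at hc
  ext <;> omega

lemma NZ.ne {z w : ℤ × ℤ} (h : NZ (z - w)) : z ≠ w := by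
  rintro rfl
  simp [NZ] at h

lemma sec_nonneg (z : ℤ × ℤ) : 0 ≤ sec z := by unfold sec; split_ifs <;> omega
lemma sec_lt (z : ℤ × ℤ) : sec z < 6 := by unfold sec; split_ifs <;> omega

lemma sec_step {z z' : ℤ × ℤ} (hz : NZ z) (hz' : NZ z') (h : U (z' - z)) :
    (sec z' - sec z) % 6 = 0 ∨ (sec z' - sec z) % 6 = 1 ∨ (sec z' - sec z) % 6 = 5 := by
  obtain ⟨a, b⟩ := z
  obtain ⟨c, e⟩ := z'
  simp only [U, NZ, Prod.fst_sub, Prod.snd_sub] at *
  unfold sec
  split_ifs <;> omega

lemma dl_range (z z' : ℤ × ℤ) : -1 ≤ dl z z' ∧ dl z z' ≤ 1 := by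
  unfold dl; split_ifs <;> omega

lemma dl_mod {z z' : ℤ × ℤ} (hz : NZ z) (hz' : NZ z') (h : U (z' - z)) :
    (dl z z' - (sec z' - sec z)) % 6 = 0 := by
  have h1 := sec_step hz hz' h
  have h2 := sec_nonneg z
  have h3 := sec_nonneg z'
  have h4 := sec_lt z
  have h5 := sec_lt z'
  unfold dl
  split_ifs <;> omega

lemma dl_eq_of {z z' : ℤ × ℤ} (hz : NZ z) (hz' : NZ z') (h : U (z' - z)) {m : ℤ}
    (hm : (m - (sec z' - sec z)) % 6 = 0) (hm1 : -1 ≤ m) (hm2 : m ≤ 1) : dl z z' = m := by
  have h1 := dl_mod hz hz' h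
  have h2 := dl_range z z'
  omega

lemma dl_symm {z z' : ℤ × ℤ} (hz : NZ z) (hz' : NZ z') (h : U (z' - z)) :
    dl z' z = - dl z z' := by
  have h1 := dl_mod hz hz' h
  have h2 := dl_range z z'
  exact dl_eq_of hz' hz h.symm (by omega) (by omega) (by omega)

/-- The square lemma. -/
lemma dl_square {z1 z2 z3 z4 : ℤ × ℤ} (h1 : NZ z1) (h2 : NZ z2) (h3 : NZ z3) (h4 : NZ z4)
    (h12 : U (z2 - z1)) (h23 : U (z3 - z2)) (h34 : U (z4 - z3)) (h41 : U (z4 - z1)) :
    dl z1 z2 + dl z2 z3 + dl z3 z4 = dl z1 z4 := by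
  have a1 := dl_mod h1 h2 h12
  have a2 := dl_mod h2 h3 h23
  have a3 := dl_mod h3 h4 h34
  have a4 := dl_mod h1 h4 h41
  have b1 := dl_range z1 z2
  have b2 := dl_range z2 z3
  have b3 := dl_range z3 z4
  have b4 := dl_range z1 z4
  omega

lemma sec_neg {z : ℤ × ℤ} (hz : NZ z) : (sec (-z) - sec z) % 6 = 3 := by
  obtain ⟨a, b⟩ := z
  simp only [NZ] at *
  unfold sec
  simp only [Prod.fst_neg, Prod.snd_neg]
  split_ifs <;> omega

lemma dl_neg {z z' : ℤ × ℤ} (hz : NZ z) (hz' : NZ z') (h : U (z' - z)) :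
    dl (-z) (-z') = dl z z' := by
  have h1 := dl_mod hz hz' h
  have h2 := dl_range z z'
  have h3 := sec_neg hz
  have h4 := sec_neg hz'
  refine dl_eq_of ?_ ?_ ?_ (by omega) (by omega) (by omega)
  · simp only [NZ, Prod.fst_neg, Prod.snd_neg] at *; omega
  · simp only [NZ, Prod.fst_neg, Prod.snd_neg] at *; omega
  · have : (-z' - -z) = -(z' - z) := by ring
    rw [this]; exact h.neg

/-- Total angle change of the list `P = [x_N, ..., x_0]` (latest first) seen from `p`. -/
def Th (p : ℤ × ℤ) : List (ℤ × ℤ) → ℤ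
  | y :: x :: r => Th p (x :: r) + dl (x - p) (y - p)
  | _ => 0

@[simp] lemma Th_nil (p : ℤ × ℤ) : Th p [] = 0 := rfl
@[simp] lemma Th_single (p x : ℤ × ℤ) : Th p [x] = 0 := rfl
@[simp] lemma Th_cons_cons (p y x : ℤ × ℤ) (r : List (ℤ × ℤ)) :
    Th p (y :: x :: r) = Th p (x :: r) + dl (x - p) (y - p) := rfl

/-- Total turning of the list. -/
def Tn : List (ℤ × ℤ) → ℤ
  | u :: v :: w :: r => Tn (v :: w :: r) + dl (v - w) (u - v)
  | _ => 0

@[simp] lemma Tn_nil : Tn [] = 0 := rfl
@[simp] lemma Tn_single (x : ℤ × ℤ) : Tn [x] = 0 := rfl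
@[simp] lemma Tn_two (x y : ℤ × ℤ) : Tn [x, y] = 0 := rfl
@[simp] lemma Tn_cons_cons_cons (u v w : ℤ × ℤ) (r : List (ℤ × ℤ)) :
    Tn (u :: v :: w :: r) = Tn (v :: w :: r) + dl (v - w) (u - v) := rfl

lemma Th_append (p a b : ℤ × ℤ) : ∀ (X : List (ℤ × ℤ)) (Y : List (ℤ × ℤ)),
    Th p (X ++ a :: b :: Y) = Th p (X ++ [a]) + dl (b - p) (a - p) + Th p (b :: Y)
  | [], Y => by simp; ring
  | [x], Y => by simp; ring
  | x :: y :: X, Y => by
    have := Th_append p a b (y :: X) Y
    simp only [List.cons_append, Th_cons_cons] at *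
    rw [this]; ring

lemma Tn_append (a b : ℤ × ℤ) : ∀ (X : List (ℤ × ℤ)) (Y : List (ℤ × ℤ)),
    Tn (X ++ a :: b :: Y) = Tn (X ++ [a, b]) + Tn (a :: b :: Y)
  | [], Y => by simp
  | [x], Y => by simp; ring
  | x :: y :: X, Y => by
    have := Tn_append a b (y :: X) Y
    cases X with
    | nil => simp at *; rw [this]; ring
    | cons z X =>
      simp only [List.cons_append, Tn_cons_cons_cons] at *
      rw [this]; ring

/-- Unit steps. -/
abbrev UChain (P : List (ℤ × ℤ)) : Prop := P.IsChain (fun x y => U (x - y))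

/-- Change of viewpoint. -/
lemma Th_change {p q : ℤ × ℤ} (hpq : U (p - q)) :
    ∀ (P : List (ℤ × ℤ)) (h : ℤ × ℤ), UChain (h :: P) → p ∉ h :: P → q ∉ h :: P →
    Th p (h :: P) + dl (h - p) (h - q) =
      dl ((h :: P).getLast (by simp) - p) ((h :: P).getLast (by simp) - q) + Th q (h :: P) := by
  intro P
  induction P with
  | nil => intro h _ _ _; simp
  | cons x r ih =>
    intro h hc hp hq
    have hc' : UChain (x :: r) := hc.tail
    have hx := ih x hc' (fun hm => hp (List.mem_cons_of_mem _ hm)) (fun hm => hq (List.mem_cons_of_mem _ hm))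
    have hux : U (h - x) := by
      have := List.isChain_cons_cons.1 hc
      exact this.1
    have e1 : NZ (x - p) := nz_of_ne (fun e => hp (by simp [e]))
    have e2 : NZ (h - p) := nz_of_ne (fun e => hp (by simp [e]))
    have e3 : NZ (h - q) := nz_of_ne (fun e => hq (by simp [e]))
    have e4 : NZ (x - q) := nz_of_ne (fun e => hq (by simp [e]))
    have u1 : U ((h - p) - (x - p)) := by simpa using hux
    have u2 : U ((h - q) - (h - p)) := by simpa using hpq
    have u3 : U ((x - q) - (h - q)) := by simpa using hux.symm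
    have u4 : U ((x - q) - (x - p)) := by simpa using hpq
    have sq := dl_square e1 e2 e3 e4 u1 u2 u3 u4
    have sy := dl_symm e4 e3 (by simpa using hux)
    rw [Th_cons_cons, Th_cons_cons, List.getLast_cons_cons]
    linarith

/-- The turn lemma: a turn by 60 degrees can be read off in two steps. -/
lemma dl_turn {e f : ℤ × ℤ} (he : U e) (hf : U f) (hef : NZ (e + f)) (hne : U (f - e)) :
    dl e (e + f) + dl (e + f) f = dl e f := by
  have a1 := dl_mod he.nz hef (by simpa using hf)
  have u2 : U (f - (e + f)) := by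
    have h0 : f - (e + f) = -e := by ring
    rw [h0]; exact he.neg
  have a2 := dl_mod hef hf.nz u2
  have a3 := dl_mod he.nz hf.nz hne
  have b1 := dl_range e (e + f)
  have b2 := dl_range (e + f) f
  have b3 := dl_range e f
  omega

/-- Non-backtracking 60 degree turns along the list. -/
def TChain : List (ℤ × ℤ) → Prop
  | u :: v :: w :: r => U (u - v) ∧ U ((u - v) - (v - w)) ∧ NZ ((u - v) + (v - w)) ∧ TChain (v :: w :: r)
  | [u, v] => U (u - v)
  | _ => True

lemma TChain.tail {h : ℤ × ℤ} {P : List (ℤ × ℤ)} (hP : TChain (h :: P)) : TChain P := by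
  match P with
  | [] => trivial
  | [x] => trivial
  | x :: y :: r => exact hP.2.2.2

lemma TChain.chain : ∀ {P : List (ℤ × ℤ)}, TChain P → UChain P
  | [], _ => by simp [UChain]
  | [x], _ => by simp [UChain]
  | [x, y], h => by
    have h' : U (x - y) := h
    simpa [UChain] using h'
  | x :: y :: z :: r, h => by
    refine List.isChain_cons_cons.2 ⟨h.1, ?_⟩
    exact TChain.chain h.2.2.2

/-- The secant formula: total turning = angle seen from the start + angle seen from the end. -/
lemma secant (z : ℤ × ℤ) : ∀ (t : List (ℤ × ℤ)) (h : ℤ × ℤ), TChain (h :: (t ++ [z])) →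
    (h :: (t ++ [z])).Nodup → Tn (h :: (t ++ [z])) = Th z (h :: t) + Th h (t ++ [z]) := by
  intro t
  induction t with
  | nil => intro h _ _; simp
  | cons x r ih =>
    intro h hT hN
    have hT' : TChain (x :: (r ++ [z])) := hT.tail
    have hN' : (x :: (r ++ [z])).Nodup := by
      have := List.nodup_cons.1 hN
      exact this.2
    have IH := ih x hT' hN'
    have hhx : h ≠ x := by
      intro e; subst e; simp at hN
    have hhz : h ≠ z := by
      intro e; subst e; simp at hN
    have hxz : x ≠ z := by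
      intro e; subst e; simp at hN
    cases r with
    | nil =>
      simp only [List.cons_append, List.nil_append] at *
      simp only [Tn_cons_cons_cons, Tn_two, Th_cons_cons, Th_single, zero_add]
      obtain ⟨h1, h2, h3, h4⟩ := hT
      have h4' : U (x - z) := h4
      have ht := dl_turn (e := x - z) (f := h - x) h4' h1 (by
        have : (x - z) + (h - x) = (h - x) + (x - z) := by ring
        rw [this]; exact h3) h2
      have e1 : (x - z) + (h - x) = h - z := by ring
      rw [e1] at ht
      have hz1 : NZ (h - z) := nz_of_ne hhz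
      have hz2 : NZ (h - x) := nz_of_ne hhx
      have hn := dl_neg hz1 hz2 (by
        have : (h - x) - (h - z) = -(x - z) := by ring
        rw [this]; exact h4'.neg)
      have e2 : -(h - z) = z - h := by ring
      have e3 : -(h - x) = x - h := by ring
      rw [e2, e3] at hn
      rw [← ht, hn]
    | cons y s =>
      simp only [List.cons_append] at *
      obtain ⟨h1, h2, h3, h4⟩ := hT
      have hxy : U (x - y) := by
        have := h4.chain
        exact (List.isChain_cons_cons.1 this).1
      have hhy : h ≠ y := by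
        intro e; subst e; simp at hN
      have hxy' : x ≠ y := by
        intro e; subst e; simp at hN
      -- turn at x
      have ht := dl_turn (e := x - y) (f := h - x) hxy h1 (by
        have : (x - y) + (h - x) = (h - x) + (x - y) := by ring
        rw [this]; exact h3) h2
      have e1 : (x - y) + (h - x) = h - y := by ring
      rw [e1] at ht
      have ch : UChain (y :: (s ++ [z])) := h4.tail.chain
      have hnx : x ∉ y :: (s ++ [z]) := by
        have := (List.nodup_cons.1 hN').1
        exact this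
      have hnh : h ∉ y :: (s ++ [z]) := by
        intro hm
        have := (List.nodup_cons.1 hN).1
        exact this (List.mem_cons_of_mem _ hm)
      have cv := Th_change (p := x) (q := h) h1.symm (s ++ [z]) y ch hnx hnh
      have gl : (y :: (s ++ [z])).getLast (by simp) = z := by simp
      rw [gl] at cv
      rw [Tn_cons_cons_cons, IH]
      simp only [Th_cons_cons]
      have n1 : dl (z - x) (z - h) = dl (x - z) (h - z) := by
        have := dl_neg (z := x - z) (z' := h - z) (nz_of_ne hxz) (nz_of_ne hhz) (by simpa using h1)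
        have e2 : -(x - z) = z - x := by ring
        have e3 : -(h - z) = z - h := by ring
        rwa [e2, e3] at this
      have n2 : dl (y - x) (y - h) = dl (x - y) (h - y) := by
        have := dl_neg (z := x - y) (z' := h - y) (nz_of_ne hxy') (nz_of_ne hhy) (by simpa using h1)
        have e2 : -(x - y) = y - x := by ring
        have e3 : -(h - y) = y - h := by ring
        rwa [e2, e3] at this
      have n3 : dl (y - h) (x - h) = dl (h - y) (h - x) := by
        have := dl_neg (z := h - y) (z' := h - x) (nz_of_ne hhy) (nz_of_ne hhx) (by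
          have : (h - x) - (h - y) = -(x - y) := by ring
          rw [this]; exact hxy.neg)
        have e2 : -(h - y) = y - h := by ring
        have e3 : -(h - x) = x - h := by ring
        rwa [e2, e3] at this
      rw [n1, n2] at cv
      rw [n3]
      linarith

end Pool.Agent.Hhelper14.SAW
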