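import Pool.Agent.Hhelper14.SAW.Loop

/-!
Self-avoiding walks on the honeycomb lattice in a domain `p` of the slit plane, started at the tip of the
slit, as lists of vertices (latest first); cancellation of self-hits.
-/

namespace Pool.Agent.Hhelper14.SAW

/-- The first vertex of all walks. -/
def o : ℤ × ℤ := (0, 0)
/-- The vertex behind it. -/
def o' : ℤ × ℤ := (-1, 0)

/-- The slit: the open negative axis. -/
def slit (z : ℤ × ℤ) : Prop := z.2 = 0 ∧ z.1 < 0

instance (z : ℤ × ℤ) : Decidable (slit z) := by unfold slit; infer_instance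

/-- A domain of the slit plane containing the start. -/
structure Dom (p : ℤ × ℤ → Prop) : Prop where
  start : p o
  hon : ∀ x, p x → hon x
  off : ∀ x, p x → ¬ slit x

/-- A self-avoiding walk with `n` steps in the domain, latest vertex first, ending with `[o, o']`. -/
def IsSaw (p : ℤ × ℤ → Prop) (n : ℕ) (P : List (ℤ × ℤ)) : Prop :=
  P.length = n + 2 ∧ P.Nodup ∧ HChain P ∧ ∃ t, P = t ++ [o, o'] ∧ ∀ x ∈ t ++ [o], p x

/-- The two candidate extensions. -/
def exts : List (ℤ × ℤ) → Finset (List (ℤ × ℤ))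
  | v :: w :: r => {(v + L (v - w)) :: v :: w :: r, (v + R (v - w)) :: v :: w :: r}
  | _ => ∅

lemma LR_ne {z : ℤ × ℤ} (hz : U z) : L z ≠ R z := by
  intro h
  obtain ⟨a, b⟩ := z
  simp only [U, L, R, Prod.mk.injEq] at *
  omega

lemma hon_o : hon o := by decide
lemma hon_o' : hon o' := by decide
lemma adj_o : Adj o o' := ⟨hon_o, hon_o', by decide⟩
lemma slit_o' : slit o' := by decide

lemma off_of_not_slit {x : ℤ × ℤ} (h : ¬ slit x) : Off (x - o') := by
  simp only [slit, Off, o', Prod.fst_sub, Prod.snd_sub] at *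
  omega

lemma adj_LR {u v w : ℤ × ℤ} (hv : Adj v w) (h : u - v = L (v - w) ∨ u - v = R (v - w)) :
    Adj u v ∧ u ≠ w := by
  obtain ⟨a, b⟩ := u
  obtain ⟨c, e⟩ := v
  obtain ⟨f, g⟩ := w
  obtain ⟨h1, h2, h3⟩ := hv
  simp only [Adj, hon, U, L, R, Prod.mk_sub_mk, Prod.mk.injEq, ne_eq] at *
  rcases h3 with h3 | h3 | h3 | h3 | h3 | h3 <;> omega

lemma IsSaw.cases {p : ℤ × ℤ → Prop} {n : ℕ} {P : List (ℤ × ℤ)} (h : IsSaw p n P) :
    ∃ v w r, P = v :: w :: r ∧ Adj v w ∧ p v := by
  obtain ⟨hl, hN, hC, t, ht, hp⟩ := h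
  match P, hl with
  | v :: w :: r, _ =>
    refine ⟨v, w, r, rfl, (List.isChain_cons_cons.1 hC).1, ?_⟩
    cases t with
    | nil =>
      simp only [List.nil_append, List.cons.injEq] at ht
      rw [ht.1]; exact hp o (by simp)
    | cons a t =>
      simp only [List.cons_append, List.cons.injEq] at ht
      rw [ht.1]; exact hp a (by simp)

variable {p : ℤ × ℤ → Prop}

lemma isSaw_zero (hp : Dom p) : IsSaw p 0 [o, o'] := by
  refine ⟨rfl, by decide, ?_, [], rfl, ?_⟩
  · exact List.isChain_cons_cons.2 ⟨adj_o, by simp⟩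
  · intro x hx
    simp only [List.nil_append, List.mem_singleton] at hx
    rw [hx]; exact hp.start

lemma isSaw_zero_iff (hp : Dom p) {P : List (ℤ × ℤ)} : IsSaw p 0 P ↔ P = [o, o'] := by
  constructor
  · rintro ⟨hl, -, -, t, ht, -⟩
    have : t = [] := by
      rw [ht] at hl
      simp at hl
      exact hl
    rw [ht, this]; rfl
  · rintro rfl; exact isSaw_zero hp

lemma IsSaw.tail {n : ℕ} {u : ℤ × ℤ} {P : List (ℤ × ℤ)} (h : IsSaw p (n + 1) (u :: P)) :
    IsSaw p n P ∧ p u ∧ u ∉ P := by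
  obtain ⟨hl, hN, hC, t, ht, hp⟩ := h
  cases t with
  | nil =>
    rw [ht] at hl
    simp at hl
  | cons a t =>
    simp only [List.cons_append, List.cons.injEq] at ht
    obtain ⟨rfl, ht⟩ := ht
    refine ⟨⟨by simpa using hl, (List.nodup_cons.1 hN).2, ?_, t, ht, ?_⟩, hp u (by simp), (List.nodup_cons.1 hN).1⟩
    · exact hC.tail
    · intro x hx; exact hp x (by simp only [List.cons_append, List.mem_cons]; exact Or.inr hx)

lemma IsSaw.cons {n : ℕ} {u v w : ℤ × ℤ} {r : List (ℤ × ℤ)} (h : IsSaw p n (v :: w :: r))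
    (hadj : Adj u v) (hpu : p u) (hu : u ∉ v :: w :: r) : IsSaw p (n + 1) (u :: v :: w :: r) := by
  obtain ⟨hl, hN, hC, t, ht, hp⟩ := h
  refine ⟨by simpa using hl, List.nodup_cons.2 ⟨hu, hN⟩, List.isChain_cons_cons.2 ⟨hadj, hC⟩, u :: t, by rw [ht]; rfl, ?_⟩
  intro x hx
  simp only [List.cons_append, List.mem_cons] at hx
  rcases hx with rfl | hx
  · exact hpu
  · exact hp x hx

lemma isSaw_succ_iff {n : ℕ} {Q : List (ℤ × ℤ)} : IsSaw p (n + 1) Q ↔
    ∃ u v w r, Q = u :: v :: w :: r ∧ IsSaw p n (v :: w :: r) ∧ Adj u v ∧ p u ∧ u ∉ v :: w :: r := by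
  constructor
  · intro h
    match Q, h with
    | u :: P, h =>
      have h1 := h.tail
      obtain ⟨v, w, r, rfl, -, -⟩ := h1.1.cases
      exact ⟨u, v, w, r, rfl, h1.1, (List.isChain_cons_cons.1 h.2.2.1).1, h1.2.1, h1.2.2⟩
    | [], h => simp [IsSaw] at h
  · rintro ⟨u, v, w, r, rfl, h1, h2, h3, h4⟩
    exact h1.cons h2 h3 h4

/-- Candidates for one more step. -/
def IsCand (p : ℤ × ℤ → Prop) (n : ℕ) (Q : List (ℤ × ℤ)) : Prop :=
  ∃ u v w r, Q = u :: v :: w :: r ∧ IsSaw p n (v :: w :: r) ∧ Adj u v ∧ u ≠ w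

section fin
variable (p) [DecidablePred p]

/-- The finite set of self-avoiding walks with `n` steps. -/
def saw : ℕ → Finset (List (ℤ × ℤ))
  | 0 => {[o, o']}
  | n + 1 => ((saw n).biUnion exts).filter (fun Q => p (Q.headI) ∧ Q.headI ∉ Q.tail)

/-- All candidates. -/
def cand (n : ℕ) : Finset (List (ℤ × ℤ)) := (saw p n).biUnion exts

/-- Candidates that leave the domain. -/
def exits (n : ℕ) : Finset (List (ℤ × ℤ)) := (cand p n).filter (fun Q => ¬ p (Q.headI))

/-- Candidates that hit the walk itself. -/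
def selfs (n : ℕ) : Finset (List (ℤ × ℤ)) := (cand p n).filter (fun Q => p (Q.headI) ∧ Q.headI ∈ Q.tail)

lemma saw_succ (n : ℕ) : saw p (n + 1) = (cand p n).filter (fun Q => p (Q.headI) ∧ Q.headI ∉ Q.tail) := rfl

variable {p}

lemma mem_exts {Q P : List (ℤ × ℤ)} : Q ∈ exts P ↔
    ∃ u v w r, P = v :: w :: r ∧ Q = u :: P ∧ (u - v = L (v - w) ∨ u - v = R (v - w)) := by
  match P with
  | [] => simp [exts]
  | [x] => simp [exts]
  | v :: w :: r =>
    simp only [exts, Finset.mem_insert, Finset.mem_singleton]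
    constructor
    · rintro (h | h)
      · exact ⟨_, v, w, r, rfl, h, Or.inl (by ring)⟩
      · exact ⟨_, v, w, r, rfl, h, Or.inr (by ring)⟩
    · rintro ⟨u, v', w', r', h1, h2, h3⟩
      simp only [List.cons.injEq] at h1
      obtain ⟨rfl, rfl, rfl⟩ := h1
      rcases h3 with h3 | h3
      · left; rw [h2, ← h3]; simp
      · right; rw [h2, ← h3]; simp

lemma mem_cand_of (n : ℕ) (hs : ∀ P, P ∈ saw p n ↔ IsSaw p n P) {Q : List (ℤ × ℤ)} :
    Q ∈ cand p n ↔ IsCand p n Q := by
  unfold cand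
  rw [Finset.mem_biUnion]
  constructor
  · rintro ⟨P, hP, hQ⟩
    rw [hs] at hP
    obtain ⟨u, v, w, r, rfl, rfl, h⟩ := mem_exts.1 hQ
    have hvw := (List.isChain_cons_cons.1 hP.2.2.1).1
    have := adj_LR hvw h
    exact ⟨u, v, w, r, rfl, hP, this.1, this.2⟩
  · rintro ⟨u, v, w, r, rfl, hP, h1, h2⟩
    refine ⟨v :: w :: r, (hs _).2 hP, mem_exts.2 ⟨u, v, w, r, rfl, rfl, ?_⟩⟩
    exact hex_nbr h1 (List.isChain_cons_cons.1 hP.2.2.1).1 h2

lemma mem_saw (hp : Dom p) (n : ℕ) : ∀ P, P ∈ saw p n ↔ IsSaw p n P := by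
  induction n with
  | zero => intro P; rw [isSaw_zero_iff hp]; simp [saw]
  | succ n ih =>
    intro Q
    rw [saw_succ, Finset.mem_filter, mem_cand_of n ih, isSaw_succ_iff]
    constructor
    · rintro ⟨⟨u, v, w, r, rfl, hP, h1, h2⟩, h3, h4⟩
      exact ⟨u, v, w, r, rfl, hP, h1, h3, h4⟩
    · rintro ⟨u, v, w, r, rfl, hP, h1, h3, h4⟩
      exact ⟨⟨u, v, w, r, rfl, hP, h1, fun e => h4 (by simp [e])⟩, h3, h4⟩

lemma mem_cand (hp : Dom p) {n : ℕ} {Q : List (ℤ × ℤ)} : Q ∈ cand p n ↔ IsCand p n Q :=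
  mem_cand_of n (mem_saw hp n)

lemma mem_exits (hp : Dom p) {n : ℕ} {Q : List (ℤ × ℤ)} : Q ∈ exits p n ↔
    ∃ u v w r, Q = u :: v :: w :: r ∧ IsSaw p n (v :: w :: r) ∧ Adj u v ∧ u ≠ w ∧ ¬ p u := by
  unfold exits
  rw [Finset.mem_filter, mem_cand hp]
  constructor
  · rintro ⟨⟨u, v, w, r, rfl, hP, h1, h2⟩, h3⟩
    exact ⟨u, v, w, r, rfl, hP, h1, h2, h3⟩
  · rintro ⟨u, v, w, r, rfl, hP, h1, h2, h3⟩
    exact ⟨⟨u, v, w, r, rfl, hP, h1, h2⟩, h3⟩

end fin

/-- The phase. -/
noncomputable def zt (k : ℤ) : ℂ := Complex.exp ((k : ℂ) * (Real.pi / 8 * Complex.I))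

lemma zt_add (j k : ℤ) : zt (j + k) = zt j * zt k := by
  unfold zt
  rw [← Complex.exp_add]
  congr 1
  push_cast; ring

lemma zt_zero : zt 0 = 1 := by simp [zt]

lemma zt_ne (k : ℤ) : zt k ≠ 0 := Complex.exp_ne_zero _

lemma zt_norm (k : ℤ) : ‖zt k‖ = 1 := by
  unfold zt
  rw [Complex.norm_exp]
  simp

lemma zt_four : zt 4 = Complex.I := by
  unfold zt
  have : ((4 : ℤ) : ℂ) * (Real.pi / 8 * Complex.I) = (Real.pi / 2 : ℂ) * Complex.I := by push_cast; ring
  rw [this, Complex.exp_mul_I]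
  simp

lemma zt_neg_four : zt (-4) = -Complex.I := by
  unfold zt
  have : ((-4 : ℤ) : ℂ) * (Real.pi / 8 * Complex.I) = -((Real.pi / 2 : ℂ) * Complex.I) := by push_cast; ring
  rw [this, Complex.exp_neg, Complex.exp_mul_I]
  simp

lemma zt_pair (k : ℤ) {s : ℤ} (hs : s = 1 ∨ s = -1) : zt (k - 4 * s) + zt (k + 4 * s) = 0 := by
  rcases hs with rfl | rfl
  · have e1 : k - 4 * 1 = k + (-4) := by ring
    have e2 : k + 4 * 1 = k + 4 := by ring
    rw [e1, e2, zt_add, zt_add, zt_four, zt_neg_four]; ring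
  · have e1 : k - 4 * (-1) = k + 4 := by ring
    have e2 : k + 4 * (-1) = k + (-4) := by ring
    rw [e1, e2, zt_add, zt_add, zt_four, zt_neg_four]; ring

/-- `2 cos(π/8) = √(2+√2)`. -/
noncomputable def mu : ℝ := 2 * Real.cos (Real.pi / 8)

lemma zt_branch : zt 1 + zt (-1) = (mu : ℂ) := by
  unfold zt mu
  have e1 : ((1 : ℤ) : ℂ) * (Real.pi / 8 * Complex.I) = ((Real.pi / 8 : ℝ) : ℂ) * Complex.I := by
    push_cast; ring
  have e2 : ((-1 : ℤ) : ℂ) * (Real.pi / 8 * Complex.I) = ((-(Real.pi / 8) : ℝ) : ℂ) * Complex.I := by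
    push_cast; ring
  rw [e1, e2, Complex.exp_mul_I, Complex.exp_mul_I, ← Complex.ofReal_cos, ← Complex.ofReal_sin,
    ← Complex.ofReal_cos, ← Complex.ofReal_sin, Real.cos_neg, Real.sin_neg]
  push_cast
  ring

/-- Reversal of the loop. -/
def flip (Q : List (ℤ × ℤ)) : List (ℤ × ℤ) :=
  match Q with
  | u :: P => u :: ((P.takeWhile (fun x => decide (x ≠ u))).reverse ++ P.dropWhile (fun x => decide (x ≠ u)))
  | [] => []

lemma flip_eq {u : ℤ × ℤ} {l t : List (ℤ × ℤ)} (h : u ∉ l) :
    flip (u :: (l ++ u :: t)) = u :: (l.reverse ++ u :: t) := by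
  have h1 : ∀ a ∈ l, (fun x => decide (x ≠ u)) a = true := by
    intro a ha
    simp only [ne_eq, decide_not, Bool.not_eq_eq_eq_not, Bool.not_true, decide_eq_false_iff_not]
    rintro rfl; exact h ha
  simp only [flip]
  rw [List.takeWhile_append_of_pos h1, List.dropWhile_append_of_pos h1]
  simp

/-- Structure of self-hits. -/
lemma selfs_struct (hp : Dom p) {n : ℕ} {Q : List (ℤ × ℤ)} (hQ : IsCand p n Q) (hh : p Q.headI)
    (hm : Q.headI ∈ Q.tail) :
    ∃ u h x r q rest, Q = u :: h :: (x :: r ++ u :: q :: rest) ∧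
      (h :: (x :: r ++ u :: q :: rest)).Nodup ∧ HChain Q ∧
      (q :: rest).getLast (by simp) = o' ∧ (∀ y ∈ u :: h :: x :: r, p y) ∧
      IsSaw p n (h :: (x :: r ++ u :: q :: rest)) := by
  obtain ⟨u, v, w, r0, rfl, hP, hadj, huw⟩ := hQ
  simp only [List.headI_cons, List.tail_cons] at hh hm
  have huv : u ≠ v := by
    rintro rfl
    have := hadj.2.2.nz
    simp [NZ] at this
  have hm2 : u ∈ r0 := by
    simp only [List.mem_cons] at hm
    tauto
  obtain ⟨s, t, rfl⟩ := List.append_of_mem hm2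
  obtain ⟨hl, hN, hC, t0, ht0, hpt⟩ := hP
  -- t nonempty
  have hlast : (v :: w :: (s ++ u :: t)).getLast (by simp) = o' := by
    simp only [ht0]; simp
  have htne : t ≠ [] := by
    rintro rfl
    have : (v :: w :: (s ++ [u])).getLast (by simp) = u := by simp
    rw [this] at hlast
    exact hp.off u hh (by rw [hlast]; exact slit_o')
  obtain ⟨q, rest, rfl⟩ := List.exists_cons_of_ne_nil htne
  have hlast2 : (q :: rest).getLast (by simp) = o' := by
    rw [← hlast]; simp
  refine ⟨u, v, w, s, q, rest, by simp, by simpa using hN, ?_, hlast2, ?_, ⟨by simpa using hl, by simpa using hN, by simpa using hC, t0, by simpa using ht0, hpt⟩⟩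
  · exact List.isChain_cons_cons.2 ⟨hadj, hC⟩
  · -- all in p
    intro y hy
    have hy' : y ∈ v :: w :: (s ++ u :: q :: rest) := by
      simp only [List.mem_cons, List.mem_append] at hy ⊢
      tauto
    have hyo : y ≠ o' := by
      rintro rfl
      simp only [List.mem_cons] at hy
      have hu' : u ≠ o' := by
        rintro rfl; exact hp.off _ hh slit_o'
      have ho'mem : o' ∈ q :: rest := by rw [← hlast2]; exact List.getLast_mem _
      have hN2 : ((v :: w :: s) ++ (u :: q :: rest)).Nodup := by simpa using hN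
      have hd := (List.nodup_append.1 hN2).2.2
      have : o' ∈ v :: w :: s := by
        simp only [List.mem_cons]
        rcases hy with h | h | h | h
        · exact absurd h.symm hu'
        · exact Or.inl h
        · exact Or.inr (Or.inl h)
        · exact Or.inr (Or.inr h)
      exact hd o' this o' (List.mem_cons_of_mem _ ho'mem) rfl
    rw [ht0] at hy'
    simp only [List.mem_append, List.mem_cons, List.not_mem_nil, or_false] at hy'
    rcases hy' with h | h | h
    · exact hpt y (by simp [h])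
    · exact hpt y (by simp [h])
    · exact absurd h hyo

lemma flip_spec (hp : Dom p) {n : ℕ} {Q : List (ℤ × ℤ)} (hQ : IsCand p n Q) (hh : p Q.headI)
    (hm : Q.headI ∈ Q.tail) :
    IsCand p n (flip Q) ∧ p (flip Q).headI ∧ (flip Q).headI ∈ (flip Q).tail ∧ flip (flip Q) = Q ∧
      zt (Tn Q) + zt (Tn (flip Q)) = 0 := by
  obtain ⟨u, h, x, r, q, rest, rfl, hN, hH, hlast, hpy, hS⟩ := selfs_struct hp hQ hh hm
  simp only [List.headI_cons, List.tail_cons] at hh hm
  have hul : u ∉ h :: x :: r := by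
    have : ((h :: x :: r) ++ (u :: q :: rest)).Nodup := by simpa using hN
    have hd := (List.nodup_append.1 this).2.2
    intro hu; exact hd u hu u (by simp) rfl
  have hflip : flip (u :: h :: (x :: r ++ u :: q :: rest)) =
      u :: ((h :: x :: r).reverse ++ u :: q :: rest) := by
    have := flip_eq (t := q :: rest) hul
    simpa using this
  -- the reversed loop
  obtain ⟨h2, x2, r2, hrev⟩ : ∃ h2 x2 r2, (h :: x :: r).reverse = h2 :: x2 :: r2 := by
    have hlen : (h :: x :: r).reverse.length = r.length + 2 := by simp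
    match hR : (h :: x :: r).reverse, hlen with
    | a :: b :: c, _ => exact ⟨a, b, c, rfl⟩
  have hlast_rev : (x2 :: r2).getLast (by simp) = h := by
    have h1 : (h2 :: x2 :: r2).getLast (by simp) = h := by
      simp only [← hrev]; simp
    rw [← h1, List.getLast_cons_cons]
  have hh2 : h2 = (x :: r).getLast (by simp) := by
    have h1 : (h2 :: x2 :: r2).head (by simp) = (h :: x :: r).getLast (by simp) := by
      simp only [← hrev]; rw [List.head_reverse]
    rw [List.getLast_cons_cons] at h1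
    simpa using h1
  set a := (x :: r).getLast (by simp) with ha
  have hdl : x :: r = (x :: r).dropLast ++ [a] := by rw [ha]; exact (List.dropLast_append_getLast _).symm
  have ha_mem : a ∈ x :: r := by rw [ha]; exact List.getLast_mem _
  have hau : Adj a u := by
    have : u :: h :: (x :: r ++ u :: q :: rest) =
      (u :: h :: (x :: r).dropLast) ++ a :: u :: (q :: rest) := by
      conv_lhs => rw [hdl]
      simp
    rw [this] at hH
    exact (List.isChain_cons_cons.1 (List.isChain_append.1 hH).2.1).1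
  have huq : Adj u q := by
    have : u :: h :: (x :: r ++ u :: q :: rest) = (u :: h :: x :: r) ++ (u :: q :: rest) := by simp
    rw [this] at hH
    exact (List.isChain_cons_cons.1 (List.isChain_append.1 hH).2.1).1
  have hHl : HChain (u :: q :: rest) := by
    have : u :: h :: (x :: r ++ u :: q :: rest) = (u :: h :: x :: r) ++ (u :: q :: rest) := by simp
    rw [this] at hH
    exact (List.isChain_append.1 hH).2.1
  have huh : Adj u h := (List.isChain_cons_cons.1 hH).1
  have hHloop : HChain (h :: x :: r) := by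
    have : u :: h :: (x :: r ++ u :: q :: rest) = [u] ++ ((h :: x :: r) ++ (u :: q :: rest)) := by simp
    rw [this] at hH
    exact (List.isChain_append.1 (List.isChain_append.1 hH).2.1).1
  have hHrev : HChain (h2 :: x2 :: r2) := by
    rw [← hrev]
    exact List.isChain_reverse.2 (List.IsChain.imp (fun _ _ hh => hh.symm) hHloop)
  have hmem_rev : ∀ y, y ∈ h2 :: x2 :: r2 ↔ y ∈ h :: x :: r := by
    intro y; rw [← hrev]; exact List.mem_reverse
  have hNrev : ((h2 :: x2 :: r2) ++ (u :: q :: rest)).Nodup := by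
    have h0 : ((h :: x :: r) ++ (u :: q :: rest)).Nodup := by simpa using hN
    have h1 := List.nodup_append.1 h0
    rw [List.nodup_append]
    refine ⟨?_, h1.2.1, ?_⟩
    · rw [← hrev]; exact List.nodup_reverse.2 h1.1
    · intro y hy z hz
      exact h1.2.2 y ((hmem_rev y).1 hy) z hz
  have hHcat : HChain ((h2 :: x2 :: r2) ++ (u :: q :: rest)) := by
    refine List.isChain_append.2 ⟨hHrev, hHl, ?_⟩
    intro y hy z hz
    have hy' : y = h := by
      have : (h2 :: x2 :: r2).getLast? = some h := by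
        rw [← hrev]; simp
      rw [this] at hy
      simpa using hy.symm
    have hz' : z = u := by simpa using hz.symm
    rw [hy', hz']; exact huh.symm
  have hS' : IsSaw p n ((h2 :: x2 :: r2) ++ (u :: q :: rest)) := by
    obtain ⟨hl, -, -, t0, ht0, hpt⟩ := hS
    have ht0' : (h :: x :: r) ++ (u :: q :: rest) = t0 ++ [o, o'] := by simpa using ht0
    obtain ⟨t1, ht1, ht01⟩ : ∃ t1, u :: q :: rest = t1 ++ [o, o'] ∧ t0 = (h :: x :: r) ++ t1 := by
      rcases List.append_eq_append_iff.1 ht0' with ⟨c, hc1, hc2⟩ | ⟨c, hc1, hc2⟩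
      · exact ⟨c, hc2, hc1⟩
      · have hc : c = [] := by
          have := congrArg List.length hc2
          simp at this
          exact List.length_eq_zero_iff.1 (by omega)
        subst hc
        exact ⟨[], by simpa using hc2.symm, by simpa using hc1.symm⟩
    refine ⟨?_, hNrev, hHcat, (h2 :: x2 :: r2) ++ t1, ?_, ?_⟩
    · rw [← hrev]
      simp at hl ⊢
      omega
    · rw [ht1]; simp
    · intro y hy
      simp only [List.append_assoc, List.mem_append] at hy
      rcases hy with hy | hy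
      · exact hpy y (by
          have := (hmem_rev y).1 hy
          exact List.mem_cons_of_mem _ this)
      · apply hpt
        rw [ht01]
        simp only [List.append_assoc, List.mem_append]
        exact Or.inr hy
  have hh2u : Adj u h2 := by rw [hh2]; exact hau.symm
  have hux2 : u ≠ x2 := by
    rintro rfl
    exact hul ((hmem_rev _).1 (by simp))
  have hcand' : IsCand p n (u :: h2 :: (x2 :: r2 ++ u :: q :: rest)) :=
    ⟨u, h2, x2, r2 ++ u :: q :: rest, by simp, by simpa using hS', hh2u, hux2⟩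
  have hfl2 : flip (u :: h2 :: (x2 :: r2 ++ u :: q :: rest)) = u :: h :: (x :: r ++ u :: q :: rest) := by
    have hul2 : u ∉ h2 :: x2 :: r2 := fun hm => hul ((hmem_rev _).1 hm)
    have h5 := flip_eq (t := q :: rest) hul2
    have h6 : (h2 :: x2 :: r2).reverse = h :: x :: r := by rw [← hrev, List.reverse_reverse]
    rw [h6] at h5
    simpa using h5
  have hform : flip (u :: h :: (x :: r ++ u :: q :: rest)) = u :: h2 :: (x2 :: r2 ++ u :: q :: rest) := by
    rw [hflip, hrev]; simp
  rw [hform]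
  refine ⟨hcand', hh, by simp, hfl2, ?_⟩
  -- phases
  have k1 := self_hit o' hH hN hlast (fun y hy => off_of_not_slit (hp.off y (hpy y hy)))
  have hH2 : HChain (u :: h2 :: (x2 :: r2 ++ u :: q :: rest)) := by
    refine List.isChain_cons_cons.2 ⟨hh2u, ?_⟩
    simpa using hHcat
  have hN2 : (h2 :: (x2 :: r2 ++ u :: q :: rest)).Nodup := by simpa using hNrev
  have k2 := self_hit o' hH2 hN2 hlast (fun y hy => off_of_not_slit (hp.off y (hpy y (by
    rcases List.mem_cons.1 hy with e | hy
    · rw [e]; simp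
    · exact List.mem_cons_of_mem _ ((hmem_rev y).1 hy)))))
  rw [← ha] at k1
  rw [hlast_rev] at k2
  -- directions
  have haq : a ≠ q := by
    have h0 : ((h :: x :: r) ++ (u :: q :: rest)).Nodup := by simpa using hN
    exact (List.nodup_append.1 h0).2.2 a (List.mem_cons_of_mem _ ha_mem) q (by simp)
  have hhq : h ≠ q := by
    have h0 : ((h :: x :: r) ++ (u :: q :: rest)).Nodup := by simpa using hN
    exact (List.nodup_append.1 h0).2.2 h (by simp) q (by simp)
  have hha : h ≠ a := by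
    intro e
    have := (List.nodup_cons.1 hN).1
    exact this (by rw [e]; exact List.mem_append_left _ ha_mem)
  have f1 := hex_nbr hau huq haq
  have g1 := hex_nbr huh.symm huq hhq
  have hLR := dl_LR huq.2.2
  have hne : a - u ≠ h - u := fun e => hha (by
    have := congrArg (· + u) e
    simpa using this.symm)
  rw [k1, k2]
  rcases f1 with f1 | f1 <;> rcases g1 with g1 | g1
  · exact absurd (f1.trans g1.symm) hne
  · rw [f1, g1, hLR.1, hLR.2]
    have := zt_pair (Tn (u :: q :: rest)) (s := 1) (Or.inl rfl)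
    have e1 : Tn (u :: q :: rest) - 4 * (-1) = Tn (u :: q :: rest) + 4 * 1 := by ring
    rw [e1]; exact this
  · rw [f1, g1, hLR.1, hLR.2]
    have := zt_pair (Tn (u :: q :: rest)) (s := -1) (Or.inr rfl)
    have e1 : Tn (u :: q :: rest) - 4 * 1 = Tn (u :: q :: rest) + 4 * (-1) := by ring
    rw [e1]; exact this
  · exact absurd (f1.trans g1.symm) hne

section ident
variable [DecidablePred p]

lemma selfs_sum (hp : Dom p) (n : ℕ) : ∑ Q ∈ selfs p n, zt (Tn Q) = 0 := by
  have key : ∀ Q ∈ selfs p n, IsCand p n (flip Q) ∧ p (flip Q).headI ∧ (flip Q).headI ∈ (flip Q).tail ∧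
      flip (flip Q) = Q ∧ zt (Tn Q) + zt (Tn (flip Q)) = 0 := by
    intro Q hQ
    unfold selfs at hQ
    rw [Finset.mem_filter, mem_cand hp] at hQ
    exact flip_spec hp hQ.1 hQ.2.1 hQ.2.2
  refine Finset.sum_involution (fun Q _ => flip Q) (fun Q hQ => (key Q hQ).2.2.2.2) ?_ ?_ ?_
  · intro Q hQ hne he
    have := (key Q hQ).2.2.2.2
    rw [he] at this
    apply hne
    have h2 : (2 : ℂ) * zt (Tn Q) = 0 := by rw [two_mul]; exact this
    rcases mul_eq_zero.1 h2 with h3 | h3
    · norm_num at h3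
    · exact h3
  · intro Q hQ
    unfold selfs
    rw [Finset.mem_filter, mem_cand hp]
    exact ⟨(key Q hQ).1, (key Q hQ).2.1, (key Q hQ).2.2.1⟩
  · intro Q hQ
    exact (key Q hQ).2.2.2.1

/-- Weighted sum of the walks. -/
noncomputable def Tsum (p : ℤ × ℤ → Prop) [DecidablePred p] (n : ℕ) : ℂ := ∑ P ∈ saw p n, zt (Tn P)

lemma Tsum_zero : Tsum p 0 = 1 := by
  unfold Tsum saw
  simp [zt_zero]

/-- Branching. -/
lemma cand_sum (hp : Dom p) (n : ℕ) : ∑ Q ∈ cand p n, zt (Tn Q) = mu * Tsum p n := by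
  unfold cand Tsum
  rw [Finset.sum_biUnion, Finset.mul_sum]
  · refine Finset.sum_congr rfl fun P hP => ?_
    rw [mem_saw hp] at hP
    obtain ⟨v, w, r, rfl, hvw, -⟩ := hP.cases
    have hne : (v + L (v - w)) :: v :: w :: r ≠ (v + R (v - w)) :: v :: w :: r := by
      intro h
      simp only [List.cons.injEq, and_true, add_right_inj] at h
      exact LR_ne hvw.2.2 h
    simp only [exts]
    rw [Finset.sum_pair hne, Tn_cons_cons_cons, Tn_cons_cons_cons]
    have hLR := dl_LR hvw.2.2
    have e1 : v + L (v - w) - v = L (v - w) := by ring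
    have e2 : v + R (v - w) - v = R (v - w) := by ring
    rw [e1, e2, hLR.1, hLR.2, zt_add, zt_add, ← zt_branch]
    ring
  · intro P hP P' hP' hne
    simp only [Function.onFun]
    rw [Finset.disjoint_left]
    intro Q hQ hQ'
    obtain ⟨u, v, w, r, h1, h2, -⟩ := mem_exts.1 hQ
    obtain ⟨u', v', w', r', h1', h2', -⟩ := mem_exts.1 hQ'
    rw [h2] at h2'
    simp only [List.cons.injEq] at h2'
    exact hne h2'.2

/-- The one-step identity. -/
lemma Tsum_succ (hp : Dom p) (n : ℕ) :
    (mu : ℂ) * Tsum p n = Tsum p (n + 1) + ∑ Q ∈ exits p n, zt (Tn Q) := by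
  rw [← cand_sum hp]
  have h1 : ∑ Q ∈ cand p n, zt (Tn Q) =
      (∑ Q ∈ (cand p n).filter (fun Q => p Q.headI), zt (Tn Q)) +
      ∑ Q ∈ (cand p n).filter (fun Q => ¬ p Q.headI), zt (Tn Q) :=
    (Finset.sum_filter_add_sum_filter_not _ _ _).symm
  have h2 : ∑ Q ∈ (cand p n).filter (fun Q => p Q.headI), zt (Tn Q) =
      (∑ Q ∈ ((cand p n).filter (fun Q => p Q.headI)).filter (fun Q => Q.headI ∈ Q.tail), zt (Tn Q)) +
      ∑ Q ∈ ((cand p n).filter (fun Q => p Q.headI)).filter (fun Q => ¬ Q.headI ∈ Q.tail), zt (Tn Q) :=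
    (Finset.sum_filter_add_sum_filter_not _ _ _).symm
  have h3 : ((cand p n).filter (fun Q => p Q.headI)).filter (fun Q => Q.headI ∈ Q.tail) = selfs p n := by
    unfold selfs; rw [Finset.filter_filter]
  have h4 : ((cand p n).filter (fun Q => p Q.headI)).filter (fun Q => ¬ Q.headI ∈ Q.tail) = saw p (n + 1) := by
    rw [saw_succ, Finset.filter_filter]
  rw [h1, h2, h3, h4, selfs_sum hp, zero_add]
  rfl

end ident

end Pool.Agent.Hhelper14.SAW
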